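import Mathlib
import Pool.Agent.H469R2.NK.KL

namespace Pool.Agent.H373R2.T4
open Finset
open Pool.Agent.H469R2.NK (e norm_e e_add conj_e e_zero)

/-- a quadratic form over a grid -/
lemma grid_sum {τ : Type*} (S : Finset τ) (y : τ → ℝ) (b : τ → ℂ) (δ : ℝ) (J : ℕ) :
    J * ∑ j ∈ range J, ‖∑ s ∈ S, b s * e (δ * j * y s)‖ ^ 2 ≤
      ∑ s ∈ S, ∑ s' ∈ S, ‖b s‖ * ‖b s'‖ * ‖∑ p ∈ range (2 * J), e (δ * p * (y s - y s'))‖ ^ 2 := by
  set G : ℝ → ℂ := fun t => ∑ s ∈ S, b s * e (δ * t * y s) with hG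
  have hlow : (J : ℝ) * ∑ j ∈ range J, ‖G j‖ ^ 2 ≤ ∑ q ∈ range (2 * J), ∑ p ∈ range (2 * J), ‖G ((p : ℝ) - q)‖ ^ 2 := by
    have h1 : ∀ q ∈ range J, ∑ j ∈ range J, ‖G j‖ ^ 2 ≤ ∑ p ∈ range (2 * J), ‖G ((p : ℝ) - q)‖ ^ 2 := by
      intro q hq
      rw [mem_range] at hq
      calc ∑ j ∈ range J, ‖G j‖ ^ 2 = ∑ p ∈ Ico q (q + J), ‖G ((p : ℝ) - q)‖ ^ 2 := by
            rw [sum_Ico_eq_sum_range, Nat.add_sub_cancel_left]
            apply sum_congr rfl; intro j _
            congr 3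
            push_cast; ring
        _ ≤ _ := by
            apply sum_le_sum_of_subset_of_nonneg
            · intro p hp; rw [mem_Ico] at hp; rw [mem_range]; omega
            · intro _ _ _; positivity
    calc (J : ℝ) * ∑ j ∈ range J, ‖G j‖ ^ 2 = ∑ _q ∈ range J, ∑ j ∈ range J, ‖G j‖ ^ 2 := by
          rw [sum_const, card_range, nsmul_eq_mul]
      _ ≤ ∑ q ∈ range J, ∑ p ∈ range (2 * J), ‖G ((p : ℝ) - q)‖ ^ 2 := sum_le_sum h1
      _ ≤ _ := by
          apply sum_le_sum_of_subset_of_nonneg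
          · intro q hq; rw [mem_range] at hq ⊢; omega
          · intro _ _ _; positivity
  refine hlow.trans ?_
  have hexp : ((∑ q ∈ range (2 * J), ∑ p ∈ range (2 * J), ‖G ((p : ℝ) - q)‖ ^ 2 : ℝ) : ℂ) =
      ∑ s ∈ S, ∑ s' ∈ S, b s * (starRingEnd ℂ) (b s') * ((‖∑ p ∈ range (2 * J), e (δ * p * (y s - y s'))‖ ^ 2 : ℝ) : ℂ) := by
    have h1 : ∀ p q : ℕ, ((‖G ((p : ℝ) - q)‖ ^ 2 : ℝ) : ℂ) = ∑ s ∈ S, ∑ s' ∈ S, b s * (starRingEnd ℂ) (b s') *
        (e (δ * p * (y s - y s')) * (starRingEnd ℂ) (e (δ * q * (y s - y s')))) := by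
      intro p q
      rw [← Complex.normSq_eq_norm_sq, ← Complex.mul_conj]
      simp only [hG]
      rw [map_sum, sum_mul_sum]
      apply sum_congr rfl; intro s _
      apply sum_congr rfl; intro s' _
      rw [map_mul, conj_e, conj_e]
      have h2 : e (δ * ((p : ℝ) - q) * y s) * e (-(δ * ((p : ℝ) - q) * y s')) = e (δ * p * (y s - y s')) * e (-(δ * q * (y s - y s'))) := by
        rw [← e_add, ← e_add]; congr 1; ring
      calc b s * e (δ * ((p : ℝ) - q) * y s) * ((starRingEnd ℂ) (b s') * e (-(δ * ((p : ℝ) - q) * y s'))) =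
            b s * (starRingEnd ℂ) (b s') * (e (δ * ((p : ℝ) - q) * y s) * e (-(δ * ((p : ℝ) - q) * y s'))) := by ring
        _ = _ := by rw [h2]
    have h2 : ∀ s s', ((‖∑ p ∈ range (2 * J), e (δ * p * (y s - y s'))‖ ^ 2 : ℝ) : ℂ) =
        ∑ q ∈ range (2 * J), ∑ p ∈ range (2 * J), (e (δ * p * (y s - y s')) * (starRingEnd ℂ) (e (δ * q * (y s - y s')))) := by
      intro s s'
      rw [← Complex.normSq_eq_norm_sq, ← Complex.mul_conj, map_sum, sum_mul_sum, sum_comm]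
    push_cast
    have h1' : ∀ p q : ℕ, (‖G ((p : ℝ) - q)‖ : ℂ) ^ 2 = ∑ s ∈ S, ∑ s' ∈ S, b s * (starRingEnd ℂ) (b s') *
        (e (δ * p * (y s - y s')) * (starRingEnd ℂ) (e (δ * q * (y s - y s')))) := by
      intro p q
      rw [← h1]; push_cast; rfl
    have h2' : ∀ s s', (‖∑ p ∈ range (2 * J), e (δ * p * (y s - y s'))‖ : ℂ) ^ 2 =
        ∑ q ∈ range (2 * J), ∑ p ∈ range (2 * J), (e (δ * p * (y s - y s')) * (starRingEnd ℂ) (e (δ * q * (y s - y s')))) := by
      intro s s'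
      rw [← h2]; push_cast; rfl
    simp_rw [h1', h2', mul_sum]
    -- reorder
    calc ∑ q ∈ range (2 * J), ∑ p ∈ range (2 * J), ∑ s ∈ S, ∑ s' ∈ S, b s * (starRingEnd ℂ) (b s') *
          (e (δ * p * (y s - y s')) * (starRingEnd ℂ) (e (δ * q * (y s - y s')))) =
          ∑ q ∈ range (2 * J), ∑ s ∈ S, ∑ p ∈ range (2 * J), ∑ s' ∈ S, b s * (starRingEnd ℂ) (b s') *
          (e (δ * p * (y s - y s')) * (starRingEnd ℂ) (e (δ * q * (y s - y s')))) := by
            apply sum_congr rfl; intro q _; rw [sum_comm]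
      _ = ∑ s ∈ S, ∑ q ∈ range (2 * J), ∑ p ∈ range (2 * J), ∑ s' ∈ S, b s * (starRingEnd ℂ) (b s') *
          (e (δ * p * (y s - y s')) * (starRingEnd ℂ) (e (δ * q * (y s - y s')))) := by rw [sum_comm]
      _ = _ := by
          apply sum_congr rfl; intro s _
          calc _ = ∑ q ∈ range (2 * J), ∑ s' ∈ S, ∑ p ∈ range (2 * J), b s * (starRingEnd ℂ) (b s') *
                (e (δ * p * (y s - y s')) * (starRingEnd ℂ) (e (δ * q * (y s - y s')))) := by
                  apply sum_congr rfl; intro q _; rw [sum_comm]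
            _ = _ := by rw [sum_comm]
  have hreal : (∑ q ∈ range (2 * J), ∑ p ∈ range (2 * J), ‖G ((p : ℝ) - q)‖ ^ 2 : ℝ) =
      ‖∑ s ∈ S, ∑ s' ∈ S, b s * (starRingEnd ℂ) (b s') * ((‖∑ p ∈ range (2 * J), e (δ * p * (y s - y s'))‖ ^ 2 : ℝ) : ℂ)‖ := by
    rw [← hexp, Complex.norm_real, Real.norm_of_nonneg]
    exact sum_nonneg fun _ _ => sum_nonneg fun _ _ => by positivity
  rw [hreal]
  refine (norm_sum_le _ _).trans (sum_le_sum fun s _ => (norm_sum_le _ _).trans (sum_le_sum fun s' _ => ?_))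
  rw [norm_mul, norm_mul, RCLike.norm_conj, Complex.norm_real, Real.norm_of_nonneg (by positivity)]

/-- the double large sieve -/
theorem dls {ι τ : Type*} (R : Finset ι) (S : Finset τ) (x : ι → ℝ) (y : τ → ℝ) (a : ι → ℂ) (b : τ → ℂ)
    (Y : ℝ) (hY : 0 < Y) (J : ℕ) (hJ : 1 ≤ J) (hx : ∀ r ∈ R, 0 ≤ x r ∧ x r * (4 * Y) < J) (hy : ∀ s ∈ S, 0 ≤ y s ∧ y s ≤ Y)
    (A B : ℝ) (hA : ∀ r ∈ R, ‖a r‖ ≤ A) (hB : ∀ s ∈ S, ‖b s‖ ≤ B) (hA0 : 0 ≤ A) (hB0 : 0 ≤ B) (Nx Ny : ℝ)
    (hNx : (#((R ×ˢ R).filter (fun v => |x v.1 - x v.2| ≤ 1 / (4 * Y))) : ℝ) ≤ Nx)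
    (hNy : ∑ s ∈ S, ∑ s' ∈ S, ‖∑ p ∈ range (2 * J), e (1 / (4 * Y) * p * (y s - y s'))‖ ^ 2 ≤ J * Ny) :
    ‖∑ r ∈ R, ∑ s ∈ S, a r * b s * e (x r * y s)‖ ^ 2 ≤ 25 * (A ^ 2 * Nx * (B ^ 2 * Ny)) := by
  classical
  set δ : ℝ := 1 / (4 * Y) with hδ
  have hδ0 : 0 < δ := by positivity
  have hδY : δ * Y = 1 / 4 := by rw [hδ]; field_simp
  have hJ0 : (0 : ℝ) < J := by exact_mod_cast hJ
  have hNx0 : 0 ≤ Nx := le_trans (Nat.cast_nonneg _) hNx
  set c : ι → ℕ := fun r => ⌊x r * (4 * Y)⌋₊ with hc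
  have hcJ : ∀ r ∈ R, c r ∈ range J := by
    intro r hr
    rw [mem_range]
    exact (Nat.floor_lt (mul_nonneg (hx r hr).1 (by positivity))).2 (hx r hr).2
  set t : ι → ℝ := fun r => x r - δ * c r with ht
  have ht0 : ∀ r ∈ R, 0 ≤ t r ∧ t r ≤ δ := by
    intro r hr
    have h0 : 0 ≤ x r * (4 * Y) := mul_nonneg (hx r hr).1 (by positivity)
    have h1 : (c r : ℝ) ≤ x r * (4 * Y) := Nat.floor_le h0
    have h2 : x r * (4 * Y) < c r + 1 := Nat.lt_floor_add_one _
    have h3 : x r = δ * (x r * (4 * Y)) := by rw [hδ]; field_simp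
    simp only [ht]
    constructor
    · rw [h3]
      have := mul_le_mul_of_nonneg_left h1 hδ0.le
      have e1 : δ * (δ * (x r * (4 * Y)) * (4 * Y)) = δ * (x r * (4 * Y)) := by rw [hδ]; field_simp
      linarith
    · have := mul_le_mul_of_nonneg_left h2.le hδ0.le
      rw [← h3] at this
      linarith
  -- the Taylor coefficients
  set An : ℕ → ι → ℂ := fun n r => a r * ((((2 * Real.pi * t r * Y : ℝ) : ℂ) * Complex.I) ^ n / n.factorial) with hAn
  set Bn : ℕ → τ → ℂ := fun n s => b s * (((y s / Y : ℝ) : ℂ) ^ n) with hBn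
  have hterm : ∀ r s, HasSum (fun n => An n r * (Bn n s * e (δ * c r * y s))) (a r * b s * e (x r * y s)) := by
    intro r s
    have h1 := NormedSpace.expSeries_div_hasSum_exp (𝔸 := ℂ) ((((2 * Real.pi * (t r * y s) : ℝ) : ℂ)) * Complex.I)
    rw [← Complex.exp_eq_exp_ℂ] at h1
    have h2 := h1.mul_left (a r * b s * e (δ * c r * y s))
    have h3 : a r * b s * e (δ * c r * y s) * Complex.exp ((((2 * Real.pi * (t r * y s) : ℝ) : ℂ)) * Complex.I) =
        a r * b s * e (x r * y s) := by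
      have h4 : Complex.exp ((((2 * Real.pi * (t r * y s) : ℝ) : ℂ)) * Complex.I) = e (t r * y s) := rfl
      rw [h4, mul_assoc, ← e_add]
      congr 2
      simp only [ht]; ring
    rw [h3] at h2
    suffices h6 : (fun n => An n r * (Bn n s * e (δ * c r * y s))) =
        fun n : ℕ => a r * b s * e (δ * c r * y s) * ((((2 * Real.pi * (t r * y s) : ℝ) : ℂ) * Complex.I) ^ n / (n.factorial : ℂ)) by
      rw [h6]; exact h2
    funext n
    simp only [hAn, hBn]
    have h5 : ((((2 * Real.pi * t r * Y : ℝ) : ℂ) * Complex.I) ^ n) * (((y s / Y : ℝ) : ℂ) ^ n) =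
        ((((2 * Real.pi * (t r * y s) : ℝ) : ℂ)) * Complex.I) ^ n := by
      rw [← mul_pow]
      congr 1
      have hYc : (Y : ℂ) ≠ 0 := by exact_mod_cast hY.ne'
      push_cast
      field_simp
    rw [← h5]
    ring
  have htot : HasSum (fun n => ∑ r ∈ R, ∑ s ∈ S, An n r * (Bn n s * e (δ * c r * y s))) (∑ r ∈ R, ∑ s ∈ S, a r * b s * e (x r * y s)) :=
    hasSum_sum fun r _ => hasSum_sum fun s _ => hterm r s
  set Q : ℝ := Real.sqrt (A ^ 2 * Nx * (B ^ 2 * Ny)) with hQ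
  have hNy0 : 0 ≤ Ny := by
    have h1 : 0 ≤ (J : ℝ) * Ny := le_trans (sum_nonneg fun _ _ => sum_nonneg fun _ _ => by positivity) hNy
    by_contra h
    push Not at h
    nlinarith
  have hQ2 : Q ^ 2 = A ^ 2 * Nx * (B ^ 2 * Ny) := Real.sq_sqrt (by positivity)
  have hQ0 : 0 ≤ Q := Real.sqrt_nonneg _
  have hbound : ∀ n, ‖∑ r ∈ R, ∑ s ∈ S, An n r * (Bn n s * e (δ * c r * y s))‖ ≤ (Real.pi / 2) ^ n / n.factorial * Q := by
    intro n
    set qn : ℝ := (Real.pi / 2) ^ n / n.factorial with hqn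
    have hqn0 : 0 ≤ qn := by have := Real.pi_pos; positivity
    set G : ℕ → ℂ := fun j => ∑ s ∈ S, Bn n s * e (δ * j * y s) with hG
    have h1 : ∑ r ∈ R, ∑ s ∈ S, An n r * (Bn n s * e (δ * c r * y s)) =
        ∑ j ∈ range J, (∑ r ∈ R with c r = j, An n r) * G j := by
      calc _ = ∑ r ∈ R, An n r * G (c r) := by
            apply sum_congr rfl; intro r _; rw [mul_sum]
        _ = ∑ j ∈ range J, ∑ r ∈ R with c r = j, An n r * G (c r) := (sum_fiberwise_of_maps_to hcJ _).symm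
        _ = _ := by
            apply sum_congr rfl; intro j _
            rw [sum_mul]
            apply sum_congr rfl; intro r hr
            rw [(mem_filter.1 hr).2]
    rw [h1]
    have hAr : ∀ r ∈ R, ‖An n r‖ ≤ A * qn := by
      intro r hr
      simp only [hAn]
      rw [norm_mul, norm_div, norm_pow, norm_mul, Complex.norm_I, mul_one, Complex.norm_real, Complex.norm_natCast]
      apply mul_le_mul (hA r hr) _ (by positivity) hA0
      rw [hqn]
      apply div_le_div_of_nonneg_right _ (by positivity)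
      apply pow_le_pow_left₀ (norm_nonneg _)
      have h2 := ht0 r hr
      have h3 : 0 ≤ 2 * Real.pi * t r * Y := by have := Real.pi_pos; have := h2.1; positivity
      rw [Real.norm_of_nonneg h3]
      calc 2 * Real.pi * t r * Y = 2 * Real.pi * (t r * Y) := by ring
        _ ≤ 2 * Real.pi * (δ * Y) := by
            apply mul_le_mul_of_nonneg_left _ (by have := Real.pi_pos; positivity)
            exact mul_le_mul_of_nonneg_right h2.2 hY.le
        _ = _ := by rw [hδY]; ring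
    have hBs : ∀ s ∈ S, ‖Bn n s‖ ≤ B := by
      intro s hs
      simp only [hBn]
      rw [norm_mul, norm_pow, Complex.norm_real]
      have h2 := hy s hs
      have h3 : ‖y s / Y‖ ≤ 1 := by
        rw [Real.norm_of_nonneg (div_nonneg h2.1 hY.le), div_le_one hY]; exact h2.2
      calc ‖b s‖ * ‖y s / Y‖ ^ n ≤ B * 1 := mul_le_mul (hB s hs) (pow_le_one₀ (norm_nonneg _) h3) (by positivity) hB0
        _ = B := mul_one B
    have hA2 : ∑ j ∈ range J, ‖∑ r ∈ R with c r = j, An n r‖ ^ 2 ≤ (qn ^ 2) * (A ^ 2 * Nx) := by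
      have h2 : ∀ j, ‖∑ r ∈ R with c r = j, An n r‖ ^ 2 ≤ (A * qn) ^ 2 * (#((R.filter (fun r => c r = j)) ×ˢ (R.filter (fun r => c r = j))) : ℝ) := by
        intro j
        have h3 : ‖∑ r ∈ R with c r = j, An n r‖ ≤ #(R.filter (fun r => c r = j)) * (A * qn) := by
          refine (norm_sum_le _ _).trans ?_
          calc ∑ r ∈ R with c r = j, ‖An n r‖ ≤ ∑ _r ∈ R with c _r = j, (A * qn) :=
                sum_le_sum fun r hr => hAr r (mem_filter.1 hr).1
            _ = _ := by rw [sum_const, nsmul_eq_mul]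
        calc _ ≤ (#(R.filter (fun r => c r = j)) * (A * qn)) ^ 2 := pow_le_pow_left₀ (norm_nonneg _) h3 2
          _ = _ := by rw [card_product]; push_cast; ring
      have h4 : ∑ j ∈ range J, (#((R.filter (fun r => c r = j)) ×ˢ (R.filter (fun r => c r = j))) : ℝ) ≤ Nx := by
        refine le_trans ?_ hNx
        have h5 : ∑ j ∈ range J, #((R.filter (fun r => c r = j)) ×ˢ (R.filter (fun r => c r = j))) ≤
            #((R ×ˢ R).filter (fun v => |x v.1 - x v.2| ≤ δ)) := by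
          rw [← card_sigma]
          apply card_le_card_of_injOn (fun v => v.2)
          · rintro ⟨j, r, r'⟩ hv
            rw [mem_coe, mem_sigma, mem_product, mem_filter, mem_filter] at hv
            obtain ⟨_, ⟨hr, hrj⟩, ⟨hr', hrj'⟩⟩ := hv
            simp only at hr hrj hr' hrj'
            rw [mem_coe, mem_filter, mem_product]
            refine ⟨⟨hr, hr'⟩, ?_⟩
            have e1 := ht0 r hr
            have e2 := ht0 r' hr'
            have e3 : x r - x r' = t r - t r' := by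
              simp only [ht]; rw [hrj, hrj']; ring
            simp only
            rw [e3, abs_le]
            constructor <;> linarith
          · rintro ⟨j, r, r'⟩ hv ⟨j', r₁, r₁'⟩ hv' heq
            rw [mem_coe, mem_sigma, mem_product, mem_filter, mem_filter] at hv hv'
            simp only [Prod.mk.injEq] at heq
            obtain ⟨h6, h7⟩ := heq
            subst h6; subst h7
            have h8 : j = j' := (show c r = j from hv.2.1.2).symm.trans (show c r = j' from hv'.2.1.2)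
            subst h8
            rfl
        exact_mod_cast h5
      calc _ ≤ ∑ j ∈ range J, (A * qn) ^ 2 * (#((R.filter (fun r => c r = j)) ×ˢ (R.filter (fun r => c r = j))) : ℝ) :=
            sum_le_sum fun j _ => h2 j
        _ = (A * qn) ^ 2 * ∑ j ∈ range J, (#((R.filter (fun r => c r = j)) ×ˢ (R.filter (fun r => c r = j))) : ℝ) := by rw [mul_sum]
        _ ≤ (A * qn) ^ 2 * Nx := mul_le_mul_of_nonneg_left h4 (by positivity)
        _ = _ := by ring
    have hG2 : ∑ j ∈ range J, ‖G j‖ ^ 2 ≤ B ^ 2 * Ny := by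
      have h2 := grid_sum S y (Bn n) δ J
      have h3 : ∑ s ∈ S, ∑ s' ∈ S, ‖Bn n s‖ * ‖Bn n s'‖ * ‖∑ p ∈ range (2 * J), e (δ * p * (y s - y s'))‖ ^ 2 ≤ B ^ 2 * (J * Ny) := by
        calc _ ≤ ∑ s ∈ S, ∑ s' ∈ S, B ^ 2 * ‖∑ p ∈ range (2 * J), e (δ * p * (y s - y s'))‖ ^ 2 := by
              apply sum_le_sum; intro s hs
              apply sum_le_sum; intro s' hs'
              apply mul_le_mul_of_nonneg_right _ (by positivity)
              rw [sq]
              exact mul_le_mul (hBs s hs) (hBs s' hs') (norm_nonneg _) hB0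
          _ = B ^ 2 * ∑ s ∈ S, ∑ s' ∈ S, ‖∑ p ∈ range (2 * J), e (δ * p * (y s - y s'))‖ ^ 2 := by
              rw [mul_sum]; apply sum_congr rfl; intro s _; rw [mul_sum]
          _ ≤ _ := mul_le_mul_of_nonneg_left hNy (by positivity)
      have h4 : (J : ℝ) * ∑ j ∈ range J, ‖G j‖ ^ 2 ≤ J * (B ^ 2 * Ny) := by
        calc _ ≤ _ := h2
          _ ≤ _ := h3
          _ = _ := by ring
      exact le_of_mul_le_mul_left h4 hJ0
    have hsq : ‖∑ j ∈ range J, (∑ r ∈ R with c r = j, An n r) * G j‖ ^ 2 ≤ (qn * Q) ^ 2 := by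
      calc _ ≤ (∑ j ∈ range J, ‖∑ r ∈ R with c r = j, An n r‖ * ‖G j‖) ^ 2 := by
            apply pow_le_pow_left₀ (norm_nonneg _)
            refine (norm_sum_le _ _).trans (le_of_eq ?_)
            apply sum_congr rfl; intro j _; rw [norm_mul]
        _ ≤ (∑ j ∈ range J, ‖∑ r ∈ R with c r = j, An n r‖ ^ 2) * ∑ j ∈ range J, ‖G j‖ ^ 2 := sum_mul_sq_le_sq_mul_sq _ _ _
        _ ≤ ((qn ^ 2) * (A ^ 2 * Nx)) * (B ^ 2 * Ny) := mul_le_mul hA2 hG2 (sum_nonneg fun _ _ => by positivity) (by positivity)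
        _ = _ := by rw [mul_pow, hQ2]; ring
    exact (pow_le_pow_iff_left₀ (norm_nonneg _) (by positivity) (by norm_num)).1 hsq
  have hexps : HasSum (fun n : ℕ => (Real.pi / 2) ^ n / n.factorial * Q) (Real.exp (Real.pi / 2) * Q) := by
    have h1 := NormedSpace.expSeries_div_hasSum_exp (𝔸 := ℝ) (Real.pi / 2)
    rw [← Real.exp_eq_exp_ℝ] at h1
    exact h1.mul_right Q
  have hnorm := htot.norm_le_of_bounded hexps hbound
  have hexp25 : Real.exp (Real.pi / 2) ^ 2 ≤ 25 := by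
    rw [← Real.exp_nat_mul, show ((2 : ℕ) : ℝ) * (Real.pi / 2) = 3 + (Real.pi - 3) by push_cast; ring, Real.exp_add]
    have h1 : Real.pi - 3 ≤ 0.15 := by have := Real.pi_lt_d2; linarith
    have h2 : Real.exp (Real.pi - 3) ≤ 20 / 17 := by
      refine (Real.exp_le_exp.2 h1).trans ?_
      have h3 : (17 / 20 : ℝ) ≤ Real.exp (-0.15) := by
        have := Real.add_one_le_exp (-0.15 : ℝ)
        linarith
      rw [Real.exp_neg] at h3
      have h4 := Real.exp_pos 0.15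
      rw [le_inv_comm₀ (by norm_num) h4] at h3
      refine h3.trans (by norm_num)
    have h3 : Real.exp 3 ≤ 20.1 := by
      have h4 := Real.exp_one_lt_d9
      have h5 : Real.exp 3 = Real.exp 1 ^ 3 := by rw [← Real.exp_nat_mul]; norm_num
      rw [h5]
      calc Real.exp 1 ^ 3 ≤ 2.7182818286 ^ 3 := pow_le_pow_left₀ (Real.exp_pos 1).le h4.le 3
        _ ≤ 20.1 := by norm_num
    calc Real.exp 3 * Real.exp (Real.pi - 3) ≤ 20.1 * (20 / 17) := mul_le_mul h3 h2 (Real.exp_pos _).le (by norm_num)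
      _ ≤ 25 := by norm_num
  calc ‖∑ r ∈ R, ∑ s ∈ S, a r * b s * e (x r * y s)‖ ^ 2 ≤ (Real.exp (Real.pi / 2) * Q) ^ 2 := pow_le_pow_left₀ (norm_nonneg _) hnorm 2
    _ = Real.exp (Real.pi / 2) ^ 2 * (A ^ 2 * Nx * (B ^ 2 * Ny)) := by rw [mul_pow, hQ2]
    _ ≤ _ := mul_le_mul_of_nonneg_right hexp25 (by positivity)

end Pool.Agent.H373R2.T4
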