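import Mathlib
import Pool.Agent.H373R2.T3.TypeII

namespace Pool.Agent.H373R2.T4
open Finset
open Pool.Agent.H373R2.T3 (rpow_mvt harm)

/-- a well spaced set of bounded diameter -/
lemma spaced_card {ι : Type*} (T : Finset ι) (f : ι → ℝ) (w s : ℝ) (hs : 0 < s) (hw : 0 ≤ w)
    (h1 : ∀ t ∈ T, ∀ t' ∈ T, |f t - f t'| ≤ w) (h2 : ∀ t ∈ T, ∀ t' ∈ T, t ≠ t' → s ≤ |f t - f t'|) : (#T : ℝ) ≤ 1 + w / s := by
  classical
  rcases T.eq_empty_or_nonempty with h0 | h0
  · rw [h0, card_empty, Nat.cast_zero]; positivity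
  obtain ⟨t₀, ht₀, hmin⟩ := T.exists_min_image f h0
  have hle : #T ≤ #(range (⌊w / s⌋₊ + 1)) := by
    apply card_le_card_of_injOn (fun t => ⌊(f t - f t₀) / s⌋₊)
    · intro t ht
      rw [mem_coe] at ht
      rw [coe_range, Set.mem_Iio, Nat.lt_succ_iff]
      apply Nat.floor_le_floor
      apply div_le_div_of_nonneg_right _ hs.le
      exact (le_abs_self _).trans (h1 t ht t₀ ht₀)
    · intro t ht t' ht' heq
      rw [mem_coe] at ht ht'
      by_contra hne
      have h3 := h2 t ht t' ht' hne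
      have e1 : 0 ≤ (f t - f t₀) / s := div_nonneg (by linarith [hmin t ht]) hs.le
      have e2 : 0 ≤ (f t' - f t₀) / s := div_nonneg (by linarith [hmin t' ht']) hs.le
      have e3 := Nat.floor_le e1
      have e4 := Nat.floor_le e2
      have e5 := Nat.lt_floor_add_one ((f t - f t₀) / s)
      have e6 := Nat.lt_floor_add_one ((f t' - f t₀) / s)
      simp only at heq
      rw [heq] at e3 e5
      have e7 : |(f t - f t₀) / s - (f t' - f t₀) / s| < 1 := by
        rw [abs_lt]; constructor <;> linarith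
      rw [← sub_div, abs_div, abs_of_pos hs, div_lt_one hs] at e7
      have e8 : f t - f t₀ - (f t' - f t₀) = f t - f t' := by ring
      rw [e8] at e7
      linarith
  rw [card_range] at hle
  have h3 : (#T : ℝ) ≤ ⌊w / s⌋₊ + 1 := by exact_mod_cast hle
  have h4 := Nat.floor_le (show 0 ≤ w / s by positivity)
  linarith

lemma eq_of_cross (a b a' b' g : ℕ) (ha : 1 ≤ a) (hb : 1 ≤ b) (h1 : Nat.gcd a b = g) (h2 : Nat.gcd a' b' = g)
    (h : a * b' = a' * b) : a = a' ∧ b = b' := by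
  have hg : 0 < g := by rw [← h1]; exact Nat.gcd_pos_of_pos_left _ ha
  obtain ⟨x, hx⟩ : g ∣ a := by rw [← h1]; exact Nat.gcd_dvd_left _ _
  obtain ⟨y, hy⟩ : g ∣ b := by rw [← h1]; exact Nat.gcd_dvd_right _ _
  obtain ⟨x', hx'⟩ : g ∣ a' := by rw [← h2]; exact Nat.gcd_dvd_left _ _
  obtain ⟨y', hy'⟩ : g ∣ b' := by rw [← h2]; exact Nat.gcd_dvd_right _ _
  have c1 : Nat.Coprime x y := by
    rw [hx, hy, Nat.gcd_mul_left] at h1
    exact Nat.eq_of_mul_eq_mul_left hg (by rw [h1, mul_one])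
  have c2 : Nat.Coprime x' y' := by
    rw [hx', hy', Nat.gcd_mul_left] at h2
    exact Nat.eq_of_mul_eq_mul_left hg (by rw [h2, mul_one])
  have h3 : x * y' = x' * y := by
    have h4 : (g * g) * (x * y') = (g * g) * (x' * y) := by
      calc (g * g) * (x * y') = (g * x) * (g * y') := by ring
        _ = (g * x') * (g * y) := by rw [← hx, ← hy', ← hx', ← hy, h]
        _ = _ := by ring
    exact Nat.eq_of_mul_eq_mul_left (by positivity) h4
  have hxpos : 0 < x := by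
    rcases Nat.eq_zero_or_pos x with h0 | h0
    · rw [h0, mul_zero] at hx; omega
    · exact h0
  have d1 : x ∣ x' := c1.dvd_of_dvd_mul_right (by rw [← h3]; exact dvd_mul_right _ _)
  have d2 : x' ∣ x := c2.dvd_of_dvd_mul_right (by rw [h3]; exact dvd_mul_right _ _)
  have hxx : x = x' := Nat.dvd_antisymm d1 d2
  have hyy : y' = y := by
    rw [← hxx] at h3
    exact Nat.eq_of_mul_eq_mul_left hxpos h3
  exact ⟨by rw [hx, hx', hxx], by rw [hy, hy', hyy]⟩

/-- pairs with given gcd whose ratios lie in a short interval -/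
lemma gcd_pairs (T : Finset (ℕ × ℕ)) (g Z : ℕ) (hg : 1 ≤ g) (hT : ∀ v ∈ T, 1 ≤ v.1 ∧ 1 ≤ v.2 ∧ v.2 ≤ Z ∧ Nat.gcd v.1 v.2 = g) (w : ℝ)
    (hw : 0 ≤ w) (h : ∀ v ∈ T, ∀ v' ∈ T, |(v.1 : ℝ) / v.2 - (v'.1 : ℝ) / v'.2| ≤ w) : (#T : ℝ) ≤ 1 + w * ((Z : ℝ) / g) ^ 2 := by
  rcases T.eq_empty_or_nonempty with h0 | h0
  · rw [h0, card_empty, Nat.cast_zero]; positivity
  have hZ : 1 ≤ Z := by
    obtain ⟨v, hv⟩ := h0
    have := hT v hv
    omega
  have hZ0 : (0 : ℝ) < Z := by exact_mod_cast hZ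
  have hg0 : (0 : ℝ) < g := by exact_mod_cast hg
  have hs : (0 : ℝ) < ((g : ℝ) / Z) ^ 2 := by positivity
  have h3 := spaced_card T (fun v => (v.1 : ℝ) / v.2) w (((g : ℝ) / Z) ^ 2) hs hw h ?_
  · refine h3.trans (le_of_eq ?_)
    congr 1
    rw [div_pow, div_pow]; field_simp
  · intro v hv v' hv' hne
    obtain ⟨a1, a2, a3, a4⟩ := hT v hv
    obtain ⟨b1, b2, b3, b4⟩ := hT v' hv'
    have hv2 : (0 : ℝ) < v.2 := by exact_mod_cast a2
    have hv2' : (0 : ℝ) < v'.2 := by exact_mod_cast b2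
    show ((g : ℝ) / Z) ^ 2 ≤ |(v.1 : ℝ) / v.2 - (v'.1 : ℝ) / v'.2|
    have e1 : (v.1 : ℝ) / v.2 - (v'.1 : ℝ) / v'.2 = ((v.1 : ℝ) * v'.2 - v'.1 * v.2) / (v.2 * v'.2) := by
      field_simp
    rw [e1, abs_div, abs_of_pos (show (0 : ℝ) < (v.2 : ℝ) * v'.2 by positivity), le_div_iff₀ (by positivity)]
    have hne2 : ((v.1 : ℤ) * v'.2 - v'.1 * v.2) ≠ 0 := by
      intro h4
      apply hne
      have h5 : v.1 * v'.2 = v'.1 * v.2 := by
        have : (v.1 : ℤ) * v'.2 = v'.1 * v.2 := by linarith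
        exact_mod_cast this
      obtain ⟨h6, h7⟩ := eq_of_cross v.1 v.2 v'.1 v'.2 g a1 a2 a4 b4 h5
      exact Prod.ext h6 h7
    have hdvd : ((g : ℤ) * g) ∣ ((v.1 : ℤ) * v'.2 - v'.1 * v.2) := by
      have d1 : (g : ℤ) ∣ v.1 := by rw [← a4]; exact_mod_cast Nat.gcd_dvd_left _ _
      have d2 : (g : ℤ) ∣ v.2 := by rw [← a4]; exact_mod_cast Nat.gcd_dvd_right _ _
      have d3 : (g : ℤ) ∣ v'.1 := by rw [← b4]; exact_mod_cast Nat.gcd_dvd_left _ _
      have d4 : (g : ℤ) ∣ v'.2 := by rw [← b4]; exact_mod_cast Nat.gcd_dvd_right _ _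
      exact dvd_sub (mul_dvd_mul d1 d4) (mul_dvd_mul d3 d2)
    have hge : (g : ℤ) * g ≤ |(v.1 : ℤ) * v'.2 - v'.1 * v.2| := by
      have h4 := Int.le_of_dvd (abs_pos.2 hne2) ((dvd_abs _ _).2 hdvd)
      exact h4
    have hger : (g : ℝ) * g ≤ |(v.1 : ℝ) * v'.2 - v'.1 * v.2| := by exact_mod_cast hge
    calc ((g : ℝ) / Z) ^ 2 * (v.2 * v'.2) ≤ ((g : ℝ) / Z) ^ 2 * (Z * Z) := by
          apply mul_le_mul_of_nonneg_left _ (by positivity)
          have h4 : (v.2 : ℝ) ≤ Z := by exact_mod_cast a3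
          have h5 : (v'.2 : ℝ) ≤ Z := by exact_mod_cast b3
          exact mul_le_mul h4 h5 hv2'.le hZ0.le
      _ = (g : ℝ) * g := by field_simp
      _ ≤ _ := hger

lemma mult_card (s : Finset ℕ) (g W : ℕ) (hg : 1 ≤ g) (hs : ∀ a ∈ s, ∀ b ∈ s, a ≤ b + W) (hd : ∀ a ∈ s, g ∣ a) :
    (#s : ℝ) ≤ 1 + W / g := by
  have hg0 : (0 : ℝ) < g := by exact_mod_cast hg
  apply spaced_card s (fun a => (a : ℝ)) W g hg0 (Nat.cast_nonneg _)
  · intro a ha b hb
    have h1 := hs a ha b hb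
    have h2 := hs b hb a ha
    have h1' : (a : ℝ) ≤ b + W := by exact_mod_cast h1
    have h2' : (b : ℝ) ≤ a + W := by exact_mod_cast h2
    rw [abs_le]; constructor <;> linarith
  · intro a ha b hb hne
    have h1 : (g : ℤ) ≤ |(a : ℤ) - b| := by
      apply Int.le_of_dvd
      · apply abs_pos.2
        intro h
        apply hne
        have : (a : ℤ) = b := by linarith
        exact_mod_cast this
      · rw [dvd_abs]
        exact dvd_sub (by exact_mod_cast hd a ha) (by exact_mod_cast hd b hb)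
    have h2 : ((g : ℤ) : ℝ) ≤ ((|(a : ℤ) - b| : ℤ) : ℝ) := by exact_mod_cast h1
    push_cast at h2
    exact h2

lemma sum_inv_sq (n : ℕ) : ∑ g ∈ Icc 1 n, 1 / (g : ℝ) ^ 2 ≤ 2 := by
  rcases Nat.eq_zero_or_pos n with h | h
  · rw [h]; simp
  have key : ∑ g ∈ Icc 1 n, 1 / (g : ℝ) ^ 2 ≤ 2 - 1 / (n : ℝ) := by
    induction n, h using Nat.le_induction with
    | base => norm_num
    | succ n hn ih =>
      rw [sum_Icc_succ_top (by omega)]
      have h1 : 1 / ((n + 1 : ℕ) : ℝ) ^ 2 ≤ 1 / (n : ℝ) - 1 / ((n + 1 : ℕ) : ℝ) := by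
        push_cast
        have hn0 : (0 : ℝ) < n := by exact_mod_cast hn
        rw [div_sub_div _ _ hn0.ne' (by positivity), div_le_div_iff₀ (by positivity) (by positivity)]
        nlinarith
      linarith
  have : (0 : ℝ) ≤ 1 / n := by positivity
  linarith

open Classical in
/-- the spacing problem for `h m^α` -/
theorem spacing {α : ℝ} (h0 : 0 < α) (h1 : α < 1) (lam δ : ℝ) (hlam : 0 < lam) (hδ : 0 ≤ δ) (K M : ℕ) (hK : 1 ≤ K) (hM : 1 ≤ M) :
    (#(((Ico K (2 * K) ×ˢ Ioc M (2 * M)) ×ˢ (Ico K (2 * K) ×ˢ Ioc M (2 * M))).filter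
      (fun v => |lam * v.1.1 * (v.1.2 : ℝ) ^ α - lam * v.2.1 * (v.2.2 : ℝ) ^ α| ≤ δ)) : ℝ) ≤
      9 * (K * M) * ((1 + Real.log (2 * K + 1)) * (1 + Real.log (2 * M + 1))) + 576 / α * (δ / (lam * (K * (M : ℝ) ^ α))) * (K * M) ^ 2 := by
  have hK0 : (0 : ℝ) < K := by exact_mod_cast hK
  have hM0 : (0 : ℝ) < M := by exact_mod_cast hM
  have hMα : 0 < (M : ℝ) ^ α := Real.rpow_pos_of_pos hM0 _
  set Δ : ℝ := δ / (lam * (K * (M : ℝ) ^ α)) with hΔ
  have hΔ0 : 0 ≤ Δ := by positivity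
  set T := ((Ico K (2 * K) ×ˢ Ioc M (2 * M)) ×ˢ (Ico K (2 * K) ×ˢ Ioc M (2 * M))).filter
      (fun v => |lam * v.1.1 * (v.1.2 : ℝ) ^ α - lam * v.2.1 * (v.2.2 : ℝ) ^ α| ≤ δ) with hT
  have hmem : ∀ v ∈ T, (K ≤ v.1.1 ∧ v.1.1 < 2 * K) ∧ (M < v.1.2 ∧ v.1.2 ≤ 2 * M) ∧ (K ≤ v.2.1 ∧ v.2.1 < 2 * K) ∧
      (M < v.2.2 ∧ v.2.2 ≤ 2 * M) ∧ |(v.1.1 : ℝ) / v.2.1 - ((v.2.2 : ℝ) / v.1.2) ^ α| ≤ Δ := by
    intro v hv
    rw [hT, mem_filter, mem_product, mem_product, mem_product, mem_Ico, mem_Ioc, mem_Ico, mem_Ioc] at hv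
    obtain ⟨⟨⟨b1, b2⟩, b3, b4⟩, b5⟩ := hv
    refine ⟨b1, b2, b3, b4, ?_⟩
    have c1 : (K : ℝ) ≤ v.2.1 := by exact_mod_cast b3.1
    have c1' : (0 : ℝ) < v.2.1 := by linarith
    have c2 : (M : ℝ) ≤ v.1.2 := by exact_mod_cast b2.1.le
    have c2' : (0 : ℝ) < v.1.2 := by linarith
    have c3 : (0 : ℝ) < v.2.2 := by
      have : (M : ℝ) < v.2.2 := by exact_mod_cast b4.1
      linarith
    have c4 : 0 < (v.1.2 : ℝ) ^ α := Real.rpow_pos_of_pos c2' _
    have c5 : (M : ℝ) ^ α ≤ (v.1.2 : ℝ) ^ α := Real.rpow_le_rpow hM0.le c2 h0.le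
    have e1 : (v.1.1 : ℝ) / v.2.1 - ((v.2.2 : ℝ) / v.1.2) ^ α =
        (lam * v.1.1 * (v.1.2 : ℝ) ^ α - lam * v.2.1 * (v.2.2 : ℝ) ^ α) / (lam * (v.2.1 * (v.1.2 : ℝ) ^ α)) := by
      rw [Real.div_rpow c3.le c2'.le]; field_simp
    rw [e1, abs_div, abs_of_pos (show 0 < lam * (v.2.1 * (v.1.2 : ℝ) ^ α) by positivity), hΔ]
    apply div_le_div₀ hδ b5 (by positivity)
    apply mul_le_mul_of_nonneg_left _ hlam.le
    exact mul_le_mul c1 c5 hMα.le c1'.le
  set G := Icc 1 (2 * K) ×ˢ Icc 1 (2 * M) with hG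
  set φ : (ℕ × ℕ) × (ℕ × ℕ) → ℕ × ℕ := fun v => (Nat.gcd v.1.1 v.2.1, Nat.gcd v.2.2 v.1.2) with hφ
  have hmaps : ∀ v ∈ T, φ v ∈ G := by
    intro v hv
    obtain ⟨b1, b2, b3, b4, _⟩ := hmem v hv
    rw [hG, mem_product, mem_Icc, mem_Icc]
    simp only [hφ]
    have g1 : 0 < Nat.gcd v.1.1 v.2.1 := Nat.gcd_pos_of_pos_left _ (by omega)
    have g2 : 0 < Nat.gcd v.2.2 v.1.2 := Nat.gcd_pos_of_pos_left _ (by omega)
    have g3 : Nat.gcd v.1.1 v.2.1 ≤ v.1.1 := Nat.gcd_le_left _ (by omega)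
    have g4 : Nat.gcd v.2.2 v.1.2 ≤ v.2.2 := Nat.gcd_le_left _ (by omega)
    omega
  -- one class
  have hclass : ∀ u ∈ G, (#(T.filter (fun v => φ v = u)) : ℝ) ≤
      9 * (K * M) * ((1 / (u.1 : ℝ)) * (1 / (u.2 : ℝ))) + 144 / α * Δ * (K * M) ^ 2 * ((1 / (u.1 : ℝ) ^ 2) * (1 / (u.2 : ℝ) ^ 2)) := by
    rintro ⟨g, g'⟩ hu
    rw [hG, mem_product, mem_Icc, mem_Icc] at hu
    obtain ⟨⟨g1, g2⟩, g3, g4⟩ := hu
    simp only at g1 g2 g3 g4 ⊢
    have hg0 : (0 : ℝ) < g := by exact_mod_cast g1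
    have hg0' : (0 : ℝ) < g' := by exact_mod_cast g3
    set T' := T.filter (fun v => φ v = (g, g')) with hT'
    have hT'm : ∀ v ∈ T', v ∈ T ∧ Nat.gcd v.1.1 v.2.1 = g ∧ Nat.gcd v.2.2 v.1.2 = g' := by
      intro v hv
      rw [hT', mem_filter] at hv
      simp only [hφ, Prod.mk.injEq] at hv
      exact ⟨hv.1, hv.2.1, hv.2.2⟩
    -- pairs of multiples
    have hP : (#(((Ico K (2 * K)).filter (fun h => g ∣ h)) ×ˢ ((Ico K (2 * K)).filter (fun h => g ∣ h))) : ℝ) ≤ 9 * ((K : ℝ) / g) ^ 2 := by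
      have e1 : (#((Ico K (2 * K)).filter (fun h => g ∣ h)) : ℝ) ≤ 3 * ((K : ℝ) / g) := by
        have e2 := mult_card ((Ico K (2 * K)).filter (fun h => g ∣ h)) g K g1
          (fun a ha b hb => by rw [mem_filter, mem_Ico] at ha hb; omega) (fun a ha => (mem_filter.1 ha).2)
        have e3 : (1 : ℝ) ≤ 2 * ((K : ℝ) / g) := by
          rw [mul_div_assoc', le_div_iff₀ hg0, one_mul]; exact_mod_cast g2
        linarith
      rw [card_product]; push_cast
      calc _ ≤ (3 * ((K : ℝ) / g)) * (3 * ((K : ℝ) / g)) := mul_le_mul e1 e1 (Nat.cast_nonneg _) (by positivity)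
        _ = _ := by ring
    have hQ : (#(((Ioc M (2 * M)).filter (fun h => g' ∣ h)) ×ˢ ((Ioc M (2 * M)).filter (fun h => g' ∣ h))) : ℝ) ≤ 9 * ((M : ℝ) / g') ^ 2 := by
      have e1 : (#((Ioc M (2 * M)).filter (fun h => g' ∣ h)) : ℝ) ≤ 3 * ((M : ℝ) / g') := by
        have e2 := mult_card ((Ioc M (2 * M)).filter (fun h => g' ∣ h)) g' M g3
          (fun a ha b hb => by rw [mem_filter, mem_Ioc] at ha hb; omega) (fun a ha => (mem_filter.1 ha).2)
        have e3 : (1 : ℝ) ≤ 2 * ((M : ℝ) / g') := by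
          rw [mul_div_assoc', le_div_iff₀ hg0', one_mul]; exact_mod_cast g4
        linarith
      rw [card_product]; push_cast
      calc _ ≤ (3 * ((M : ℝ) / g')) * (3 * ((M : ℝ) / g')) := mul_le_mul e1 e1 (Nat.cast_nonneg _) (by positivity)
        _ = _ := by ring
    -- first count
    have hc1 : (#T' : ℝ) ≤ 9 * ((K : ℝ) / g) ^ 2 * (1 + 4 * Δ / α * (((2 * M : ℕ) : ℝ) / g') ^ 2) := by
      have e1 : (#T' : ℝ) = ∑ p ∈ (((Ico K (2 * K)).filter (fun h => g ∣ h)) ×ˢ ((Ico K (2 * K)).filter (fun h => g ∣ h))),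
          (#(T'.filter (fun v => (v.1.1, v.2.1) = p)) : ℝ) := by
        rw [card_eq_sum_card_fiberwise (f := fun v => (v.1.1, v.2.1))
          (t := (((Ico K (2 * K)).filter (fun h => g ∣ h)) ×ˢ ((Ico K (2 * K)).filter (fun h => g ∣ h))))]
        · push_cast; rfl
        · intro v hv
          rw [mem_coe] at hv
          obtain ⟨a1, a2, a3⟩ := hT'm v hv
          obtain ⟨b1, b2, b3, b4, _⟩ := hmem v a1
          rw [mem_coe, mem_product, mem_filter, mem_filter, mem_Ico, mem_Ico]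
          refine ⟨⟨b1, ?_⟩, b3, ?_⟩
          · rw [← a2]; exact Nat.gcd_dvd_left _ _
          · rw [← a2]; exact Nat.gcd_dvd_right _ _
      rw [e1]
      have e2 : ∀ p ∈ (((Ico K (2 * K)).filter (fun h => g ∣ h)) ×ˢ ((Ico K (2 * K)).filter (fun h => g ∣ h))),
          (#(T'.filter (fun v => (v.1.1, v.2.1) = p)) : ℝ) ≤ 1 + 4 * Δ / α * (((2 * M : ℕ) : ℝ) / g') ^ 2 := by
        rintro ⟨p1, p2⟩ _
        rw [← card_image_of_injOn (f := fun v => (v.2.2, v.1.2))]
        · apply gcd_pairs _ g' (2 * M) g3 _ _ (by positivity)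
          · intro v hv v' hv'
            rw [mem_image] at hv hv'
            obtain ⟨w, hw, rfl⟩ := hv
            obtain ⟨w', hw', rfl⟩ := hv'
            rw [mem_filter, Prod.mk.injEq] at hw hw'
            obtain ⟨a1, hw⟩ := hw
            obtain ⟨a1', hw'⟩ := hw'
            obtain ⟨b1, b2, b3, b4, b5⟩ := hmem w (hT'm w a1).1
            obtain ⟨d1, d2, d3, d4, d5⟩ := hmem w' (hT'm w' a1').1
            have f1 : (w.1.1 : ℝ) / w.2.1 = (w'.1.1 : ℝ) / w'.2.1 := by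
              rw [hw.1, hw.2, hw'.1, hw'.2]
            simp only
            set s := (w.2.2 : ℝ) / w.1.2 with hs
            set t := (w'.2.2 : ℝ) / w'.1.2 with ht
            rw [f1] at b5
            have f2 : |s ^ α - t ^ α| ≤ 2 * Δ := by
              rw [abs_le] at b5 d5 ⊢
              constructor <;> linarith [b5.1, b5.2, d5.1, d5.2]
            have hw12 : (0 : ℝ) < w.1.2 := by exact_mod_cast (by omega : 0 < w.1.2)
            have hw12' : (0 : ℝ) < w'.1.2 := by exact_mod_cast (by omega : 0 < w'.1.2)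
            have hs0 : 0 < s := by
              have : (0 : ℝ) < w.2.2 := by exact_mod_cast (by omega : 0 < w.2.2)
              positivity
            have ht0 : 0 < t := by
              have : (0 : ℝ) < w'.2.2 := by exact_mod_cast (by omega : 0 < w'.2.2)
              positivity
            have hs2 : s ≤ 2 := by
              rw [hs, div_le_iff₀ hw12]; exact_mod_cast (by omega : w.2.2 ≤ 2 * w.1.2)
            have ht2 : t ≤ 2 := by
              rw [ht, div_le_iff₀ hw12']; exact_mod_cast (by omega : w'.2.2 ≤ 2 * w'.1.2)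
            have key : ∀ a b : ℝ, 0 < a → a < b → b ≤ 2 → α / 2 * (b - a) ≤ b ^ α - a ^ α := by
              intro a b ha hab hb
              obtain ⟨c, hc1, hc2, hc3⟩ := rpow_mvt α ha hab
              rw [hc3]
              apply mul_le_mul_of_nonneg_right _ (by linarith)
              rw [div_eq_mul_inv]
              apply mul_le_mul_of_nonneg_left _ h0.le
              calc (2 : ℝ)⁻¹ = 2 ^ (-1 : ℝ) := by rw [Real.rpow_neg_one]
                _ ≤ 2 ^ (α - 1) := Real.rpow_le_rpow_of_exponent_le (by norm_num) (by linarith)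
                _ ≤ c ^ (α - 1) := Real.rpow_le_rpow_of_nonpos (by linarith) (by linarith) (by linarith)
            have f3 : α / 2 * |s - t| ≤ |s ^ α - t ^ α| := by
              rcases lt_trichotomy s t with h | h | h
              · have := key s t hs0 h ht2
                rw [abs_sub_comm s t, abs_of_pos (by linarith : 0 < t - s), abs_sub_comm]
                exact this.trans (le_abs_self _)
              · rw [h]; simp
              · have := key t s ht0 h hs2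
                rw [abs_of_pos (by linarith : 0 < s - t)]
                exact this.trans (le_abs_self _)
            rw [le_div_iff₀ h0]
            nlinarith
          · intro v hv
            rw [mem_image] at hv
            obtain ⟨w, hw, rfl⟩ := hv
            rw [mem_filter] at hw
            obtain ⟨a1, a2, a3⟩ := hT'm w hw.1
            obtain ⟨b1, b2, b3, b4, b5⟩ := hmem w a1
            simp only
            refine ⟨by omega, by omega, by omega, a3⟩
        · intro v hv v' hv' heq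
          rw [mem_coe, mem_filter, Prod.mk.injEq] at hv hv'
          simp only [Prod.mk.injEq] at heq
          apply Prod.ext
          · apply Prod.ext
            · rw [hv.2.1, hv'.2.1]
            · exact heq.2
          · apply Prod.ext
            · rw [hv.2.2, hv'.2.2]
            · exact heq.1
      calc _ ≤ ∑ p ∈ (((Ico K (2 * K)).filter (fun h => g ∣ h)) ×ˢ ((Ico K (2 * K)).filter (fun h => g ∣ h))),
            (1 + 4 * Δ / α * (((2 * M : ℕ) : ℝ) / g') ^ 2) := sum_le_sum e2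
        _ = (#(((Ico K (2 * K)).filter (fun h => g ∣ h)) ×ˢ ((Ico K (2 * K)).filter (fun h => g ∣ h))) : ℝ) *
            (1 + 4 * Δ / α * (((2 * M : ℕ) : ℝ) / g') ^ 2) := by rw [sum_const, nsmul_eq_mul]
        _ ≤ _ := mul_le_mul_of_nonneg_right hP (by positivity)
    have hc2 : (#T' : ℝ) ≤ 9 * ((M : ℝ) / g') ^ 2 * (1 + 2 * Δ * (((2 * K : ℕ) : ℝ) / g) ^ 2) := by
      have e1 : (#T' : ℝ) = ∑ p ∈ (((Ioc M (2 * M)).filter (fun h => g' ∣ h)) ×ˢ ((Ioc M (2 * M)).filter (fun h => g' ∣ h))),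
          (#(T'.filter (fun v => (v.2.2, v.1.2) = p)) : ℝ) := by
        rw [card_eq_sum_card_fiberwise (f := fun v => (v.2.2, v.1.2))
          (t := (((Ioc M (2 * M)).filter (fun h => g' ∣ h)) ×ˢ ((Ioc M (2 * M)).filter (fun h => g' ∣ h))))]
        · push_cast; rfl
        · intro v hv
          rw [mem_coe] at hv
          obtain ⟨a1, a2, a3⟩ := hT'm v hv
          obtain ⟨b1, b2, b3, b4, _⟩ := hmem v a1
          rw [mem_coe, mem_product, mem_filter, mem_filter, mem_Ioc, mem_Ioc]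
          refine ⟨⟨b4, ?_⟩, b2, ?_⟩
          · rw [← a3]; exact Nat.gcd_dvd_left _ _
          · rw [← a3]; exact Nat.gcd_dvd_right _ _
      rw [e1]
      have e2 : ∀ p ∈ (((Ioc M (2 * M)).filter (fun h => g' ∣ h)) ×ˢ ((Ioc M (2 * M)).filter (fun h => g' ∣ h))),
          (#(T'.filter (fun v => (v.2.2, v.1.2) = p)) : ℝ) ≤ 1 + 2 * Δ * (((2 * K : ℕ) : ℝ) / g) ^ 2 := by
        rintro ⟨p1, p2⟩ _
        rw [← card_image_of_injOn (f := fun v => (v.1.1, v.2.1))]
        · apply gcd_pairs _ g (2 * K) g1 _ _ (by positivity)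
          · intro v hv v' hv'
            rw [mem_image] at hv hv'
            obtain ⟨w, hw, rfl⟩ := hv
            obtain ⟨w', hw', rfl⟩ := hv'
            rw [mem_filter, Prod.mk.injEq] at hw hw'
            obtain ⟨a1, hw⟩ := hw
            obtain ⟨a1', hw'⟩ := hw'
            obtain ⟨b1, b2, b3, b4, b5⟩ := hmem w (hT'm w a1).1
            obtain ⟨d1, d2, d3, d4, d5⟩ := hmem w' (hT'm w' a1').1
            rw [hw.1, hw.2] at b5
            rw [hw'.1, hw'.2] at d5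
            simp only
            rw [abs_le] at b5 d5 ⊢
            constructor <;> linarith [b5.1, b5.2, d5.1, d5.2]
          · intro v hv
            rw [mem_image] at hv
            obtain ⟨w, hw, rfl⟩ := hv
            rw [mem_filter] at hw
            obtain ⟨a1, a2, a3⟩ := hT'm w hw.1
            obtain ⟨b1, b2, b3, b4, b5⟩ := hmem w a1
            simp only
            refine ⟨by omega, by omega, by omega, a2⟩
        · intro v hv v' hv' heq
          rw [mem_coe, mem_filter, Prod.mk.injEq] at hv hv'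
          simp only [Prod.mk.injEq] at heq
          apply Prod.ext
          · apply Prod.ext
            · exact heq.1
            · rw [hv.2.2, hv'.2.2]
          · apply Prod.ext
            · exact heq.2
            · rw [hv.2.1, hv'.2.1]
      calc _ ≤ ∑ p ∈ (((Ioc M (2 * M)).filter (fun h => g' ∣ h)) ×ˢ ((Ioc M (2 * M)).filter (fun h => g' ∣ h))),
            (1 + 2 * Δ * (((2 * K : ℕ) : ℝ) / g) ^ 2) := sum_le_sum e2
        _ = (#(((Ioc M (2 * M)).filter (fun h => g' ∣ h)) ×ˢ ((Ioc M (2 * M)).filter (fun h => g' ∣ h))) : ℝ) *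
            (1 + 2 * Δ * (((2 * K : ℕ) : ℝ) / g) ^ 2) := by rw [sum_const, nsmul_eq_mul]
        _ ≤ _ := mul_le_mul_of_nonneg_right hQ (by positivity)
    -- the smaller one
    set a : ℝ := (K : ℝ) / g with ha
    set b : ℝ := (M : ℝ) / g' with hb
    have ha0 : 0 < a := by positivity
    have hb0 : 0 < b := by positivity
    have hab : (K * M : ℝ) * ((1 / (g : ℝ)) * (1 / (g' : ℝ))) = a * b := by rw [ha, hb]; field_simp
    have hab2 : (K * M : ℝ) ^ 2 * ((1 / (g : ℝ) ^ 2) * (1 / (g' : ℝ) ^ 2)) = (a * b) ^ 2 := by rw [ha, hb]; field_simp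
    have hgoal : 9 * (K * M : ℝ) * ((1 / (g : ℝ)) * (1 / (g' : ℝ))) + 144 / α * Δ * (K * M : ℝ) ^ 2 * ((1 / (g : ℝ) ^ 2) * (1 / (g' : ℝ) ^ 2)) =
        9 * (a * b) + 144 / α * Δ * (a * b) ^ 2 := by
      rw [← hab2, ← hab]; ring
    rw [hgoal]
    have k1 : (((2 * M : ℕ) : ℝ) / g') = 2 * b := by rw [hb]; push_cast; ring
    have k2 : (((2 * K : ℕ) : ℝ) / g) = 2 * a := by rw [ha]; push_cast; ring
    rw [k1] at hc1
    rw [k2] at hc2
    have hα1 : 1 ≤ 1 / α := by rw [le_div_iff₀ h0]; linarith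
    rcases le_total a b with h | h
    · refine hc1.trans ?_
      have e1 : 9 * a ^ 2 * (1 + 4 * Δ / α * (2 * b) ^ 2) = 9 * a ^ 2 + 144 / α * Δ * (a * b) ^ 2 := by ring
      rw [e1]
      nlinarith
    · refine hc2.trans ?_
      have e1 : 9 * b ^ 2 * (1 + 2 * Δ * (2 * a) ^ 2) = 9 * b ^ 2 + 72 * (Δ * (a * b) ^ 2) := by ring
      rw [e1]
      have e2 : 72 * (Δ * (a * b) ^ 2) ≤ 144 / α * Δ * (a * b) ^ 2 := by
        have : 144 / α * Δ * (a * b) ^ 2 = 144 * (1 / α) * (Δ * (a * b) ^ 2) := by ring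
        rw [this]
        have : 0 ≤ Δ * (a * b) ^ 2 := by positivity
        nlinarith
      nlinarith
  -- sum over the classes
  have hsumT : (#T : ℝ) = ∑ u ∈ G, (#(T.filter (fun v => φ v = u)) : ℝ) := by
    rw [card_eq_sum_card_fiberwise (f := φ) (t := G)]
    · push_cast; rfl
    · intro v hv; exact hmaps v hv
  rw [hsumT]
  refine (sum_le_sum hclass).trans ?_
  rw [sum_add_distrib, ← mul_sum, ← mul_sum, hG, sum_product, sum_product]
  have s1 : ∑ x ∈ Icc 1 (2 * K), ∑ y ∈ Icc 1 (2 * M), (1 / (x : ℝ)) * (1 / (y : ℝ)) ≤ (1 + Real.log (2 * K + 1)) * (1 + Real.log (2 * M + 1)) := by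
    rw [← sum_mul_sum]
    have e1 := harm (2 * K)
    have e2 := harm (2 * M)
    push_cast at e1 e2
    apply mul_le_mul e1 e2 (sum_nonneg fun _ _ => by positivity)
    have := Real.log_nonneg (show (1 : ℝ) ≤ 2 * K + 1 by linarith)
    linarith
  have s2 : ∑ x ∈ Icc 1 (2 * K), ∑ y ∈ Icc 1 (2 * M), (1 / (x : ℝ) ^ 2) * (1 / (y : ℝ) ^ 2) ≤ 4 := by
    rw [← sum_mul_sum]
    have e1 := sum_inv_sq (2 * K)
    have e2 := sum_inv_sq (2 * M)
    calc _ ≤ (2 : ℝ) * 2 := mul_le_mul e1 e2 (sum_nonneg fun _ _ => by positivity) (by norm_num)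
      _ = 4 := by norm_num
  have t1 := mul_le_mul_of_nonneg_left s1 (show 0 ≤ 9 * (K * M : ℝ) by positivity)
  have t2 := mul_le_mul_of_nonneg_left s2 (show 0 ≤ 144 / α * Δ * (K * M : ℝ) ^ 2 by positivity)
  calc _ ≤ 9 * (K * M : ℝ) * ((1 + Real.log (2 * K + 1)) * (1 + Real.log (2 * M + 1))) + 144 / α * Δ * (K * M : ℝ) ^ 2 * 4 := add_le_add t1 t2
    _ = _ := by ring

end Pool.Agent.H373R2.T4
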