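import Mathlib
import Pool.Agent.H373R2.T4.DLS
import Pool.Agent.H373R2.T4.Spacing
import Pool.Agent.H373R2.T3.Kernel
import Pool.Agent.H373R2.T3.Pieces

namespace Pool.Agent.H373R2.T4
open Finset
open Pool.Agent.H469R2.NK (e norm_e e_add conj_e e_zero)
open Pool.Agent.H373R2.T3 (rpow_mvt harm sum_inv_dist geom_e e_natmul two_rpow_le quarter_rpow_ge)

lemma geom_abs (P : ℕ) (θ : ℝ) (h0 : θ ≠ 0) (h1 : |θ| ≤ 1 / 4) : ‖∑ p ∈ range P, e (p * θ)‖ ≤ 1 / |θ| := by
  have key : ∀ t : ℝ, 0 < t → t ≤ 1 / 4 → ‖∑ p ∈ range P, e (p * t)‖ ≤ 1 / t := by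
    intro t ht ht1
    have h := geom_e P t t ht le_rfl (by linarith)
    have h2 : ∑ p ∈ range P, e (p * t) = ∑ j ∈ range P, (e t) ^ j := sum_congr rfl fun j _ => e_natmul j t
    rw [h2]; exact h
  rcases lt_or_gt_of_ne h0 with h | h
  · have h2 : ∑ p ∈ range P, e (p * θ) = (starRingEnd ℂ) (∑ p ∈ range P, e (p * |θ|)) := by
      rw [map_sum]
      apply sum_congr rfl; intro p _
      rw [conj_e, abs_of_neg h]; congr 1; ring
    rw [h2, RCLike.norm_conj]
    exact key _ (abs_pos.2 h0) h1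
  · rw [abs_of_pos h] at h1 ⊢
    exact key θ h h1

lemma norm_geom_le (P : ℕ) (θ : ℝ) : ‖∑ p ∈ range P, e (p * θ)‖ ≤ P := by
  refine (norm_sum_le _ _).trans (le_of_eq ?_)
  rw [sum_congr rfl fun p _ => norm_e _]
  simp

lemma ygrid {α : ℝ} (h0 : 0 < α) (h1 : α < 1) (L J : ℕ) (hL : 1 ≤ L) :
    ∑ l ∈ Ioc L (2 * L), ∑ l' ∈ Ioc L (2 * L), ‖∑ p ∈ range (2 * J), e (1 / (4 * (2 * (L : ℝ)) ^ α) * p * ((l : ℝ) ^ α - (l' : ℝ) ^ α))‖ ^ 2 ≤
      J * (L * (4 * J + 32 * L / α * (1 + Real.log (L + 1)))) := by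
  have hL0 : (0 : ℝ) < L := by exact_mod_cast hL
  set Y : ℝ := (2 * (L : ℝ)) ^ α with hY
  have hY0 : 0 < Y := Real.rpow_pos_of_pos (by positivity) _
  have hrow : ∀ l ∈ Ioc L (2 * L), ∑ l' ∈ Ioc L (2 * L), ‖∑ p ∈ range (2 * J), e (1 / (4 * Y) * p * ((l : ℝ) ^ α - (l' : ℝ) ^ α))‖ ^ 2 ≤
      J * (4 * J + 32 * L / α * (1 + Real.log (L + 1))) := by
    intro l hl
    rw [← add_sum_erase _ _ hl]
    have hd : ‖∑ p ∈ range (2 * J), e (1 / (4 * Y) * p * ((l : ℝ) ^ α - (l : ℝ) ^ α))‖ ^ 2 ≤ 4 * (J : ℝ) ^ 2 := by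
      have h2 : ‖∑ p ∈ range (2 * J), e (1 / (4 * Y) * p * ((l : ℝ) ^ α - (l : ℝ) ^ α))‖ ≤ 2 * J := by
        have := norm_geom_le (2 * J) 0
        simp only [mul_zero] at this
        simp only [sub_self, mul_zero]
        push_cast at this
        exact this
      calc _ ≤ (2 * (J : ℝ)) ^ 2 := pow_le_pow_left₀ (norm_nonneg _) h2 2
        _ = _ := by ring
    have hoff : ∀ l' ∈ (Ioc L (2 * L)).erase l, ‖∑ p ∈ range (2 * J), e (1 / (4 * Y) * p * ((l : ℝ) ^ α - (l' : ℝ) ^ α))‖ ^ 2 ≤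
        16 * J * L / α * (1 / |(l : ℝ) - l'|) := by
      intro l' hl'
      rw [mem_erase, mem_Ioc] at hl'
      rw [mem_Ioc] at hl
      have hlr : (0 : ℝ) < l := by exact_mod_cast (by omega : 0 < l)
      have hlr' : (0 : ℝ) < l' := by exact_mod_cast (by omega : 0 < l')
      have hl2 : (l : ℝ) ≤ 2 * L := by exact_mod_cast hl.2
      have hl2' : (l' : ℝ) ≤ 2 * L := by exact_mod_cast hl'.2.2
      have hdist : 0 < |(l : ℝ) - l'| := by
        apply abs_pos.2
        intro h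
        apply hl'.1
        have : (l : ℝ) = l' := by linarith
        exact_mod_cast this.symm
      -- lower bound
      have key : ∀ a b : ℝ, 0 < a → a < b → b ≤ 2 * L → α * Y / (2 * L) * (b - a) ≤ b ^ α - a ^ α := by
        intro a b ha hab hb
        obtain ⟨c, hc1, hc2, hc3⟩ := rpow_mvt α ha hab
        rw [hc3]
        apply mul_le_mul_of_nonneg_right _ (by linarith)
        rw [mul_div_assoc]
        apply mul_le_mul_of_nonneg_left _ h0.le
        calc Y / (2 * L) = (2 * (L : ℝ)) ^ (α - 1) := by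
              rw [hY, Real.rpow_sub_one (by positivity)]
          _ ≤ c ^ (α - 1) := Real.rpow_le_rpow_of_nonpos (by linarith) (by linarith) (by linarith)
      have hlow : α * Y / (2 * L) * |(l : ℝ) - l'| ≤ |(l : ℝ) ^ α - (l' : ℝ) ^ α| := by
        rcases lt_trichotomy (l : ℝ) l' with h | h | h
        · have := key l l' hlr h hl2'
          rw [abs_sub_comm (l : ℝ), abs_of_pos (by linarith : 0 < (l' : ℝ) - l), abs_sub_comm]
          exact this.trans (le_abs_self _)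
        · rw [h]; simp
        · have := key l' l hlr' h hl2
          rw [abs_of_pos (by linarith : 0 < (l : ℝ) - l')]
          exact this.trans (le_abs_self _)
      have hup : |(l : ℝ) ^ α - (l' : ℝ) ^ α| ≤ Y := by
        have e1 : (l : ℝ) ^ α ≤ Y := Real.rpow_le_rpow hlr.le hl2 h0.le
        have e2 : (l' : ℝ) ^ α ≤ Y := Real.rpow_le_rpow hlr'.le hl2' h0.le
        have e3 : 0 ≤ (l : ℝ) ^ α := Real.rpow_nonneg hlr.le _
        have e4 : 0 ≤ (l' : ℝ) ^ α := Real.rpow_nonneg hlr'.le _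
        rw [abs_le]; constructor <;> linarith
      set θ : ℝ := 1 / (4 * Y) * ((l : ℝ) ^ α - (l' : ℝ) ^ α) with hθ
      have hθ1 : |θ| ≤ 1 / 4 := by
        rw [hθ, abs_mul, abs_of_pos (by positivity : 0 < 1 / (4 * Y))]
        calc 1 / (4 * Y) * |(l : ℝ) ^ α - (l' : ℝ) ^ α| ≤ 1 / (4 * Y) * Y := mul_le_mul_of_nonneg_left hup (by positivity)
          _ = 1 / 4 := by field_simp
      have hθ2 : α / (8 * L) * |(l : ℝ) - l'| ≤ |θ| := by
        rw [hθ, abs_mul, abs_of_pos (by positivity : 0 < 1 / (4 * Y))]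
        calc α / (8 * L) * |(l : ℝ) - l'| = 1 / (4 * Y) * (α * Y / (2 * L) * |(l : ℝ) - l'|) := by field_simp; ring
          _ ≤ _ := mul_le_mul_of_nonneg_left hlow (by positivity)
      have hθ0 : θ ≠ 0 := by
        intro h
        rw [h, abs_zero] at hθ2
        have : 0 < α / (8 * L) * |(l : ℝ) - l'| := by positivity
        linarith
      have hsum : ∑ p ∈ range (2 * J), e (1 / (4 * Y) * p * ((l : ℝ) ^ α - (l' : ℝ) ^ α)) = ∑ p ∈ range (2 * J), e (p * θ) := by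
        apply sum_congr rfl; intro p _
        congr 1; rw [hθ]; ring
      rw [hsum]
      have g1 := norm_geom_le (2 * J) θ
      have g2 := geom_abs (2 * J) θ hθ0 hθ1
      push_cast at g1
      have g3 : 1 / |θ| ≤ 8 * L / α * (1 / |(l : ℝ) - l'|) := by
        calc 1 / |θ| ≤ 1 / (α / (8 * L) * |(l : ℝ) - l'|) := one_div_le_one_div_of_le (by positivity) hθ2
          _ = _ := by field_simp
      calc ‖∑ p ∈ range (2 * J), e (p * θ)‖ ^ 2 = ‖∑ p ∈ range (2 * J), e (p * θ)‖ * ‖∑ p ∈ range (2 * J), e (p * θ)‖ := sq _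
        _ ≤ (2 * J) * (8 * L / α * (1 / |(l : ℝ) - l'|)) := mul_le_mul g1 (g2.trans g3) (norm_nonneg _) (by positivity)
        _ = _ := by ring
    have hinv := sum_inv_dist (Ioc L (2 * L)) L l (by
      intro l' hl'
      rw [mem_Ioc] at hl hl'
      constructor <;> omega)
    calc _ ≤ 4 * (J : ℝ) ^ 2 + ∑ l' ∈ (Ioc L (2 * L)).erase l, 16 * J * L / α * (1 / |(l : ℝ) - l'|) :=
          add_le_add hd (sum_le_sum hoff)
      _ = 4 * (J : ℝ) ^ 2 + 16 * J * L / α * ∑ l' ∈ (Ioc L (2 * L)).erase l, (1 / |(l : ℝ) - l'|) := by rw [mul_sum]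
      _ ≤ 4 * (J : ℝ) ^ 2 + 16 * J * L / α * (2 * (1 + Real.log (L + 1))) :=
          add_le_add le_rfl (mul_le_mul_of_nonneg_left hinv (by positivity))
      _ = _ := by ring
  calc _ ≤ ∑ _l ∈ Ioc L (2 * L), (J : ℝ) * (4 * J + 32 * L / α * (1 + Real.log (L + 1))) := sum_le_sum hrow
    _ = _ := by
        rw [sum_const, Nat.card_Ioc, nsmul_eq_mul, show 2 * L - L = L by omega]; ring

/-- a bilinear block -/
theorem bil_block {α : ℝ} (h0 : 0 < α) (h1 : α < 1) (lam : ℝ) (hlam : 0 < lam) (N K M L : ℕ) (hK : 1 ≤ K) (hKN : K ≤ N) (hM : 1 ≤ M)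
    (hL : 1 ≤ L) (hNl : 1 ≤ lam * (N : ℝ) ^ α) (h4 : N < 4 * (M * L)) (h2 : M * L ≤ 2 * N)
    (a : ℕ → ℕ → ℂ) (b : ℕ → ℂ) (A B : ℝ) (hA : ∀ h m, m ∈ Ioc M (2 * M) → ‖a h m‖ ≤ A) (hB : ∀ l ∈ Ioc L (2 * L), ‖b l‖ ≤ B)
    (hA0 : 0 ≤ A) (hB0 : 0 ≤ B) :
    ‖∑ h ∈ Ico K (2 * K), ∑ m ∈ Ioc M (2 * M), ∑ l ∈ Ioc L (2 * L), a h m * b l * e (lam * h * ((m * l : ℕ) : ℝ) ^ α)‖ ^ 2 ≤
      (50 * (9 + 288 / (α * lam)) * (260 * lam + 32 / α)) * ((A ^ 2 * B ^ 2) * (1 + Real.log (4 * N + 1)) ^ 3 *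
        ((K * N) * (K * (N : ℝ) ^ α + L + K * M + 2 * (N : ℝ) ^ (1 - α)))) := by
  have hK0 : (1 : ℝ) ≤ K := by exact_mod_cast hK
  have hM0 : (1 : ℝ) ≤ M := by exact_mod_cast hM
  have hL0 : (1 : ℝ) ≤ L := by exact_mod_cast hL
  have hN1 : 1 ≤ N := by omega
  have hN0 : (1 : ℝ) ≤ N := by exact_mod_cast hN1
  set ℓ : ℝ := 1 + Real.log (4 * N + 1) with hℓ
  have hℓ1 : 1 ≤ ℓ := by have := Real.log_nonneg (show (1 : ℝ) ≤ 4 * N + 1 by linarith); linarith
  set Y : ℝ := (2 * (L : ℝ)) ^ α with hY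
  have hY0 : 0 < Y := Real.rpow_pos_of_pos (by positivity) _
  set X : ℝ := lam * (2 * K) * (2 * (M : ℝ)) ^ α with hX
  have hX0 : 0 < X := by have := Real.rpow_pos_of_pos (show (0 : ℝ) < 2 * M by linarith) α; positivity
  set J : ℕ := ⌊X * (4 * Y)⌋₊ + 1 with hJ
  have hJ1 : 1 ≤ J := by omega
  have hNα0 : 0 < (N : ℝ) ^ α := Real.rpow_pos_of_pos (by linarith) _
  -- size of J
  have hMLr : ((M * L : ℕ) : ℝ) ≤ 2 * N := by exact_mod_cast h2
  have hXY : X * (4 * Y) ≤ 64 * (lam * K * (N : ℝ) ^ α) := by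
    have e1 : (2 * (M : ℝ)) ^ α * Y ≤ 8 * (N : ℝ) ^ α := by
      rw [hY, ← Real.mul_rpow (by linarith) (by linarith)]
      calc (2 * (M : ℝ) * (2 * L)) ^ α ≤ (8 * (N : ℝ)) ^ α := by
            apply Real.rpow_le_rpow (by positivity) _ h0.le
            push_cast at hMLr
            nlinarith
        _ = 8 ^ α * (N : ℝ) ^ α := by rw [Real.mul_rpow (by norm_num) (by linarith)]
        _ ≤ 8 * (N : ℝ) ^ α := by
            apply mul_le_mul_of_nonneg_right _ hNα0.le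
            calc (8 : ℝ) ^ α ≤ 8 ^ (1 : ℝ) := Real.rpow_le_rpow_of_exponent_le (by norm_num) h1.le
              _ = 8 := Real.rpow_one 8
    calc X * (4 * Y) = 8 * (lam * K) * ((2 * (M : ℝ)) ^ α * Y) := by rw [hX]; ring
      _ ≤ 8 * (lam * K) * (8 * (N : ℝ) ^ α) := mul_le_mul_of_nonneg_left e1 (by positivity)
      _ = _ := by ring
  have hJup : (J : ℝ) ≤ 65 * (lam * K * (N : ℝ) ^ α) := by
    have e1 : (⌊X * (4 * Y)⌋₊ : ℝ) ≤ X * (4 * Y) := Nat.floor_le (by positivity)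
    have e2 : 1 ≤ lam * K * (N : ℝ) ^ α := by
      calc (1 : ℝ) ≤ 1 * (lam * (N : ℝ) ^ α) := by linarith
        _ ≤ K * (lam * (N : ℝ) ^ α) := mul_le_mul_of_nonneg_right hK0 (by positivity)
        _ = _ := by ring
    rw [hJ]; push_cast
    linarith
  -- counts
  classical
  set Nx : ℝ := 9 * (K * M) * ((1 + Real.log (2 * K + 1)) * (1 + Real.log (2 * M + 1))) +
      576 / α * (1 / (4 * Y) / (lam * (K * (M : ℝ) ^ α))) * (K * M) ^ 2 with hNx
  set Ny : ℝ := L * (4 * J + 32 * L / α * (1 + Real.log (L + 1))) with hNy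
  have hsp := spacing h0 h1 lam (1 / (4 * Y)) hlam (by positivity) K M hK hM
  have hyg := ygrid h0 h1 L J hL
  have hform : ∑ h ∈ Ico K (2 * K), ∑ m ∈ Ioc M (2 * M), ∑ l ∈ Ioc L (2 * L), a h m * b l * e (lam * h * ((m * l : ℕ) : ℝ) ^ α) =
      ∑ v ∈ Ico K (2 * K) ×ˢ Ioc M (2 * M), ∑ l ∈ Ioc L (2 * L), a v.1 v.2 * b l * e ((lam * v.1 * (v.2 : ℝ) ^ α) * (l : ℝ) ^ α) := by
    rw [sum_product]
    apply sum_congr rfl; intro h _
    apply sum_congr rfl; intro m _
    apply sum_congr rfl; intro l _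
    congr 2
    push_cast
    rw [Real.mul_rpow (Nat.cast_nonneg _) (Nat.cast_nonneg _)]; ring
  rw [hform]
  have hd := dls (Ico K (2 * K) ×ˢ Ioc M (2 * M)) (Ioc L (2 * L)) (fun v => lam * v.1 * (v.2 : ℝ) ^ α) (fun l => (l : ℝ) ^ α)
    (fun v => a v.1 v.2) b Y hY0 J hJ1 ?_ ?_ A B ?_ hB hA0 hB0 Nx Ny ?_ ?_
  · refine hd.trans ?_
    -- simplify the bound
    have hNx2 : Nx ≤ (9 + 288 / (α * lam)) * (ℓ ^ 2 * ((K * M) * (1 + M / (N : ℝ) ^ α))) := by
      have l1 : 1 + Real.log (2 * K + 1) ≤ ℓ := by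
        have : Real.log (2 * K + 1) ≤ Real.log (4 * N + 1) := by
          apply Real.log_le_log (by positivity)
          have : (K : ℝ) ≤ N := by exact_mod_cast hKN
          linarith
        linarith
      have hMN : (M : ℝ) ≤ 2 * N := by
        have : M ≤ M * L := Nat.le_mul_of_pos_right _ (by omega)
        exact_mod_cast (by omega : M ≤ 2 * N)
      have l2 : 1 + Real.log (2 * M + 1) ≤ ℓ := by
        have : Real.log (2 * M + 1) ≤ Real.log (4 * N + 1) := Real.log_le_log (by positivity) (by linarith)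
        linarith
      have l10 : 0 ≤ 1 + Real.log (2 * (K : ℝ) + 1) := by
        have := Real.log_nonneg (show (1 : ℝ) ≤ 2 * K + 1 by linarith); linarith
      have l20 : 0 ≤ 1 + Real.log (2 * (M : ℝ) + 1) := by
        have := Real.log_nonneg (show (1 : ℝ) ≤ 2 * M + 1 by linarith); linarith
      have t1 : 9 * (K * M : ℝ) * ((1 + Real.log (2 * K + 1)) * (1 + Real.log (2 * M + 1))) ≤ 9 * (ℓ ^ 2 * (K * M)) := by
        have : (1 + Real.log (2 * K + 1)) * (1 + Real.log (2 * M + 1)) ≤ ℓ ^ 2 := by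
          rw [sq]; exact mul_le_mul l1 l2 l20 (by linarith)
        have := mul_le_mul_of_nonneg_left this (show (0 : ℝ) ≤ 9 * (K * M) by positivity)
        linarith
      have t2 : 1 / (4 * Y) / (lam * (K * (M : ℝ) ^ α)) ≤ 1 / (2 * (lam * K * (N : ℝ) ^ α)) := by
        rw [div_div]
        apply one_div_le_one_div_of_le (by positivity)
        have e1 : (N : ℝ) ^ α / 2 ≤ Y * (M : ℝ) ^ α := by
          rw [hY, ← Real.mul_rpow (by linarith) (by linarith)]
          calc (N : ℝ) ^ α / 2 ≤ ((N : ℝ) / 2) ^ α := by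
                rw [Real.div_rpow (by linarith) (by norm_num)]
                apply div_le_div_of_nonneg_left hNα0.le (by positivity)
                calc (2 : ℝ) ^ α ≤ 2 ^ (1 : ℝ) := Real.rpow_le_rpow_of_exponent_le (by norm_num) h1.le
                  _ = 2 := Real.rpow_one 2
            _ ≤ _ := by
                apply Real.rpow_le_rpow (by positivity) _ h0.le
                have : (N : ℝ) < ((4 * (M * L) : ℕ) : ℝ) := by exact_mod_cast h4
                push_cast at this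
                linarith
        calc 2 * (lam * K * (N : ℝ) ^ α) = 4 * lam * K * ((N : ℝ) ^ α / 2) := by ring
          _ ≤ 4 * lam * K * (Y * (M : ℝ) ^ α) := mul_le_mul_of_nonneg_left e1 (by positivity)
          _ = _ := by ring
      have t3 : 576 / α * (1 / (4 * Y) / (lam * (K * (M : ℝ) ^ α))) * (K * M : ℝ) ^ 2 ≤ 288 / (α * lam) * ((K * M) * (M / (N : ℝ) ^ α)) := by
        calc _ ≤ 576 / α * (1 / (2 * (lam * K * (N : ℝ) ^ α))) * (K * M : ℝ) ^ 2 := by gcongr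
          _ = _ := by field_simp; ring
      have t4 : 0 ≤ (K * M : ℝ) := by positivity
      have t5 : 0 ≤ (M : ℝ) / (N : ℝ) ^ α := by positivity
      have hℓ2 : 1 ≤ ℓ ^ 2 := one_le_pow₀ hℓ1
      have t6 : 288 / (α * lam) * ((K * M : ℝ) * (M / (N : ℝ) ^ α)) ≤ 288 / (α * lam) * (ℓ ^ 2 * ((K * M : ℝ) * (1 + M / (N : ℝ) ^ α))) := by
        apply mul_le_mul_of_nonneg_left _ (by positivity)
        calc (K * M : ℝ) * (M / (N : ℝ) ^ α) ≤ 1 * ((K * M : ℝ) * (1 + M / (N : ℝ) ^ α)) := by nlinarith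
          _ ≤ _ := mul_le_mul_of_nonneg_right hℓ2 (by positivity)
      have t7 : 9 * (ℓ ^ 2 * (K * M : ℝ)) ≤ 9 * (ℓ ^ 2 * ((K * M : ℝ) * (1 + M / (N : ℝ) ^ α))) := by
        apply mul_le_mul_of_nonneg_left _ (by norm_num)
        apply mul_le_mul_of_nonneg_left _ (by positivity)
        nlinarith
      rw [hNx]
      calc _ ≤ 9 * (ℓ ^ 2 * ((K * M : ℝ) * (1 + M / (N : ℝ) ^ α))) + 288 / (α * lam) * (ℓ ^ 2 * ((K * M : ℝ) * (1 + M / (N : ℝ) ^ α))) :=
            add_le_add (t1.trans t7) (t3.trans t6)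
        _ = _ := by ring
    have hNy2 : Ny ≤ (260 * lam + 32 / α) * (ℓ * (L * (K * (N : ℝ) ^ α + L))) := by
      have l1 : 1 + Real.log (L + 1) ≤ ℓ := by
        have hLN : (L : ℝ) ≤ 2 * N := by
          have : L ≤ M * L := Nat.le_mul_of_pos_left _ (by omega)
          exact_mod_cast (by omega : L ≤ 2 * N)
        have : Real.log (L + 1) ≤ Real.log (4 * N + 1) := Real.log_le_log (by positivity) (by linarith)
        linarith
      have t1 : 4 * (J : ℝ) ≤ 260 * lam * (ℓ * (K * (N : ℝ) ^ α)) := by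
        calc 4 * (J : ℝ) ≤ 4 * (65 * (lam * K * (N : ℝ) ^ α)) := mul_le_mul_of_nonneg_left hJup (by norm_num)
          _ = 260 * lam * (1 * (K * (N : ℝ) ^ α)) := by ring
          _ ≤ _ := by
              apply mul_le_mul_of_nonneg_left _ (by positivity)
              exact mul_le_mul_of_nonneg_right hℓ1 (by positivity)
      have t2 : 32 * (L : ℝ) / α * (1 + Real.log (L + 1)) ≤ 32 / α * (ℓ * L) := by
        calc 32 * (L : ℝ) / α * (1 + Real.log (L + 1)) ≤ 32 * (L : ℝ) / α * ℓ := mul_le_mul_of_nonneg_left l1 (by positivity)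
          _ = _ := by ring
      have t3 : 0 ≤ ℓ * (K * (N : ℝ) ^ α) := by positivity
      have t4 : 0 ≤ ℓ * L := by positivity
      rw [hNy]
      calc (L : ℝ) * (4 * J + 32 * L / α * (1 + Real.log (L + 1))) ≤ L * (260 * lam * (ℓ * (K * (N : ℝ) ^ α)) + 32 / α * (ℓ * L)) :=
            mul_le_mul_of_nonneg_left (add_le_add t1 t2) (by linarith)
        _ ≤ L * ((260 * lam + 32 / α) * (ℓ * (K * (N : ℝ) ^ α) + ℓ * L)) := by
            apply mul_le_mul_of_nonneg_left _ (by linarith)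
            have u1 : 0 ≤ 260 * lam * (ℓ * L) := by positivity
            have u2 : 0 ≤ 32 / α * (ℓ * (K * (N : ℝ) ^ α)) := by positivity
            nlinarith
        _ = _ := by ring
    have hNx0 : 0 ≤ Nx := le_trans (Nat.cast_nonneg _) hsp
    have hNy0 : 0 ≤ Ny := by
      have := Real.log_nonneg (show (1 : ℝ) ≤ L + 1 by linarith)
      rw [hNy]; positivity
    calc 25 * (A ^ 2 * Nx * (B ^ 2 * Ny)) = 25 * (A ^ 2 * B ^ 2) * (Nx * Ny) := by ring
      _ ≤ 25 * (A ^ 2 * B ^ 2) * (((9 + 288 / (α * lam)) * (ℓ ^ 2 * ((K * M) * (1 + M / (N : ℝ) ^ α)))) *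
            ((260 * lam + 32 / α) * (ℓ * (L * (K * (N : ℝ) ^ α + L))))) := by
            apply mul_le_mul_of_nonneg_left _ (by positivity)
            exact mul_le_mul hNx2 hNy2 hNy0 (by positivity)
      _ = (25 * (9 + 288 / (α * lam)) * (260 * lam + 32 / α)) * ((A ^ 2 * B ^ 2) * ℓ ^ 3 *
            ((K * (M * L)) * ((1 + M / (N : ℝ) ^ α) * (K * (N : ℝ) ^ α + L)))) := by ring
      _ ≤ (25 * (9 + 288 / (α * lam)) * (260 * lam + 32 / α)) * ((A ^ 2 * B ^ 2) * ℓ ^ 3 *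
            ((K * (2 * N)) * (K * (N : ℝ) ^ α + L + K * M + 2 * (N : ℝ) ^ (1 - α)))) := by
            apply mul_le_mul_of_nonneg_left _ (by positivity)
            apply mul_le_mul_of_nonneg_left _ (by positivity)
            push_cast at hMLr
            have w1 : (1 + M / (N : ℝ) ^ α) * (K * (N : ℝ) ^ α + L) ≤ K * (N : ℝ) ^ α + L + K * M + 2 * (N : ℝ) ^ (1 - α) := by
              have w2 : (1 + M / (N : ℝ) ^ α) * (K * (N : ℝ) ^ α + L) = K * (N : ℝ) ^ α + L + K * M + (M * L) / (N : ℝ) ^ α := by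
                field_simp
                ring
              rw [w2]
              have w3 : (M * L : ℝ) / (N : ℝ) ^ α ≤ 2 * (N : ℝ) ^ (1 - α) := by
                rw [div_le_iff₀ hNα0, mul_assoc, ← Real.rpow_add (by linarith), sub_add_cancel, Real.rpow_one]
                exact hMLr
              linarith
            apply mul_le_mul _ w1 (by positivity) (by positivity)
            exact mul_le_mul_of_nonneg_left hMLr (by positivity)
      _ = _ := by ring
  · rintro ⟨h, m⟩ hv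
    rw [mem_product, mem_Ico, mem_Ioc] at hv
    simp only at hv ⊢
    have hm0 : (0 : ℝ) ≤ (m : ℝ) ^ α := Real.rpow_nonneg (Nat.cast_nonneg _) _
    refine ⟨by positivity, ?_⟩
    have e1 : lam * h * (m : ℝ) ^ α ≤ X := by
      rw [hX]
      have c1 : (h : ℝ) ≤ 2 * K := by exact_mod_cast hv.1.2.le
      have c2 : (m : ℝ) ^ α ≤ (2 * (M : ℝ)) ^ α := Real.rpow_le_rpow (Nat.cast_nonneg _) (by exact_mod_cast hv.2.2) h0.le
      gcongr
    calc lam * h * (m : ℝ) ^ α * (4 * Y) ≤ X * (4 * Y) := mul_le_mul_of_nonneg_right e1 (by positivity)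
      _ < J := by rw [hJ]; push_cast; exact Nat.lt_floor_add_one _
  · intro l hl
    rw [mem_Ioc] at hl
    exact ⟨Real.rpow_nonneg (Nat.cast_nonneg _) _, Real.rpow_le_rpow (Nat.cast_nonneg _) (by exact_mod_cast hl.2) h0.le⟩
  · rintro ⟨h, m⟩ hv
    rw [mem_product] at hv
    exact hA h m hv.2
  · refine le_trans (le_of_eq ?_) hsp
    congr 2
  · exact hyg

end Pool.Agent.H373R2.T4
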