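import Mathlib
import Pool.Agent.H373R2.T4.Bil

namespace Pool.Agent.H373R2.T4
open Finset
open Pool.Agent.H469R2.NK (e norm_e e_add conj_e e_zero)
open Pool.Agent.H373R2.T3 (harm geom_e e_natmul e_sum_zero dyadic_sum)

/-- Fourier coefficients of an interval -/
noncomputable def cj (L u v j : ℕ) : ℂ := (1 / (L : ℂ)) * ∑ t ∈ Ioc u v, e (-((j : ℝ) * t / L))

noncomputable def gam (L j : ℕ) : ℝ := if j = 0 then 1 else 1 / (j : ℝ) + 1 / ((L : ℝ) - j)

lemma cj_sum (L u v l : ℕ) (hL : 1 ≤ L) (hu : L ≤ u) (hv : v ≤ 2 * L) (hl : l ∈ Ioc L (2 * L)) :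
    ∑ j ∈ range L, cj L u v j * e ((j : ℝ) * l / L) = if u < l ∧ l ≤ v then 1 else 0 := by
  have hL0 : (L : ℝ) ≠ 0 := by exact_mod_cast (by omega : L ≠ 0)
  have hLc : (L : ℂ) ≠ 0 := by exact_mod_cast (by omega : L ≠ 0)
  rw [mem_Ioc] at hl
  have h1 : ∑ j ∈ range L, cj L u v j * e ((j : ℝ) * l / L) =
      ∑ t ∈ Ioc u v, (1 / (L : ℂ)) * ∑ j ∈ range L, e ((((l : ℤ) - t : ℤ) : ℝ) * (j / L)) := by
    unfold cj
    calc ∑ j ∈ range L, (1 / (L : ℂ)) * (∑ t ∈ Ioc u v, e (-((j : ℝ) * t / L))) * e ((j : ℝ) * l / L) =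
          ∑ j ∈ range L, ∑ t ∈ Ioc u v, (1 / (L : ℂ)) * e ((((l : ℤ) - t : ℤ) : ℝ) * (j / L)) := by
          apply sum_congr rfl; intro j _
          rw [mul_assoc, sum_mul, mul_sum]
          apply sum_congr rfl; intro t _
          rw [← e_add]
          congr 2
          push_cast; ring
      _ = _ := by
          rw [sum_comm]
          apply sum_congr rfl; intro t _
          rw [mul_sum]
  rw [h1]
  have h2 : ∀ t ∈ Ioc u v, (1 / (L : ℂ)) * ∑ j ∈ range L, e ((((l : ℤ) - t : ℤ) : ℝ) * (j / L)) = if l = t then 1 else 0 := by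
    intro t ht
    rw [mem_Ioc] at ht
    split_ifs with h
    · subst h
      simp [e_zero, hLc]
    · rw [e_sum_zero L ((l : ℤ) - t) (by omega) (by rw [abs_lt]; constructor <;> omega), mul_zero]
  rw [sum_congr rfl h2, sum_ite_eq]
  simp only [mem_Ioc]

lemma cj_norm (L u v j : ℕ) (hL : 1 ≤ L) (hu : L ≤ u) (hv : v ≤ 2 * L) (hj : j < L) : ‖cj L u v j‖ ≤ gam L j := by
  have hL0 : (0 : ℝ) < L := by exact_mod_cast hL
  unfold cj gam
  rw [norm_mul, norm_div, norm_one, Complex.norm_natCast]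
  split_ifs with h
  · have h1 : ‖∑ t ∈ Ioc u v, e (-((j : ℝ) * t / L))‖ ≤ L := by
      refine (norm_sum_le _ _).trans ?_
      rw [sum_congr rfl fun p _ => norm_e _, sum_const, Nat.card_Ioc, nsmul_eq_mul, mul_one]
      exact_mod_cast (by omega : v - u ≤ L)
    rw [div_mul_eq_mul_div, one_mul, div_le_one hL0]; exact h1
  · have hj0 : (0 : ℝ) < j := by exact_mod_cast Nat.pos_of_ne_zero h
    have hjL : (j : ℝ) < L := by exact_mod_cast hj
    set y : ℝ := (j : ℝ) / L with hy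
    have hy0 : 0 < y := by positivity
    have hy1 : y < 1 := by rw [hy, div_lt_one hL0]; exact hjL
    have h1 : ‖∑ t ∈ Ioc u v, e (-((j : ℝ) * t / L))‖ = ‖∑ p ∈ range (v - u), (e y) ^ p‖ := by
      have h2 : ∑ t ∈ Ioc u v, e (-((j : ℝ) * t / L)) = e (-(y * (u + 1))) * (starRingEnd ℂ) (∑ p ∈ range (v - u), (e y) ^ p) := by
        rcases Nat.lt_or_ge v u with h3 | h3
        · rw [Ioc_eq_empty (by omega), Nat.sub_eq_zero_of_le h3.le]; simp
        · rw [map_sum, mul_sum]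
          have h4 : Ioc u v = Ico (u + 1) (v + 1) := by
            ext t; rw [mem_Ioc, mem_Ico]; omega
          rw [h4, sum_Ico_eq_sum_range, show v + 1 - (u + 1) = v - u by omega]
          apply sum_congr rfl; intro p _
          rw [← e_natmul, conj_e, ← e_add]
          congr 1
          rw [hy]; push_cast; ring
      rw [h2, norm_mul, norm_e, one_mul, RCLike.norm_conj]
    rw [h1]
    have h5 : ‖∑ p ∈ range (v - u), (e y) ^ p‖ ≤ 1 / y + 1 / (1 - y) := by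
      rcases le_total y (1 - y) with h6 | h6
      · have := geom_e (v - u) y y hy0 le_rfl (by linarith)
        have h7 : 0 ≤ 1 / (1 - y) := by apply one_div_nonneg.2; linarith
        linarith
      · have := geom_e (v - u) y (1 - y) (by linarith) h6 (by linarith)
        have h7 : 0 ≤ 1 / y := by positivity
        linarith
    calc 1 / (L : ℝ) * ‖∑ p ∈ range (v - u), (e y) ^ p‖ ≤ 1 / (L : ℝ) * (1 / y + 1 / (1 - y)) :=
          mul_le_mul_of_nonneg_left h5 (by positivity)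
      _ = _ := by
          rw [hy]
          have h8 : (L : ℝ) - j ≠ 0 := by linarith
          have h9 : 1 - (j : ℝ) / L ≠ 0 := by
            rw [sub_ne_zero]; exact (ne_of_gt hy1)
          field_simp

lemma gam_nonneg (L j : ℕ) (hj : j < L) : 0 ≤ gam L j := by
  unfold gam
  have hjL : (j : ℝ) < L := by exact_mod_cast hj
  split_ifs
  · norm_num
  · have : 0 < (L : ℝ) - j := by linarith
    positivity

lemma gam_sum (L : ℕ) (hL : 1 ≤ L) : ∑ j ∈ range L, gam L j ≤ 3 + 2 * Real.log (L + 1) := by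
  obtain ⟨n, rfl⟩ : ∃ n, L = n + 1 := ⟨L - 1, by omega⟩
  rw [sum_range_succ']
  have h1 : ∑ k ∈ range n, gam (n + 1) (k + 1) = ∑ k ∈ range n, 1 / ((k + 1 : ℕ) : ℝ) + ∑ k ∈ range n, 1 / (((n - k : ℕ)) : ℝ) := by
    rw [← sum_add_distrib]
    apply sum_congr rfl; intro k hk
    rw [mem_range] at hk
    unfold gam
    rw [if_neg (by omega), Nat.cast_sub hk.le]
    push_cast; ring_nf
  have h2 : ∑ k ∈ range n, 1 / (((n - k : ℕ)) : ℝ) = ∑ k ∈ range n, 1 / ((k + 1 : ℕ) : ℝ) := by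
    rw [← sum_range_reflect]
    apply sum_congr rfl; intro k hk
    rw [mem_range] at hk
    congr 3; omega
  have h3 : ∑ k ∈ range n, 1 / ((k + 1 : ℕ) : ℝ) = ∑ q ∈ Icc 1 n, (1 : ℝ) / q := by
    rw [range_eq_Ico, sum_Ico_add' (fun k => 1 / ((k : ℕ) : ℝ)) 0 n 1]
    apply sum_congr _ fun _ _ => rfl
    ext k; rw [mem_Ico, mem_Icc]; omega
  have h4 := harm n
  have h5 : Real.log (n + 1) ≤ Real.log (((n + 1 : ℕ) : ℝ) + 1) := Real.log_le_log (by positivity) (by push_cast; linarith)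
  rw [h1, h2, h3]
  have h6 : gam (n + 1) 0 = 1 := by unfold gam; simp
  rw [h6]
  linarith

/-- bilinear blocks with a sharp cut -/
theorem bil_cut {α : ℝ} (h0 : 0 < α) (h1 : α < 1) (lam : ℝ) (hlam : 0 < lam) (N N' K M L : ℕ) (hK : 1 ≤ K) (hKN : K ≤ N) (hM : 1 ≤ M)
    (hL : 1 ≤ L) (hNl : 1 ≤ lam * (N : ℝ) ^ α) (h4 : N < 4 * (M * L)) (h2 : M * L ≤ 2 * N)
    (a b : ℕ → ℂ) (A B : ℝ) (hA : ∀ m ∈ Ioc M (2 * M), ‖a m‖ ≤ A) (hB : ∀ l ∈ Ioc L (2 * L), ‖b l‖ ≤ B)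
    (hA0 : 0 ≤ A) (hB0 : 0 ≤ B) :
    ∑ h ∈ Ico K (2 * K), ‖∑ m ∈ Ioc M (2 * M), ∑ l ∈ Ioc L (2 * L), a m * b l *
      (if N < m * l ∧ m * l ≤ N' then e (lam * h * ((m * l : ℕ) : ℝ) ^ α) else 0)‖ ≤
      (3 + 2 * Real.log (L + 1)) * (A * B * Real.sqrt ((50 * (9 + 288 / (α * lam)) * (260 * lam + 32 / α)) * ((1 + Real.log (4 * N + 1)) ^ 3 *
        ((K * N) * (K * (N : ℝ) ^ α + L + K * M + 2 * (N : ℝ) ^ (1 - α)))))) := by
  set Q : ℝ := (50 * (9 + 288 / (α * lam)) * (260 * lam + 32 / α)) * ((1 + Real.log (4 * N + 1)) ^ 3 *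
        ((K * N) * (K * (N : ℝ) ^ α + L + K * M + 2 * (N : ℝ) ^ (1 - α)))) with hQ
  have hQ0 : 0 ≤ Q := by
    have := Real.log_nonneg (show (1 : ℝ) ≤ 4 * N + 1 by have : (0 : ℝ) ≤ N := Nat.cast_nonneg _; linarith)
    have h5 : 0 ≤ (N : ℝ) ^ α := Real.rpow_nonneg (Nat.cast_nonneg _) _
    have h6 : 0 ≤ (N : ℝ) ^ (1 - α) := Real.rpow_nonneg (Nat.cast_nonneg _) _
    rw [hQ]; positivity
  set F : ℕ → ℂ := fun h => ∑ m ∈ Ioc M (2 * M), ∑ l ∈ Ioc L (2 * L), a m * b l *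
      (if N < m * l ∧ m * l ≤ N' then e (lam * h * ((m * l : ℕ) : ℝ) ^ α) else 0) with hF
  set ξ : ℕ → ℂ := fun h => if F h = 0 then 0 else (starRingEnd ℂ) (F h) / ‖F h‖ with hξ
  have hξ1 : ∀ h, ‖ξ h‖ ≤ 1 := by
    intro h
    simp only [hξ]
    split_ifs with h3
    · simp
    · rw [norm_div, RCLike.norm_conj, Complex.norm_real, norm_norm, div_self (norm_ne_zero_iff.2 h3)]
  have hξ2 : ∀ h, ξ h * F h = (‖F h‖ : ℂ) := by
    intro h
    simp only [hξ]
    split_ifs with h3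
    · rw [h3]; simp
    · have h5 : (‖F h‖ : ℂ) ≠ 0 := by exact_mod_cast norm_ne_zero_iff.2 h3
      rw [div_mul_eq_mul_div, mul_comm, Complex.mul_conj, Complex.normSq_eq_norm_sq]
      push_cast
      field_simp
  -- expansion
  have hexp : ∀ h, F h = ∑ j ∈ range L, ∑ m ∈ Ioc M (2 * M), ∑ l ∈ Ioc L (2 * L),
      (a m * cj L (max L (N / m)) (min (2 * L) (N' / m)) j) * (b l * e ((j : ℝ) * l / L)) * e (lam * h * ((m * l : ℕ) : ℝ) ^ α) := by
    intro h
    simp only [hF]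
    symm
    rw [sum_comm]
    apply sum_congr rfl; intro m hm
    rw [mem_Ioc] at hm
    rw [sum_comm]
    apply sum_congr rfl; intro l hl
    have h3 := cj_sum L (max L (N / m)) (min (2 * L) (N' / m)) l hL (le_max_left _ _) (min_le_left _ _) hl
    rw [mem_Ioc] at hl
    have hm0 : 0 < m := by omega
    have h5 : (max L (N / m) < l ∧ l ≤ min (2 * L) (N' / m)) ↔ (N < m * l ∧ m * l ≤ N') := by
      rw [max_lt_iff, le_min_iff, Nat.div_lt_iff_lt_mul hm0, Nat.le_div_iff_mul_le hm0, mul_comm l m]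
      constructor
      · rintro ⟨⟨_, h6⟩, _, h7⟩; exact ⟨h6, h7⟩
      · rintro ⟨h6, h7⟩; exact ⟨⟨hl.1, h6⟩, hl.2, h7⟩
    have h6 : (if N < m * l ∧ m * l ≤ N' then e (lam * h * ((m * l : ℕ) : ℝ) ^ α) else 0) =
        (if max L (N / m) < l ∧ l ≤ min (2 * L) (N' / m) then (1 : ℂ) else 0) * e (lam * h * ((m * l : ℕ) : ℝ) ^ α) := by
      rw [if_congr h5 rfl rfl]
      split_ifs
      · rw [one_mul]
      · rw [zero_mul]
    rw [h6, ← h3, sum_mul, mul_sum]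
    apply sum_congr rfl; intro j _
    ring
  have hcast : ((∑ h ∈ Ico K (2 * K), ‖F h‖ : ℝ) : ℂ) = ∑ j ∈ range L, ∑ h ∈ Ico K (2 * K), ∑ m ∈ Ioc M (2 * M), ∑ l ∈ Ioc L (2 * L),
      (ξ h * (a m * cj L (max L (N / m)) (min (2 * L) (N' / m)) j)) * (b l * e ((j : ℝ) * l / L)) * e (lam * h * ((m * l : ℕ) : ℝ) ^ α) := by
    rw [Complex.ofReal_sum]
    symm
    rw [sum_comm]
    apply sum_congr rfl; intro h _
    rw [← hξ2 h, hexp h, mul_sum]
    apply sum_congr rfl; intro j _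
    rw [mul_sum]
    apply sum_congr rfl; intro m _
    rw [mul_sum]
    apply sum_congr rfl; intro l _
    ring
  have hj : ∀ j ∈ range L, ‖∑ h ∈ Ico K (2 * K), ∑ m ∈ Ioc M (2 * M), ∑ l ∈ Ioc L (2 * L),
      (ξ h * (a m * cj L (max L (N / m)) (min (2 * L) (N' / m)) j)) * (b l * e ((j : ℝ) * l / L)) * e (lam * h * ((m * l : ℕ) : ℝ) ^ α)‖ ≤
      gam L j * (A * B * Real.sqrt Q) := by
    intro j hj
    rw [mem_range] at hj
    have hg := gam_nonneg L j hj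
    have h5 := bil_block h0 h1 lam hlam N K M L hK hKN hM hL hNl h4 h2
      (fun h m => ξ h * (a m * cj L (max L (N / m)) (min (2 * L) (N' / m)) j)) (fun l => b l * e ((j : ℝ) * l / L))
      (A * gam L j) B ?_ ?_ (by positivity) hB0
    · have h6 : (50 * (9 + 288 / (α * lam)) * (260 * lam + 32 / α)) * (((A * gam L j) ^ 2 * B ^ 2) * (1 + Real.log (4 * N + 1)) ^ 3 *
          ((K * N) * (K * (N : ℝ) ^ α + L + K * M + 2 * (N : ℝ) ^ (1 - α)))) = (gam L j * (A * B * Real.sqrt Q)) ^ 2 := by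
        have h7 : (gam L j * (A * B * Real.sqrt Q)) ^ 2 = (gam L j) ^ 2 * (A ^ 2 * B ^ 2) * (Real.sqrt Q) ^ 2 := by ring
        rw [h7, Real.sq_sqrt hQ0, hQ]; ring
      rw [h6] at h5
      exact (pow_le_pow_iff_left₀ (norm_nonneg _) (by positivity) (by norm_num)).1 h5
    · intro h m hm
      rw [norm_mul, norm_mul]
      have h7 := cj_norm L (max L (N / m)) (min (2 * L) (N' / m)) j hL (le_max_left _ _) (min_le_left _ _) hj
      calc ‖ξ h‖ * (‖a m‖ * ‖cj L (max L (N / m)) (min (2 * L) (N' / m)) j‖) ≤ 1 * (A * gam L j) :=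
            mul_le_mul (hξ1 h) (mul_le_mul (hA m hm) h7 (norm_nonneg _) hA0) (by positivity) (by norm_num)
        _ = _ := one_mul _
    · intro l hl
      rw [norm_mul, norm_e, mul_one]
      exact hB l hl
  have hnorm : ∑ h ∈ Ico K (2 * K), ‖F h‖ = ‖((∑ h ∈ Ico K (2 * K), ‖F h‖ : ℝ) : ℂ)‖ := by
    rw [Complex.norm_real, Real.norm_of_nonneg (sum_nonneg fun _ _ => norm_nonneg _)]
  rw [hnorm, hcast]
  calc _ ≤ ∑ j ∈ range L, gam L j * (A * B * Real.sqrt Q) := (norm_sum_le _ _).trans (sum_le_sum hj)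
    _ = (∑ j ∈ range L, gam L j) * (A * B * Real.sqrt Q) := by rw [sum_mul]
    _ ≤ _ := mul_le_mul_of_nonneg_right (gam_sum L hL) (by positivity)

end Pool.Agent.H373R2.T4
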