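import Mathlib
import Pool.Agent.H373R2.T4.Cut

namespace Pool.Agent.H373R2.T4
open Finset
open Pool.Agent.H469R2.NK (e norm_e e_add conj_e e_zero)
open Pool.Agent.H373R2.T3 (dyadic_sum)

/-- total bilinear sum, averaged over the frequencies -/
theorem bil_total2 {α : ℝ} (h0 : 0 < α) (h1 : α < 1) (lam : ℝ) (hlam : 0 < lam) (N N' K U : ℕ) (hN : 1 ≤ N) (hN' : N' ≤ 2 * N)
    (hK : 1 ≤ K) (hKN : K ≤ N) (hU : 1 ≤ U) (hNl : 1 ≤ lam * (N : ℝ) ^ α)
    (a b : ℕ → ℂ) (A B : ℝ) (hA : ∀ m : ℕ, 1 ≤ m → m ≤ 4 * N → ‖a m‖ ≤ A) (hB : ∀ l : ℕ, 1 ≤ l → l ≤ 4 * N → ‖b l‖ ≤ B)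
    (hA0 : 0 ≤ A) (hB0 : 0 ≤ B)
    (hsupp : ∀ m l : ℕ, N < m * l → m * l ≤ N' → a m ≠ 0 → b l ≠ 0 → U < m ∧ U < l) :
    ∑ h ∈ Ico K (2 * K), ‖∑ m ∈ Icc 1 N', ∑ l ∈ Ioc (N / m) (N' / m), a m * b l * e (lam * h * ((m * l : ℕ) : ℝ) ^ α)‖ ≤
      (Nat.log 2 N' + 1 : ℝ) ^ 2 * ((3 * (1 + Real.log (4 * N + 1))) * (A * B * Real.sqrt ((50 * (9 + 288 / (α * lam)) * (260 * lam + 32 / α)) *
        ((1 + Real.log (4 * N + 1)) ^ 3 * ((K * N) * (K * (N : ℝ) ^ α + 4 * N / U + K * (2 * Real.sqrt N) + 2 * (N : ℝ) ^ (1 - α))))))) := by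
  classical
  have hN0 : (1 : ℝ) ≤ N := by exact_mod_cast hN
  have hU0 : (1 : ℝ) ≤ U := by exact_mod_cast hU
  have hK0 : (1 : ℝ) ≤ K := by exact_mod_cast hK
  set ℓ : ℝ := 1 + Real.log (4 * N + 1) with hℓ
  have hℓ1 : 1 ≤ ℓ := by have := Real.log_nonneg (show (1 : ℝ) ≤ 4 * N + 1 by linarith); linarith
  set C : ℝ := 50 * (9 + 288 / (α * lam)) * (260 * lam + 32 / α) with hC
  have hC0 : 0 < C := by positivity
  have hNα : 0 < (N : ℝ) ^ α := Real.rpow_pos_of_pos (by linarith) _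
  have hNβ : 0 < (N : ℝ) ^ (1 - α) := Real.rpow_pos_of_pos (by linarith) _
  set Q₀ : ℝ := C * (ℓ ^ 3 * ((K * N) * (K * (N : ℝ) ^ α + 4 * N / U + K * (2 * Real.sqrt N) + 2 * (N : ℝ) ^ (1 - α)))) with hQ₀
  have hQ₀0 : 0 ≤ Q₀ := by have := Real.sqrt_nonneg (N : ℝ); positivity
  set I := Nat.log 2 N' + 1 with hI
  have hI2 : N' < 2 ^ I := Nat.lt_pow_succ_log_self (by norm_num) _
  set F : ℕ → ℕ → ℕ → ℂ := fun h m l => a m * b l * (if N < m * l ∧ m * l ≤ N' then e (lam * h * ((m * l : ℕ) : ℝ) ^ α) else 0) with hF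
  have hF0 : ∀ h m l, F h m l ≠ 0 → N < m * l ∧ m * l ≤ N' ∧ a m ≠ 0 ∧ b l ≠ 0 := by
    intro h m l h'
    simp only [hF] at h'
    have h2 := left_ne_zero_of_mul h'
    have h3 := right_ne_zero_of_mul h'
    split_ifs at h3 with h4
    · exact ⟨h4.1, h4.2, left_ne_zero_of_mul h2, right_ne_zero_of_mul h2⟩
    · exact absurd rfl h3
  have htot : ∀ h : ℕ, ∑ m ∈ Icc 1 N', ∑ l ∈ Ioc (N / m) (N' / m), a m * b l * e (lam * h * ((m * l : ℕ) : ℝ) ^ α) =
      ∑ i ∈ range I, ∑ j ∈ range I, ∑ m ∈ Ioc (2 ^ i) (2 * 2 ^ i), ∑ l ∈ Ioc (2 ^ j) (2 * 2 ^ j), F h m l := by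
    intro h
    have hinner : ∀ m ∈ Icc 1 N', ∑ l ∈ Ioc (N / m) (N' / m), a m * b l * e (lam * h * ((m * l : ℕ) : ℝ) ^ α) = ∑ l ∈ Ioc 1 (2 ^ I), F h m l := by
      intro m hm
      rw [mem_Icc] at hm
      have hm0 : 0 < m := by omega
      have e1 : ∑ l ∈ Ioc (N / m) (N' / m), a m * b l * e (lam * h * ((m * l : ℕ) : ℝ) ^ α) = ∑ l ∈ Ioc (N / m) (N' / m), F h m l := by
        apply sum_congr rfl; intro l hl
        rw [mem_Ioc, Nat.div_lt_iff_lt_mul hm0, Nat.le_div_iff_mul_le hm0] at hl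
        simp only [hF]
        rw [if_pos ⟨by rw [mul_comm]; exact hl.1, by rw [mul_comm]; exact hl.2⟩]
      rw [e1]
      symm
      rw [← sum_filter_ne_zero, ← sum_filter_ne_zero (s := Ioc (N / m) (N' / m))]
      apply sum_congr _ fun _ _ => rfl
      ext l
      rw [mem_filter, mem_filter, mem_Ioc, mem_Ioc, Nat.div_lt_iff_lt_mul hm0, Nat.le_div_iff_mul_le hm0]
      constructor
      · rintro ⟨_, h3⟩
        obtain ⟨g1, g2, g3, g4⟩ := hF0 h m l h3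
        exact ⟨⟨by rw [mul_comm]; exact g1, by rw [mul_comm]; exact g2⟩, h3⟩
      · rintro ⟨_, h3⟩
        obtain ⟨g1, g2, g3, g4⟩ := hF0 h m l h3
        obtain ⟨g5, g6⟩ := hsupp m l g1 g2 g3 g4
        refine ⟨⟨by omega, ?_⟩, h3⟩
        have : l ≤ m * l := Nat.le_mul_of_pos_left _ hm0
        omega
    rw [sum_congr rfl hinner]
    have houter : ∑ m ∈ Icc 1 N', ∑ l ∈ Ioc 1 (2 ^ I), F h m l = ∑ m ∈ Ioc 1 (2 ^ I), ∑ l ∈ Ioc 1 (2 ^ I), F h m l := by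
      have hne : ∀ m, ∑ l ∈ Ioc 1 (2 ^ I), F h m l ≠ 0 → 1 < m ∧ m ≤ N' := by
        intro m h'
        obtain ⟨l, _, hl⟩ := exists_ne_zero_of_sum_ne_zero h'
        obtain ⟨g1, g2, g3, g4⟩ := hF0 h m l hl
        obtain ⟨g5, g6⟩ := hsupp m l g1 g2 g3 g4
        refine ⟨by omega, ?_⟩
        have : m ≤ m * l := Nat.le_mul_of_pos_right _ (by omega)
        omega
      rw [← sum_filter_ne_zero, ← sum_filter_ne_zero (s := Ioc 1 (2 ^ I))]
      apply sum_congr _ fun _ _ => rfl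
      ext m
      rw [mem_filter, mem_filter, mem_Icc, mem_Ioc]
      constructor
      · rintro ⟨_, h3⟩
        have := hne m h3
        exact ⟨⟨this.1, by omega⟩, h3⟩
      · rintro ⟨_, h3⟩
        have := hne m h3
        exact ⟨⟨by omega, this.2⟩, h3⟩
    rw [houter, dyadic_sum]
    simp_rw [dyadic_sum _ I]
    apply sum_congr rfl; intro i _
    rw [sum_comm]
  have hpiece : ∀ i j : ℕ, ∑ h ∈ Ico K (2 * K), ‖∑ m ∈ Ioc (2 ^ i) (2 * 2 ^ i), ∑ l ∈ Ioc (2 ^ j) (2 * 2 ^ j), F h m l‖ ≤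
      3 * ℓ * (A * B * Real.sqrt Q₀) := by
    intro i j
    by_cases hz : ∀ h ∈ Ico K (2 * K), ∑ m ∈ Ioc (2 ^ i) (2 * 2 ^ i), ∑ l ∈ Ioc (2 ^ j) (2 * 2 ^ j), F h m l = 0
    · rw [sum_eq_zero fun h hh => by rw [hz h hh, norm_zero]]
      positivity
    · push Not at hz
      obtain ⟨h', hh', hne⟩ := hz
      obtain ⟨m, hm, hm2⟩ := exists_ne_zero_of_sum_ne_zero hne
      obtain ⟨l, hl, hl2⟩ := exists_ne_zero_of_sum_ne_zero hm2
      obtain ⟨g1, g2, g3, g4⟩ := hF0 h' m l hl2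
      obtain ⟨g5, g6⟩ := hsupp m l g1 g2 g3 g4
      rw [mem_Ioc] at hm hl
      have hM1 : 1 ≤ 2 ^ i := Nat.one_le_two_pow
      have hL1 : 1 ≤ 2 ^ j := Nat.one_le_two_pow
      have k1 : N < 4 * (2 ^ i * 2 ^ j) := by
        calc N < m * l := g1
          _ ≤ (2 * 2 ^ i) * (2 * 2 ^ j) := Nat.mul_le_mul hm.2 hl.2
          _ = _ := by ring
      have k2 : 2 ^ i * 2 ^ j ≤ 2 * N := ((Nat.mul_le_mul hm.1.le hl.1.le).trans g2).trans hN'
      have k3 : 2 ^ i ≤ 2 * N := by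
        have : 2 ^ i ≤ 2 ^ i * 2 ^ j := Nat.le_mul_of_pos_right _ (by omega)
        omega
      have k4 : 2 ^ j ≤ 2 * N := by
        have : 2 ^ j ≤ 2 ^ i * 2 ^ j := Nat.le_mul_of_pos_left _ (by omega)
        omega
      have k5 : U ≤ 2 * 2 ^ i := by omega
      have k6 : U ≤ 2 * 2 ^ j := by omega
      -- the general comparison
      have hcomp : ∀ M L : ℕ, 1 ≤ M → M ≤ L → M * L ≤ 2 * N → U ≤ 2 * M → L ≤ 2 * N →
          (3 + 2 * Real.log (L + 1)) * (A * B * Real.sqrt (C * (ℓ ^ 3 *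
            ((K * N) * (K * (N : ℝ) ^ α + L + K * M + 2 * (N : ℝ) ^ (1 - α)))))) ≤ 3 * ℓ * (A * B * Real.sqrt Q₀) := by
        intro M L hM hML hML2 hUM hLN
        have hM0 : (1 : ℝ) ≤ M := by exact_mod_cast hM
        have hML0 : (M : ℝ) ≤ L := by exact_mod_cast hML
        have hML2r : (M : ℝ) * L ≤ 2 * N := by exact_mod_cast hML2
        have hUMr : (U : ℝ) ≤ 2 * M := by exact_mod_cast hUM
        have hLNr : (L : ℝ) ≤ 2 * N := by exact_mod_cast hLN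
        have e1 : 3 + 2 * Real.log (L + 1) ≤ 3 * ℓ := by
          have : Real.log ((L : ℝ) + 1) ≤ Real.log (4 * N + 1) := Real.log_le_log (by positivity) (by linarith)
          have h3 : 0 ≤ Real.log (4 * (N : ℝ) + 1) := Real.log_nonneg (by linarith)
          rw [hℓ]; linarith
        have e2 : (L : ℝ) ≤ 4 * N / U := by
          rw [le_div_iff₀ (by linarith)]
          calc (L : ℝ) * U ≤ L * (2 * M) := mul_le_mul_of_nonneg_left hUMr (by linarith)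
            _ = 2 * (M * L) := by ring
            _ ≤ 2 * (2 * N) := by linarith
            _ = _ := by ring
        have e3 : (M : ℝ) ≤ 2 * Real.sqrt N := by
          have e4 : (M : ℝ) ^ 2 ≤ (2 * Real.sqrt N) ^ 2 := by
            rw [mul_pow, Real.sq_sqrt (by linarith)]
            nlinarith
          exact (pow_le_pow_iff_left₀ (by linarith) (by positivity) (by norm_num)).1 e4
        apply mul_le_mul e1 _ (by positivity) (by positivity)
        apply mul_le_mul_of_nonneg_left _ (by positivity)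
        apply Real.sqrt_le_sqrt
        rw [hQ₀]
        apply mul_le_mul_of_nonneg_left _ hC0.le
        apply mul_le_mul_of_nonneg_left _ (by positivity)
        apply mul_le_mul_of_nonneg_left _ (by positivity)
        have e5 : (K : ℝ) * M ≤ K * (2 * Real.sqrt N) := mul_le_mul_of_nonneg_left e3 (by linarith)
        linarith
      rcases le_total (2 ^ i) (2 ^ j) with hij | hij
      · have h2 := bil_cut h0 h1 lam hlam N N' K (2 ^ i) (2 ^ j) hK hKN hM1 hL1 hNl k1 k2 a b A B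
          (fun m hm => by rw [mem_Ioc] at hm; exact hA m (by omega) (by omega))
          (fun l hl => by rw [mem_Ioc] at hl; exact hB l (by omega) (by omega)) hA0 hB0
        refine le_trans (le_of_eq ?_) (h2.trans (hcomp (2 ^ i) (2 ^ j) hM1 hij k2 k5 k4))
        simp only [hF]
      · have h2 := bil_cut h0 h1 lam hlam N N' K (2 ^ j) (2 ^ i) hK hKN hL1 hM1 hNl (by rw [mul_comm (2 ^ j)]; exact k1)
          (by rw [mul_comm (2 ^ j)]; exact k2) b a B A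
          (fun m hm => by rw [mem_Ioc] at hm; exact hB m (by omega) (by omega))
          (fun l hl => by rw [mem_Ioc] at hl; exact hA l (by omega) (by omega)) hB0 hA0
        have h3 := hcomp (2 ^ j) (2 ^ i) hL1 hij (by rw [mul_comm (2 ^ j)]; exact k2) k6 k3
        rw [mul_comm B A] at h2
        refine le_trans (le_of_eq ?_) (h2.trans h3)
        apply sum_congr rfl; intro h _
        congr 1
        rw [sum_comm]
        apply sum_congr rfl; intro l _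
        apply sum_congr rfl; intro m _
        simp only [hF]
        rw [mul_comm (b l), mul_comm l m]
  calc ∑ h ∈ Ico K (2 * K), ‖∑ m ∈ Icc 1 N', ∑ l ∈ Ioc (N / m) (N' / m), a m * b l * e (lam * h * ((m * l : ℕ) : ℝ) ^ α)‖
      = ∑ h ∈ Ico K (2 * K), ‖∑ i ∈ range I, ∑ j ∈ range I, ∑ m ∈ Ioc (2 ^ i) (2 * 2 ^ i), ∑ l ∈ Ioc (2 ^ j) (2 * 2 ^ j), F h m l‖ := by
        apply sum_congr rfl; intro h _; rw [htot h]
    _ ≤ ∑ h ∈ Ico K (2 * K), ∑ i ∈ range I, ∑ j ∈ range I, ‖∑ m ∈ Ioc (2 ^ i) (2 * 2 ^ i), ∑ l ∈ Ioc (2 ^ j) (2 * 2 ^ j), F h m l‖ := by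
        apply sum_le_sum; intro h _
        refine (norm_sum_le _ _).trans (sum_le_sum fun i _ => norm_sum_le _ _)
    _ = ∑ i ∈ range I, ∑ j ∈ range I, ∑ h ∈ Ico K (2 * K), ‖∑ m ∈ Ioc (2 ^ i) (2 * 2 ^ i), ∑ l ∈ Ioc (2 ^ j) (2 * 2 ^ j), F h m l‖ := by
        rw [sum_comm]
        apply sum_congr rfl; intro i _
        rw [sum_comm]
    _ ≤ ∑ i ∈ range I, ∑ j ∈ range I, 3 * ℓ * (A * B * Real.sqrt Q₀) := sum_le_sum fun i _ => sum_le_sum fun j _ => hpiece i j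
    _ = _ := by
        simp only [sum_const, card_range, nsmul_eq_mul]
        rw [hI]; push_cast; ring

end Pool.Agent.H373R2.T4
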