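import Mathlib
import Pool.Agent.H373R2.T3.ExpP
import Pool.Agent.H373R2.T4.Total
import Pool.Agent.H373R2.T4.DivB

namespace Pool.Agent.H373R2.T4
open Finset
open Pool.Agent.H469R2.NK (e norm_e e_add conj_e e_zero)
open Pool.Agent.Helper112 (betaV LamII)
open Pool.Agent.Helper112.TI (mu1 l1 mu1_apply l1_apply)
open Pool.Agent.Helper112.TII (betaV_abs betaV_zero)
open Pool.Agent.H373R2.T3 (inner_I abel_Ioc conv_abs_le conv_zero vaughan_sum ev_log)

/-- the type I sums of Vaughan's identity -/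
lemma typeI_parts {α : ℝ} (h0 : 0 < α) (h1 : α < 1) (κ : ℝ) (hκ0 : 0 < κ) (N N' U : ℕ) (hN : 1 ≤ N) (hNN' : N ≤ N') (hN' : N' ≤ 2 * N)
    (hUone : 1 ≤ U) (hUN : U ≤ N) (hUX : 4 * κ * U ≤ (N : ℝ) ^ (1 - α)) (Lg : ℝ) (hLg : Lg = 1 + Real.log (4 * N)) :
    ‖∑ m ∈ Icc 1 N', ((mu1 U m : ℝ) : ℂ) * ∑ l ∈ Ioc (N / m) (N' / m), ((Real.log l : ℝ) : ℂ) * e (κ * ((m * l : ℕ) : ℝ) ^ α)‖ ≤
      2 * Lg * (40 / α * ((N : ℝ) ^ (1 - α) / κ)) * Lg ∧
    ‖∑ m ∈ Icc 1 N', (if m ≤ U then ((((mu1 U * l1 U) m : ℝ)) : ℂ) * ∑ l ∈ Ioc (N / m) (N' / m), e (κ * ((m * l : ℕ) : ℝ) ^ α) else 0)‖ ≤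
      Lg * (40 / α * ((N : ℝ) ^ (1 - α) / κ)) * Lg := by
  have hN1 : (1 : ℝ) ≤ N := by exact_mod_cast hN
  have hN0 : (0 : ℝ) < N := by linarith
  have hlog4N : 0 ≤ Real.log (4 * (N : ℝ)) := Real.log_nonneg (by linarith)
  have hLg1 : 1 ≤ Lg := by linarith
  have hlogle : ∀ t : ℝ, 1 ≤ t → t ≤ 4 * N → Real.log t ≤ Lg := by
    intro t ht ht2
    have := Real.log_le_log (by linarith) ht2
    linarith
  set E : ℕ → ℂ := fun n => e (κ * (n : ℝ) ^ α) with hE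
  have hUpos : (0 : ℝ) < U := by exact_mod_cast hUone
  have hX0 : 0 < (N : ℝ) ^ (1 - α) := Real.rpow_pos_of_pos hN0 _
  set Y₀ : ℝ := 40 / α * ((N : ℝ) ^ (1 - α) / κ) with hY₀
  have hY₀0 : 0 < Y₀ := by positivity
  have hharm : ∑ m ∈ Icc 1 U, (1 : ℝ) / m ≤ Lg := by
    have := Pool.Agent.H316R2.harm_sum_le U
    have h2 : Real.log U ≤ Real.log (4 * N) := by
      apply Real.log_le_log hUpos
      have : (U : ℝ) ≤ N := by exact_mod_cast hUN
      linarith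
    linarith
  constructor
  · have h2 : ∀ m ∈ Icc 1 N', ‖((mu1 U m : ℝ) : ℂ) * ∑ l ∈ Ioc (N / m) (N' / m), ((Real.log l : ℝ) : ℂ) * E (m * l)‖ ≤
        if m ≤ U then 2 * Lg * Y₀ * (1 / m) else 0 := by
      intro m hm
      rw [mem_Icc] at hm
      split_ifs with hmU
      · rw [norm_mul, Complex.norm_real, Real.norm_eq_abs]
        have h3 : |mu1 U m| ≤ 1 := by
          rw [mu1_apply, if_pos hmU]
          exact_mod_cast ArithmeticFunction.abs_moebius_le_one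
        have hmr : (m : ℝ) ≤ U := by exact_mod_cast hmU
        have h4 : ‖∑ l ∈ Ioc (N / m) (N' / m), ((Real.log l : ℝ) : ℂ) * E (m * l)‖ ≤ 2 * Real.log ((N' / m : ℕ) : ℝ) * (Y₀ * (1 / m)) := by
          apply abel_Ioc (N / m) (N' / m) (Nat.div_le_div_right hNN') (fun l : ℕ => Real.log l) (fun l => E (m * l))
          · intro a b hab
            simp only
            rcases Nat.eq_zero_or_pos a with h | h
            · rw [h, Nat.cast_zero, Real.log_zero]; exact Real.log_natCast_nonneg _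
            · exact Real.log_le_log (by exact_mod_cast h) (by exact_mod_cast hab)
          · intro n; exact Real.log_natCast_nonneg _
          · intro b' hb'
            have := inner_I h0 h1 κ hκ0 N N' m hm.1 (by omega) hN' (le_trans (by
              apply mul_le_mul_of_nonneg_left hmr (by positivity)) hUX) b' hb'
            exact this
        have h5 : Real.log ((N' / m : ℕ) : ℝ) ≤ Lg := by
          have h6 : 1 ≤ N' / m := Nat.div_pos hm.2 hm.1
          apply hlogle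
          · exact_mod_cast h6
          · have : N' / m ≤ N' := Nat.div_le_self _ _
            exact_mod_cast (by omega : N' / m ≤ 4 * N)
        calc |mu1 U m| * ‖∑ l ∈ Ioc (N / m) (N' / m), ((Real.log l : ℝ) : ℂ) * E (m * l)‖ ≤
              1 * (2 * Real.log ((N' / m : ℕ) : ℝ) * (Y₀ * (1 / m))) := mul_le_mul h3 h4 (norm_nonneg _) (by norm_num)
          _ ≤ 1 * (2 * Lg * (Y₀ * (1 / m))) := by gcongr
          _ = _ := by ring
      · rw [mu1_apply, if_neg hmU]; simp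
    refine (norm_sum_le _ _).trans ((sum_le_sum h2).trans ?_)
    rw [← sum_filter]
    have h3 : (Icc 1 N').filter (fun m => m ≤ U) ⊆ Icc 1 U := by
      intro m hm; rw [mem_filter, mem_Icc] at hm; rw [mem_Icc]; omega
    calc ∑ m ∈ (Icc 1 N').filter (fun m => m ≤ U), 2 * Lg * Y₀ * (1 / (m : ℝ)) ≤ ∑ m ∈ Icc 1 U, 2 * Lg * Y₀ * (1 / (m : ℝ)) := by
          apply sum_le_sum_of_subset_of_nonneg h3
          intro m _ _; positivity
      _ = 2 * Lg * Y₀ * ∑ m ∈ Icc 1 U, (1 / (m : ℝ)) := by rw [mul_sum]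
      _ ≤ _ := mul_le_mul_of_nonneg_left hharm (by positivity)
  · set cc : ℕ → ℝ := fun m => (mu1 U * l1 U) m with hcc
    have h2 : ∀ m ∈ Icc 1 N', ‖(if m ≤ U then ((cc m : ℝ) : ℂ) * ∑ l ∈ Ioc (N / m) (N' / m), E (m * l) else 0)‖ ≤
        if m ≤ U then Lg * Y₀ * (1 / m) else 0 := by
      intro m hm
      rw [mem_Icc] at hm
      split_ifs with hmU
      · rw [norm_mul, Complex.norm_real, Real.norm_eq_abs]
        have hmr : (m : ℝ) ≤ U := by exact_mod_cast hmU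
        have h3 : |cc m| ≤ Lg := (conv_abs_le U U m hm.1).trans (hlogle _ (by exact_mod_cast hm.1) (by
          exact_mod_cast (by omega : m ≤ 4 * N)))
        have h4 := inner_I h0 h1 κ hκ0 N N' m hm.1 (by omega) hN' (le_trans (by
            apply mul_le_mul_of_nonneg_left hmr (by positivity)) hUX) (N' / m) le_rfl
        calc |cc m| * ‖∑ l ∈ Ioc (N / m) (N' / m), E (m * l)‖ ≤ Lg * (Y₀ * (1 / m)) := mul_le_mul h3 h4 (norm_nonneg _) (by linarith)
          _ = _ := by ring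
      · rw [norm_zero]
    refine (norm_sum_le _ _).trans ((sum_le_sum h2).trans ?_)
    rw [← sum_filter]
    have h3 : (Icc 1 N').filter (fun m => m ≤ U) ⊆ Icc 1 U := by
      intro m hm; rw [mem_filter, mem_Icc] at hm; rw [mem_Icc]; omega
    calc ∑ m ∈ (Icc 1 N').filter (fun m => m ≤ U), Lg * Y₀ * (1 / (m : ℝ)) ≤ ∑ m ∈ Icc 1 U, Lg * Y₀ * (1 / (m : ℝ)) := by
          apply sum_le_sum_of_subset_of_nonneg h3
          intro m _ _; positivity
      _ = Lg * Y₀ * ∑ m ∈ Icc 1 U, (1 / (m : ℝ)) := by rw [mul_sum]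
      _ ≤ _ := mul_le_mul_of_nonneg_left hharm (by positivity)

/-- exponential sums over primes, on average over the frequencies -/
theorem exp_avg {α : ℝ} (h0 : 0 < α) (h1 : α < 1) (lam : ℝ) (hlam : 0 < lam) (ν : ℝ) (hν0 : 0 < ν) (hν1 : 4 * ν < 1)
    (hν2 : 2 * ν < 1 - α) (hν3 : ν < α) : ∃ δ : ℝ, 0 < δ ∧ ∃ N₀ : ℕ, ∀ N : ℕ, N₀ ≤ N → ∀ N' : ℕ, N ≤ N' → N' ≤ 2 * N →
    ∀ K : ℕ, 1 ≤ K → (K : ℝ) ≤ (N : ℝ) ^ ν →
    ∑ h ∈ Ico K (2 * K), ‖∑ n ∈ Ioc N N', ((ArithmeticFunction.vonMangoldt n : ℝ) : ℂ) * e (lam * h * (n : ℝ) ^ α)‖ ≤ (N : ℝ) ^ (1 - δ) := by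
  set δ : ℝ := min (min ((1 - α - 2 * ν) / 12) ((α - ν) / 12)) ((1 - 4 * ν) / 40) with hδ
  have hδ0 : 0 < δ := by
    apply lt_min (lt_min _ _) _ <;> · apply div_pos <;> linarith
  have hδ1 : 12 * δ ≤ 1 - α - 2 * ν := by
    have : δ ≤ (1 - α - 2 * ν) / 12 := (min_le_left _ _).trans (min_le_left _ _)
    linarith
  have hδ2 : 12 * δ ≤ α - ν := by
    have : δ ≤ (α - ν) / 12 := (min_le_left _ _).trans (min_le_right _ _)
    linarith
  have hδ3 : 40 * δ ≤ 1 - 4 * ν := by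
    have : δ ≤ (1 - 4 * ν) / 40 := min_le_right _ _
    linarith
  refine ⟨δ, hδ0, ?_⟩
  obtain ⟨Ct, hCt1, hdiv⟩ := DivB.div_bound hδ0
  set C : ℝ := 50 * (9 + 288 / (α * lam)) * (260 * lam + 32 / α) with hC
  have hC0 : 0 < C := by positivity
  set K₀ : ℝ := 1536 * Ct * Real.sqrt C + 384 * Real.sqrt C + 480 / (α * lam) + 16 * lam + 100 with hK₀
  have hsC : 0 ≤ Real.sqrt C := Real.sqrt_nonneg _
  have hK₀0 : 0 < K₀ := by positivity
  obtain ⟨N₁, hN₁⟩ := ev_log K₀ δ hδ0 6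
  have hl : Filter.Tendsto (fun N : ℕ => (N : ℝ)) Filter.atTop Filter.atTop := tendsto_natCast_atTop_atTop
  have hα' : Filter.Tendsto (fun N : ℕ => (N : ℝ) ^ α) Filter.atTop Filter.atTop :=
    (tendsto_rpow_atTop h0).comp hl
  obtain ⟨N₂, hN₂⟩ := Filter.eventually_atTop.1 (hα'.eventually_ge_atTop (1 / lam))
  refine ⟨N₁ + N₂ + 12, ?_⟩
  intro N hN N' hNN' hN' K hK hKν
  have hN1 : (12 : ℝ) ≤ N := by exact_mod_cast (by omega : 12 ≤ N)
  have hN0 : (0 : ℝ) < N := by linarith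
  have hN1' : (1 : ℝ) ≤ N := by linarith
  have hK0 : (1 : ℝ) ≤ K := by exact_mod_cast hK
  have hNl : 1 ≤ lam * (N : ℝ) ^ α := by
    have := hN₂ N (by omega)
    rw [div_le_iff₀ hlam] at this
    linarith
  set P : ℝ := (N : ℝ) ^ δ with hP
  have hP0 : 0 < P := Real.rpow_pos_of_pos hN0 _
  have hPinv : (N : ℝ) ^ (1 - δ) = N / P := by rw [hP, Real.rpow_sub hN0, Real.rpow_one]
  have hPpow : ∀ k : ℕ, P ^ k = (N : ℝ) ^ (k * δ) := by
    intro k
    rw [hP, ← Real.rpow_natCast, ← Real.rpow_mul hN0.le]; congr 1; ring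
  set Lg : ℝ := 1 + Real.log (4 * N) with hLg
  have hlog4N : 0 ≤ Real.log (4 * (N : ℝ)) := Real.log_nonneg (by linarith)
  have hLg1 : 1 ≤ Lg := by linarith
  have hLgP : K₀ * Lg ^ 6 ≤ P := hN₁ N (by omega)
  have hLg6 : 1 ≤ Lg ^ 6 := one_le_pow₀ hLg1
  have hK₀P : K₀ ≤ P := by nlinarith
  have hP100 : 100 ≤ P := by
    have : 100 ≤ K₀ := by
      have e1 : 0 ≤ 1536 * Ct * Real.sqrt C + 384 * Real.sqrt C + 480 / (α * lam) + 16 * lam := by positivity
      linarith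
    linarith
  have hP1 : 1 ≤ P := by linarith
  have hlogle : ∀ t : ℝ, 1 ≤ t → t ≤ 4 * N → Real.log t ≤ Lg := by
    intro t ht ht2
    have := Real.log_le_log (by linarith) ht2
    linarith
  rw [hPinv]
  -- the parameter U
  set U : ℕ := ⌈K * P ^ 9⌉₊ with hU
  have hU1 : K * P ^ 9 ≤ U := Nat.le_ceil _
  have hP9 : 1 ≤ P ^ 9 := one_le_pow₀ hP1
  have hKP9 : 1 ≤ K * P ^ 9 := by nlinarith
  have hU2 : (U : ℝ) ≤ 2 * (K * P ^ 9) := by
    have := (Nat.ceil_lt_add_one (show 0 ≤ K * P ^ 9 by positivity)).le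
    rw [← hU] at this
    linarith
  have hUpos : (1 : ℝ) ≤ U := by linarith
  have hUone : 1 ≤ U := by exact_mod_cast hUpos
  -- powers of N
  have hKνN : (K : ℝ) ≤ (N : ℝ) ^ ν := hKν
  have hU3 : (U : ℝ) * U * U ≤ N := by
    calc (U : ℝ) * U * U ≤ (2 * (K * P ^ 9)) * (2 * (K * P ^ 9)) * (2 * (K * P ^ 9)) := by gcongr
      _ = 8 * (K ^ 3 * P ^ 27) := by ring
      _ ≤ P * (K ^ 3 * P ^ 27) := mul_le_mul_of_nonneg_right (by linarith) (by positivity)
      _ = K ^ 3 * P ^ 28 := by ring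
      _ ≤ ((N : ℝ) ^ ν) ^ 3 * P ^ 28 := by gcongr
      _ = (N : ℝ) ^ (3 * ν + 28 * δ) := by
          rw [hPpow, ← Real.rpow_natCast, ← Real.rpow_mul hN0.le, ← Real.rpow_add hN0]; congr 1; push_cast; ring
      _ ≤ (N : ℝ) ^ (1 : ℝ) := Real.rpow_le_rpow_of_exponent_le hN1' (by linarith)
      _ = N := Real.rpow_one _
  have hUN : U ≤ N := by
    have : (U : ℝ) ≤ N := by
      refine le_trans ?_ hU3
      have : (1 : ℝ) ≤ U * U := by nlinarith
      nlinarith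
    exact_mod_cast this
  have hKN : K ≤ N := by
    have : (K : ℝ) ≤ N := by
      refine hKν.trans ?_
      calc (N : ℝ) ^ ν ≤ (N : ℝ) ^ (1 : ℝ) := Real.rpow_le_rpow_of_exponent_le hN1' (by linarith)
        _ = N := Real.rpow_one _
    exact_mod_cast this
  set X : ℝ := (N : ℝ) ^ (1 - α) with hX
  have hX0 : 0 < X := Real.rpow_pos_of_pos hN0 _
  have hUX : ∀ h ∈ Ico K (2 * K), 4 * (lam * h) * U ≤ X := by
    intro h hh
    rw [mem_Ico] at hh
    have hh2 : (h : ℝ) ≤ 2 * K := by exact_mod_cast hh.2.le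
    calc 4 * (lam * h) * U ≤ 4 * (lam * (2 * K)) * (2 * (K * P ^ 9)) := by gcongr
      _ = (16 * lam) * (K ^ 2 * P ^ 9) := by ring
      _ ≤ P * (K ^ 2 * P ^ 9) := by
          apply mul_le_mul_of_nonneg_right _ (by positivity)
          have e1 : 0 ≤ 1536 * Ct * Real.sqrt C + 384 * Real.sqrt C + 480 / (α * lam) := by positivity
          linarith
      _ = K ^ 2 * P ^ 10 := by ring
      _ ≤ ((N : ℝ) ^ ν) ^ 2 * P ^ 10 := by gcongr
      _ = (N : ℝ) ^ (2 * ν + 10 * δ) := by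
          rw [hPpow, ← Real.rpow_natCast, ← Real.rpow_mul hN0.le, ← Real.rpow_add hN0]; congr 1; push_cast; ring
      _ ≤ X := Real.rpow_le_rpow_of_exponent_le hN1' (by linarith)
  have hXP : X ≤ N / P ^ 12 := by
    rw [le_div_iff₀ (by positivity), hPpow, hX, ← Real.rpow_add hN0]
    calc (N : ℝ) ^ (1 - α + ((12 : ℕ) : ℝ) * δ) ≤ (N : ℝ) ^ (1 : ℝ) := Real.rpow_le_rpow_of_exponent_le hN1' (by push_cast; linarith)
      _ = N := Real.rpow_one _
  -- the quantity under the root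
  set Q : ℝ := (K * N) * (K * (N : ℝ) ^ α + 4 * N / U + K * (2 * Real.sqrt N) + 2 * (N : ℝ) ^ (1 - α)) with hQ
  have hNα : 0 < (N : ℝ) ^ α := Real.rpow_pos_of_pos hN0 _
  have hQle : Q ≤ (N / P ^ 4) ^ 2 := by
    have hbase : ∀ s : ℝ, s + 12 * δ ≤ 2 → (N : ℝ) ^ s ≤ N ^ 2 / P ^ 12 := by
      intro s hs
      rw [le_div_iff₀ (by positivity), hPpow, ← Real.rpow_add hN0, ← Real.rpow_natCast (N : ℝ) 2]
      apply Real.rpow_le_rpow_of_exponent_le hN1'
      push_cast; linarith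
    have q1 : (K : ℝ) * N * (K * (N : ℝ) ^ α) ≤ N ^ 2 / P ^ 12 := by
      calc (K : ℝ) * N * (K * (N : ℝ) ^ α) ≤ (N : ℝ) ^ ν * N * ((N : ℝ) ^ ν * (N : ℝ) ^ α) := by gcongr
        _ = (N : ℝ) ^ (2 * ν + 1 + α) := by
            nth_rewrite 2 [← Real.rpow_one (N : ℝ)]
            rw [← Real.rpow_add hN0, ← Real.rpow_add hN0, ← Real.rpow_add hN0]; congr 1; ring
        _ ≤ _ := hbase _ (by linarith)
    have q2 : (K : ℝ) * N * (4 * N / U) ≤ 4 * (N ^ 2 / P ^ 9) := by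
      calc (K : ℝ) * N * (4 * N / U) = 4 * (N ^ 2 * (K / U)) := by ring
        _ ≤ 4 * (N ^ 2 * (1 / P ^ 9)) := by
            apply mul_le_mul_of_nonneg_left _ (by norm_num)
            apply mul_le_mul_of_nonneg_left _ (by positivity)
            rw [div_le_div_iff₀ (by linarith) (by positivity), one_mul]
            exact hU1
        _ = _ := by ring
    have q3 : (K : ℝ) * N * (K * (2 * Real.sqrt N)) ≤ 2 * (N ^ 2 / P ^ 12) := by
      have e1 : Real.sqrt N = (N : ℝ) ^ (1 / 2 : ℝ) := Real.sqrt_eq_rpow _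
      rw [e1]
      calc (K : ℝ) * N * (K * (2 * (N : ℝ) ^ (1 / 2 : ℝ))) ≤ (N : ℝ) ^ ν * N * ((N : ℝ) ^ ν * (2 * (N : ℝ) ^ (1 / 2 : ℝ))) := by gcongr
        _ = 2 * (N : ℝ) ^ (2 * ν + 3 / 2) := by
            have : (N : ℝ) ^ (2 * ν + 3 / 2) = (N : ℝ) ^ ν * N * ((N : ℝ) ^ ν * (N : ℝ) ^ (1 / 2 : ℝ)) := by
              nth_rewrite 3 [← Real.rpow_one (N : ℝ)]
              rw [← Real.rpow_add hN0, ← Real.rpow_add hN0, ← Real.rpow_add hN0]; congr 1; ring
            rw [this]; ring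
        _ ≤ _ := mul_le_mul_of_nonneg_left (hbase _ (by linarith)) (by norm_num)
    have q4 : (K : ℝ) * N * (2 * (N : ℝ) ^ (1 - α)) ≤ 2 * (N ^ 2 / P ^ 12) := by
      calc (K : ℝ) * N * (2 * (N : ℝ) ^ (1 - α)) ≤ (N : ℝ) ^ ν * N * (2 * (N : ℝ) ^ (1 - α)) := by gcongr
        _ = 2 * (N : ℝ) ^ (ν + 1 + (1 - α)) := by
            have : (N : ℝ) ^ (ν + 1 + (1 - α)) = (N : ℝ) ^ ν * N * (N : ℝ) ^ (1 - α) := by
              rw [Real.rpow_add hN0, Real.rpow_add hN0, Real.rpow_one]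
            rw [this]; ring
        _ ≤ _ := mul_le_mul_of_nonneg_left (hbase _ (by linarith)) (by norm_num)
    have q5 : (N : ℝ) ^ 2 / P ^ 12 ≤ N ^ 2 / P ^ 9 := by
      apply div_le_div_of_nonneg_left (by positivity) (by positivity)
      exact pow_le_pow_right₀ hP1 (by norm_num)
    have q6 : 9 * ((N : ℝ) ^ 2 / P ^ 9) ≤ (N / P ^ 4) ^ 2 := by
      calc 9 * ((N : ℝ) ^ 2 / P ^ 9) ≤ P * ((N : ℝ) ^ 2 / P ^ 9) := mul_le_mul_of_nonneg_right (by linarith) (by positivity)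
        _ = _ := by field_simp
    calc Q = (K : ℝ) * N * (K * (N : ℝ) ^ α) + (K : ℝ) * N * (4 * N / U) + (K : ℝ) * N * (K * (2 * Real.sqrt N)) +
          (K : ℝ) * N * (2 * (N : ℝ) ^ (1 - α)) := by rw [hQ]; ring
      _ ≤ 9 * ((N : ℝ) ^ 2 / P ^ 9) := by linarith
      _ ≤ _ := q6
  have hQ0 : 0 ≤ Q := by rw [hQ]; have := Real.sqrt_nonneg (N : ℝ); positivity
  set ℓ : ℝ := 1 + Real.log (4 * N + 1) with hℓ
  have hℓLg : ℓ ≤ 2 * Lg := by
    have h2 : Real.log (4 * (N : ℝ) + 1) ≤ Real.log (4 * N * Real.exp 1) := by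
      apply Real.log_le_log (by positivity)
      have := Real.add_one_le_exp (1 : ℝ)
      nlinarith
    rw [Real.log_mul (by positivity) (Real.exp_pos 1).ne', Real.log_exp] at h2
    rw [hℓ, hLg]; linarith
  have hℓ1 : 1 ≤ ℓ := by
    have := Real.log_nonneg (show (1 : ℝ) ≤ 4 * N + 1 by linarith)
    rw [hℓ]; linarith
  have hroot : Real.sqrt (C * (ℓ ^ 3 * Q)) ≤ Real.sqrt C * (2 * Lg) ^ 2 * (N / P ^ 4) := by
    have h2 : C * (ℓ ^ 3 * Q) ≤ (Real.sqrt C * (2 * Lg) ^ 2 * (N / P ^ 4)) ^ 2 := by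
      have h3 : ℓ ^ 3 ≤ (2 * Lg) ^ 4 := by
        calc ℓ ^ 3 ≤ (2 * Lg) ^ 3 := pow_le_pow_left₀ (by linarith) hℓLg 3
          _ ≤ (2 * Lg) ^ 4 := pow_le_pow_right₀ (by linarith) (by norm_num)
      calc C * (ℓ ^ 3 * Q) ≤ C * ((2 * Lg) ^ 4 * (N / P ^ 4) ^ 2) := by
            apply mul_le_mul_of_nonneg_left _ hC0.le
            exact mul_le_mul h3 hQle hQ0 (by positivity)
        _ = (Real.sqrt C) ^ 2 * ((2 * Lg) ^ 4 * (N / P ^ 4) ^ 2) := by rw [Real.sq_sqrt hC0.le]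
        _ = _ := by ring
    exact (Real.sqrt_le_sqrt h2).trans (le_of_eq (Real.sqrt_sq (by positivity)))
  have hlog2 : (Nat.log 2 N' + 1 : ℝ) ≤ 2 * Lg := by
    have hN'1 : 1 ≤ N' := by omega
    have hN'r : (N' : ℝ) ≤ 2 * N := by exact_mod_cast hN'
    have h2 : (Nat.log 2 N' : ℝ) * Real.log 2 ≤ Real.log N' := by
      have h3 : (2 : ℝ) ^ Nat.log 2 N' ≤ N' := by exact_mod_cast Nat.pow_log_le_self 2 (by omega)
      have h4 := Real.log_le_log (by positivity) h3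
      rwa [Real.log_pow] at h4
    have h3 : Real.log N' ≤ Real.log (4 * N) := Real.log_le_log (by exact_mod_cast hN'1) (by linarith)
    have h4 := Real.log_two_gt_d9
    have h5 : (0 : ℝ) ≤ Nat.log 2 N' := Nat.cast_nonneg _
    nlinarith
  have hlogsq : (Nat.log 2 N' + 1 : ℝ) ^ 2 ≤ (2 * Lg) ^ 2 := pow_le_pow_left₀ (by positivity) hlog2 2
  have hbil : ∀ A B : ℝ, 0 ≤ A → 0 ≤ B → (Nat.log 2 N' + 1 : ℝ) ^ 2 * ((3 * ℓ) * (A * B * Real.sqrt (C * (ℓ ^ 3 * Q)))) ≤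
      96 * Real.sqrt C * (A * B) * Lg ^ 5 * (N / P ^ 4) := by
    intro A B hA hB
    calc (Nat.log 2 N' + 1 : ℝ) ^ 2 * ((3 * ℓ) * (A * B * Real.sqrt (C * (ℓ ^ 3 * Q)))) ≤
          (2 * Lg) ^ 2 * ((3 * (2 * Lg)) * (A * B * (Real.sqrt C * (2 * Lg) ^ 2 * (N / P ^ 4)))) := by gcongr
      _ = _ := by ring
  -- Vaughan's identity
  set E : ℕ → ℕ → ℂ := fun h n => e (lam * h * (n : ℝ) ^ α) with hE
  set cc : ℕ → ℝ := fun m => (mu1 U * l1 U) m with hcc
  set S1 : ℕ → ℂ := fun h => ∑ m ∈ Icc 1 N', ∑ l ∈ Ioc (N / m) (N' / m), ((betaV U m : ℝ) : ℂ) *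
      (((if U < l then ArithmeticFunction.vonMangoldt l else 0 : ℝ)) : ℂ) * E h (m * l) with hS1
  set S2 : ℕ → ℂ := fun h => ∑ m ∈ Icc 1 N', ((mu1 U m : ℝ) : ℂ) * ∑ l ∈ Ioc (N / m) (N' / m), ((Real.log l : ℝ) : ℂ) * E h (m * l) with hS2
  set S3 : ℕ → ℂ := fun h => ∑ m ∈ Icc 1 N', (if m ≤ U then ((cc m : ℝ) : ℂ) * ∑ l ∈ Ioc (N / m) (N' / m), E h (m * l) else 0) with hS3
  set S4 : ℕ → ℂ := fun h => ∑ m ∈ Icc 1 N', ∑ l ∈ Ioc (N / m) (N' / m), (if U < m then ((cc m : ℝ) : ℂ) else 0) * 1 * E h (m * l) with hS4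
  have hV : ∀ h : ℕ, ‖∑ n ∈ Ioc N N', ((ArithmeticFunction.vonMangoldt n : ℝ) : ℂ) * e (lam * h * (n : ℝ) ^ α)‖ ≤
      ‖S1 h‖ + ‖S2 h‖ + (‖S3 h‖ + ‖S4 h‖) := by
    intro h
    have e1 := vaughan_sum U U N N' hUN (E h)
    have hsplit : ∑ m ∈ Icc 1 N', ((cc m : ℝ) : ℂ) * ∑ l ∈ Ioc (N / m) (N' / m), E h (m * l) = S3 h + S4 h := by
      simp only [hS3, hS4]
      rw [← sum_add_distrib]
      apply sum_congr rfl; intro m _
      by_cases h' : m ≤ U
      · rw [if_pos h', if_neg (by omega)]; simp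
      · rw [if_neg h', if_pos (by omega), zero_add, mul_sum]
        apply sum_congr rfl; intro l _; ring
    have e2 : ∑ n ∈ Ioc N N', ((ArithmeticFunction.vonMangoldt n : ℝ) : ℂ) * e (lam * h * (n : ℝ) ^ α) = S1 h + S2 h - (S3 h + S4 h) := by
      rw [← hsplit]; exact e1
    rw [e2]
    refine (norm_sub_le _ _).trans ?_
    exact add_le_add (norm_add_le _ _) (norm_add_le _ _)
  have hinvsum : ∑ h ∈ Ico K (2 * K), 1 / (h : ℝ) ≤ 1 := by
    calc ∑ h ∈ Ico K (2 * K), 1 / (h : ℝ) ≤ ∑ _h ∈ Ico K (2 * K), 1 / (K : ℝ) := by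
          apply sum_le_sum; intro h hh
          rw [mem_Ico] at hh
          exact one_div_le_one_div_of_le (by linarith) (by exact_mod_cast hh.1)
      _ = 1 := by
          rw [sum_const, Nat.card_Ico, nsmul_eq_mul, show 2 * K - K = K by omega]
          have : (K : ℝ) ≠ 0 := by linarith
          field_simp
  have hb1 : ∑ h ∈ Ico K (2 * K), ‖S1 h‖ ≤ 384 * Ct * Real.sqrt C * Lg ^ 6 * (N / P ^ 3) := by
    have h2 := bil_total2 h0 h1 lam hlam N N' K U (by omega) hN' hK hKN hUone hNl (fun m => ((betaV U m : ℝ) : ℂ))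
      (fun l => (((if U < l then ArithmeticFunction.vonMangoldt l else 0 : ℝ)) : ℂ)) (4 * Ct * P) Lg ?_ ?_ (by positivity) (by linarith) ?_
    · refine h2.trans ((hbil _ _ (by positivity) (by linarith)).trans (le_of_eq ?_))
      field_simp; ring
    · intro m hm hm2
      rw [Complex.norm_real, Real.norm_eq_abs]
      refine (betaV_abs U m).trans ((hdiv m (by omega)).trans ?_)
      calc Ct * (m : ℝ) ^ δ ≤ Ct * (4 * N : ℝ) ^ δ := by
            apply mul_le_mul_of_nonneg_left _ (by linarith)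
            exact Real.rpow_le_rpow (Nat.cast_nonneg _) (by exact_mod_cast hm2) hδ0.le
        _ = Ct * (4 ^ δ * P) := by rw [Real.mul_rpow (by norm_num) hN0.le]
        _ ≤ Ct * (4 * P) := by
            apply mul_le_mul_of_nonneg_left _ (by linarith)
            apply mul_le_mul_of_nonneg_right _ hP0.le
            calc (4 : ℝ) ^ δ ≤ 4 ^ (1 : ℝ) := Real.rpow_le_rpow_of_exponent_le (by norm_num) (by linarith)
              _ = 4 := Real.rpow_one 4
        _ = _ := by ring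
    · intro l hl hl2
      rw [Complex.norm_real, Real.norm_eq_abs]
      split_ifs
      · rw [abs_of_nonneg ArithmeticFunction.vonMangoldt_nonneg]
        refine ArithmeticFunction.vonMangoldt_le_log.trans (hlogle _ ?_ ?_)
        · exact_mod_cast hl
        · exact_mod_cast hl2
      · rw [abs_zero]; linarith
    · intro m l h2 h3 h4 h5
      constructor
      · by_contra h
        exact h4 (by rw [betaV_zero U m (by omega)]; norm_num)
      · by_contra h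
        exact h5 (by rw [if_neg h]; norm_num)
  have hb4 : ∑ h ∈ Ico K (2 * K), ‖S4 h‖ ≤ 96 * Real.sqrt C * Lg ^ 6 * (N / P ^ 4) := by
    have h2 := bil_total2 h0 h1 lam hlam N N' K U (by omega) hN' hK hKN hUone hNl (fun m => if U < m then ((cc m : ℝ) : ℂ) else 0)
      (fun _ => 1) Lg 1 ?_ ?_ (by linarith) (by norm_num) ?_
    · refine h2.trans ((hbil _ _ (by linarith) (by norm_num)).trans (le_of_eq ?_))
      ring
    · intro m hm hm2
      split_ifs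
      · rw [Complex.norm_real, Real.norm_eq_abs]
        exact (conv_abs_le U U m (by omega)).trans (hlogle _ (by exact_mod_cast hm) (by exact_mod_cast hm2))
      · rw [norm_zero]; linarith
    · intro l _ _; simp
    · intro m l h2 h3 h4 _
      have hm : U < m := by
        by_contra h
        exact h4 (by rw [if_neg h])
      refine ⟨hm, ?_⟩
      have hm2 : m ≤ U * U := by
        by_contra h
        apply h4
        rw [if_pos hm]
        have : cc m = 0 := conv_zero U U m (by omega)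
        rw [this]; norm_num
      by_contra h
      have h5 : m * l ≤ U * U * U := Nat.mul_le_mul hm2 (by omega)
      have h6 : U * U * U ≤ N := by exact_mod_cast hU3
      omega
  have htI : ∀ h ∈ Ico K (2 * K), ‖S2 h‖ + ‖S3 h‖ ≤ (120 / (α * lam) * Lg ^ 2 * X) * (1 / h) := by
    intro h hh
    have hux := hUX h hh
    rw [mem_Ico] at hh
    have hh0 : (0 : ℝ) < h := by exact_mod_cast (by omega : 0 < h)
    obtain ⟨t1, t2⟩ := typeI_parts h0 h1 (lam * h) (by positivity) N N' U (by omega) hNN' hN' hUone hUN hux Lg hLg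
    calc ‖S2 h‖ + ‖S3 h‖ ≤ 2 * Lg * (40 / α * ((N : ℝ) ^ (1 - α) / (lam * h))) * Lg + Lg * (40 / α * ((N : ℝ) ^ (1 - α) / (lam * h))) * Lg :=
          add_le_add t1 t2
      _ = _ := by rw [← hX]; field_simp; ring
  have hb23 : ∑ h ∈ Ico K (2 * K), (‖S2 h‖ + ‖S3 h‖) ≤ 120 / (α * lam) * Lg ^ 2 * X := by
    calc _ ≤ ∑ h ∈ Ico K (2 * K), (120 / (α * lam) * Lg ^ 2 * X) * (1 / (h : ℝ)) := sum_le_sum htI
      _ = (120 / (α * lam) * Lg ^ 2 * X) * ∑ h ∈ Ico K (2 * K), 1 / (h : ℝ) := by rw [mul_sum]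
      _ ≤ (120 / (α * lam) * Lg ^ 2 * X) * 1 := mul_le_mul_of_nonneg_left hinvsum (by positivity)
      _ = _ := mul_one _
  -- conclusion
  have hbig : ∀ c : ℝ, 0 ≤ c → 4 * c ≤ K₀ → ∀ k : ℕ, 2 ≤ k → c * Lg ^ 6 * (N / P ^ k) ≤ N / P / 4 := by
    intro c hc hcK k hk
    have h2 : 4 * (c * Lg ^ 6) ≤ P := by
      calc 4 * (c * Lg ^ 6) = (4 * c) * Lg ^ 6 := by ring
        _ ≤ K₀ * Lg ^ 6 := mul_le_mul_of_nonneg_right hcK (by positivity)
        _ ≤ P := hLgP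
    have h3 : (N : ℝ) / P ^ k ≤ N / P ^ 2 := by
      apply div_le_div_of_nonneg_left hN0.le (by positivity)
      exact pow_le_pow_right₀ hP1 hk
    calc c * Lg ^ 6 * (N / P ^ k) ≤ c * Lg ^ 6 * (N / P ^ 2) := mul_le_mul_of_nonneg_left h3 (by positivity)
      _ = (4 * (c * Lg ^ 6)) * (N / P ^ 2) / 4 := by ring
      _ ≤ P * (N / P ^ 2) / 4 := by
          apply div_le_div_of_nonneg_right _ (by norm_num)
          exact mul_le_mul_of_nonneg_right h2 (by positivity)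
      _ = _ := by field_simp
  have hf1 : 384 * Ct * Real.sqrt C * Lg ^ 6 * (N / P ^ 3) ≤ N / P / 4 := by
    apply hbig _ (by positivity) _ 3 (by norm_num)
    have e1 : 0 ≤ 384 * Real.sqrt C + 480 / (α * lam) + 16 * lam + 100 := by positivity
    rw [hK₀]; linarith
  have hf4 : 96 * Real.sqrt C * Lg ^ 6 * (N / P ^ 4) ≤ N / P / 4 := by
    apply hbig _ (by positivity) _ 4 (by norm_num)
    have e1 : 0 ≤ 1536 * Ct * Real.sqrt C + 480 / (α * lam) + 16 * lam + 100 := by positivity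
    rw [hK₀]; linarith
  have hf23 : 120 / (α * lam) * Lg ^ 2 * X ≤ N / P / 4 := by
    have h2 : 120 / (α * lam) * Lg ^ 2 * X ≤ 120 / (α * lam) * Lg ^ 6 * (N / P ^ 12) := by
      apply mul_le_mul _ hXP hX0.le (by positivity)
      apply mul_le_mul_of_nonneg_left _ (by positivity)
      exact pow_le_pow_right₀ hLg1 (by norm_num)
    refine h2.trans (hbig _ (by positivity) ?_ 12 (by norm_num))
    have e1 : 0 ≤ 1536 * Ct * Real.sqrt C + 384 * Real.sqrt C + 16 * lam + 100 := by positivity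
    have e2 : 4 * (120 / (α * lam)) = 480 / (α * lam) := by ring
    rw [hK₀, e2]; linarith
  calc ∑ h ∈ Ico K (2 * K), ‖∑ n ∈ Ioc N N', ((ArithmeticFunction.vonMangoldt n : ℝ) : ℂ) * e (lam * h * (n : ℝ) ^ α)‖
      ≤ ∑ h ∈ Ico K (2 * K), (‖S1 h‖ + ‖S2 h‖ + (‖S3 h‖ + ‖S4 h‖)) := sum_le_sum fun h _ => hV h
    _ = ∑ h ∈ Ico K (2 * K), ‖S1 h‖ + ∑ h ∈ Ico K (2 * K), (‖S2 h‖ + ‖S3 h‖) + ∑ h ∈ Ico K (2 * K), ‖S4 h‖ := by
        rw [← sum_add_distrib, ← sum_add_distrib]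
        apply sum_congr rfl; intro h _; ring
    _ ≤ N / P / 4 + N / P / 4 + N / P / 4 := add_le_add (add_le_add (hb1.trans hf1) (hb23.trans hf23)) (hb4.trans hf4)
    _ ≤ N / P := by
        have : 0 ≤ (N : ℝ) / P := by positivity
        linarith

end Pool.Agent.H373R2.T4
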