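import Mathlib
import Pool.Agent.H373R2.T3.Kernel

namespace Pool.Agent.H373R2.T4
open Finset
open Pool.Agent.H469R2.NK (e norm_e e_add conj_e e_zero)
open Pool.Agent.H373R2.T3

/-- lower bound for the weighted moment of the kernel at one shift -/
lemma shift_lower2 {ι : Type*} (I : Finset ι) (w x : ι → ℝ) (S : ℕ) (a : ℕ → ℝ) (ha : ∀ s, 0 ≤ a s)
    (X' : ℝ) (hX' : ∑ k ∈ Ico 1 S, ‖∑ i ∈ I, ((w i : ℝ) : ℂ) * e (k * x i)‖ ≤ X') (β : ℝ) :
    (∑ s ∈ range S, a s ^ 2) * (∑ i ∈ I, w i - 2 * X') ≤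
      ∑ i ∈ I, w i * ‖∑ s ∈ range S, ((a s : ℝ) : ℂ) * e (s * (x i - β))‖ ^ 2 := by
  have hexp : ∑ i ∈ I, w i * ‖∑ s ∈ range S, ((a s : ℝ) : ℂ) * e (s * (x i - β))‖ ^ 2 =
      ∑ s ∈ range S, ∑ t ∈ range S, a s * a t * (∑ i ∈ I, w i * (e (((s : ℝ) - t) * (x i - β))).re) := by
    calc ∑ i ∈ I, w i * ‖∑ s ∈ range S, ((a s : ℝ) : ℂ) * e (s * (x i - β))‖ ^ 2 =
          ∑ i ∈ I, ∑ s ∈ range S, ∑ t ∈ range S, w i * (a s * a t * (e (((s : ℝ) - t) * (x i - β))).re) := by
          apply sum_congr rfl; intro i _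
          rw [normsq_expand, mul_sum]
          apply sum_congr rfl; intro s _
          rw [mul_sum]
      _ = ∑ s ∈ range S, ∑ t ∈ range S, ∑ i ∈ I, w i * (a s * a t * (e (((s : ℝ) - t) * (x i - β))).re) := by
          rw [sum_comm]
          apply sum_congr rfl; intro s _
          rw [sum_comm]
      _ = _ := by
          apply sum_congr rfl; intro s _
          apply sum_congr rfl; intro t _
          rw [mul_sum]
          apply sum_congr rfl; intro i _; ring
  rw [hexp]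
  set c : ℕ → ℝ := fun k => ‖∑ i ∈ I, ((w i : ℝ) : ℂ) * e (k * x i)‖ with hc
  have hc0 : ∀ k, 0 ≤ c k := fun k => norm_nonneg _
  -- exponential sum for nonzero difference
  have hoff : ∀ s ∈ range S, ∀ t ∈ range S, t ≠ s →
      -(c ((s - t) + (t - s))) ≤ ∑ i ∈ I, w i * (e (((s : ℝ) - t) * (x i - β))).re := by
    intro s hs t ht hst
    rw [mem_range] at hs ht
    have h1 : ∑ i ∈ I, w i * (e (((s : ℝ) - t) * (x i - β))).re =
        (e (-(((s : ℝ) - t) * β)) * ∑ i ∈ I, ((w i : ℝ) : ℂ) * e (((s : ℝ) - t) * x i)).re := by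
      rw [mul_sum, Complex.re_sum]
      apply sum_congr rfl; intro i _
      rw [show ((s : ℝ) - t) * (x i - β) = -(((s : ℝ) - t) * β) + ((s : ℝ) - t) * x i by ring, e_add,
        ← Complex.re_ofReal_mul]
      congr 1; ring
    have h2 : ‖∑ i ∈ I, ((w i : ℝ) : ℂ) * e (((s : ℝ) - t) * x i)‖ ≤ c ((s - t) + (t - s)) := by
      rcases lt_or_gt_of_ne hst with h | h
      · have h3 : (((s - t) + (t - s) : ℕ) : ℝ) = (s : ℝ) - t := by
          rw [Nat.sub_eq_zero_of_le h.le, add_zero, Nat.cast_sub h.le]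
        simp only [hc]
        rw [h3]
      · have h3 : (((s - t) + (t - s) : ℕ) : ℝ) = (t : ℝ) - s := by
          rw [Nat.sub_eq_zero_of_le h.le, zero_add, Nat.cast_sub h.le]
        simp only [hc]
        rw [h3]
        have h6 : ∑ i ∈ I, ((w i : ℝ) : ℂ) * e (((s : ℝ) - t) * x i) =
            (starRingEnd ℂ) (∑ i ∈ I, ((w i : ℝ) : ℂ) * e (((t : ℝ) - s) * x i)) := by
          rw [map_sum]
          apply sum_congr rfl; intro i _
          rw [map_mul, Complex.conj_ofReal, conj_e]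
          congr 2; ring
        rw [h6, Complex.norm_conj]
    rw [h1]
    have h3 := Complex.abs_re_le_norm (e (-(((s : ℝ) - t) * β)) * ∑ i ∈ I, ((w i : ℝ) : ℂ) * e (((s : ℝ) - t) * x i))
    rw [norm_mul, norm_e, one_mul] at h3
    have h4 := (abs_le.1 (h3.trans h2)).1
    exact h4
  -- split diagonal and off-diagonal
  have hrow : ∀ s ∈ range S, ∑ t ∈ range S, a s * a t * (∑ i ∈ I, w i * (e (((s : ℝ) - t) * (x i - β))).re) ≥
      a s ^ 2 * (∑ i ∈ I, w i) - ∑ t ∈ (range S).filter (fun t => t ≠ s), (a s ^ 2 + a t ^ 2) / 2 * (c ((s - t) + (t - s))) := by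
    intro s hs
    have h1 : ∑ t ∈ range S, a s * a t * (∑ i ∈ I, w i * (e (((s : ℝ) - t) * (x i - β))).re) =
        ∑ t ∈ (range S).filter (fun t => t ≠ s), a s * a t * (∑ i ∈ I, w i * (e (((s : ℝ) - t) * (x i - β))).re) +
        ∑ t ∈ (range S).filter (fun t => ¬ (t ≠ s)), a s * a t * (∑ i ∈ I, w i * (e (((s : ℝ) - t) * (x i - β))).re) := by
      rw [sum_filter_add_sum_filter_not]
    have h2 : (range S).filter (fun t => ¬ (t ≠ s)) = {s} := by
      ext t; rw [mem_filter, mem_singleton]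
      constructor
      · intro h; by_contra h3; exact h.2 h3
      · intro h; rw [h]; exact ⟨hs, fun h => h rfl⟩
    rw [h1, h2, sum_singleton]
    have h3 : a s * a s * (∑ i ∈ I, w i * (e (((s : ℝ) - s) * (x i - β))).re) = a s ^ 2 * ∑ i ∈ I, w i := by
      rw [sq]
      congr 1
      apply sum_congr rfl; intro i _
      rw [sub_self, zero_mul, e_zero, Complex.one_re, mul_one]
    rw [h3]
    have h4 : -∑ t ∈ (range S).filter (fun t => t ≠ s), (a s ^ 2 + a t ^ 2) / 2 * (c ((s - t) + (t - s))) ≤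
        ∑ t ∈ (range S).filter (fun t => t ≠ s), a s * a t * (∑ i ∈ I, w i * (e (((s : ℝ) - t) * (x i - β))).re) := by
      rw [← sum_neg_distrib]
      apply sum_le_sum; intro t ht
      rw [mem_filter] at ht
      have h5 := hoff s hs t ht.1 ht.2
      have h6 : 0 ≤ a s * a t := mul_nonneg (ha s) (ha t)
      have h7 : a s * a t ≤ (a s ^ 2 + a t ^ 2) / 2 := by nlinarith [sq_nonneg (a s - a t)]
      have h8 : 0 ≤ c ((s - t) + (t - s)) := hc0 _
      calc -((a s ^ 2 + a t ^ 2) / 2 * (c ((s - t) + (t - s)))) ≤ -(a s * a t * (c ((s - t) + (t - s)))) := by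
            have := mul_le_mul_of_nonneg_right h7 h8
            linarith
        _ = a s * a t * (-(c ((s - t) + (t - s)))) := by ring
        _ ≤ _ := mul_le_mul_of_nonneg_left h5 h6
    linarith
  have htot := sum_le_sum hrow
  refine le_trans ?_ htot
  rw [sum_sub_distrib, ← sum_mul]
  have hsym : ∑ s ∈ range S, ∑ t ∈ (range S).filter (fun t => t ≠ s), (a s ^ 2 + a t ^ 2) / 2 * (c ((s - t) + (t - s))) =
      ∑ s ∈ range S, a s ^ 2 * (∑ t ∈ (range S).filter (fun t => t ≠ s), c ((s - t) + (t - s))) := by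
    have h1 : ∀ (u : ℕ → ℕ → ℝ), ∑ s ∈ range S, ∑ t ∈ (range S).filter (fun t => t ≠ s), u s t =
        ∑ s ∈ range S, ∑ t ∈ range S, if t ≠ s then u s t else 0 := by
      intro u; apply sum_congr rfl; intro s _; rw [sum_filter]
    have h2 : ∑ s ∈ range S, ∑ t ∈ (range S).filter (fun t => t ≠ s), a t ^ 2 / 2 * (c ((s - t) + (t - s))) =
        ∑ s ∈ range S, ∑ t ∈ (range S).filter (fun t => t ≠ s), a s ^ 2 / 2 * (c ((s - t) + (t - s))) := by
      rw [h1, h1, sum_comm]
      apply sum_congr rfl; intro s _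
      apply sum_congr rfl; intro t _
      by_cases h : t = s
      · rw [h]
      · rw [if_pos h, if_pos (Ne.symm h), add_comm (s - t)]
    have h3 : ∑ s ∈ range S, ∑ t ∈ (range S).filter (fun t => t ≠ s), (a s ^ 2 + a t ^ 2) / 2 * (c ((s - t) + (t - s))) =
        ∑ s ∈ range S, ∑ t ∈ (range S).filter (fun t => t ≠ s), a s ^ 2 / 2 * (c ((s - t) + (t - s))) +
        ∑ s ∈ range S, ∑ t ∈ (range S).filter (fun t => t ≠ s), a t ^ 2 / 2 * (c ((s - t) + (t - s))) := by
      rw [← sum_add_distrib]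
      apply sum_congr rfl; intro s _
      rw [← sum_add_distrib]
      apply sum_congr rfl; intro t _; ring
    rw [h3, h2, ← sum_add_distrib]
    apply sum_congr rfl; intro s _
    rw [← sum_add_distrib, mul_sum]
    apply sum_congr rfl; intro t _; ring
  rw [hsym, mul_sub]
  have hfin : ∑ s ∈ range S, a s ^ 2 * (∑ t ∈ (range S).filter (fun t => t ≠ s), c ((s - t) + (t - s))) ≤
      (∑ s ∈ range S, a s ^ 2) * (2 * X') := by
    rw [sum_mul]
    apply sum_le_sum; intro s hs
    rw [mem_range] at hs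
    apply mul_le_mul_of_nonneg_left _ (sq_nonneg _)
    have h1 : ∑ t ∈ (range S).filter (fun t => t ≠ s), c ((s - t) + (t - s)) ≤
        ∑ t ∈ (range S).filter (fun t => t < s), c (s - t) + ∑ t ∈ (range S).filter (fun t => s < t), c (t - s) := by
      have hdis : Disjoint ((range S).filter (fun t => t < s)) ((range S).filter (fun t => s < t)) := by
        rw [disjoint_left]; intro a ha hb; rw [mem_filter] at ha hb; omega
      have e1 : ∑ t ∈ (range S).filter (fun t => t < s), c (s - t) = ∑ t ∈ (range S).filter (fun t => t < s), c ((s - t) + (t - s)) := by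
        apply sum_congr rfl; intro t ht
        rw [mem_filter] at ht
        congr 1; omega
      have e2 : ∑ t ∈ (range S).filter (fun t => s < t), c (t - s) = ∑ t ∈ (range S).filter (fun t => s < t), c ((s - t) + (t - s)) := by
        apply sum_congr rfl; intro t ht
        rw [mem_filter] at ht
        congr 1; omega
      rw [e1, e2, ← sum_union hdis]
      apply sum_le_sum_of_subset_of_nonneg
      · intro t ht
        rw [mem_filter] at ht
        rw [mem_union, mem_filter, mem_filter]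
        rcases lt_or_gt_of_ne ht.2 with h | h
        · exact Or.inl ⟨ht.1, h⟩
        · exact Or.inr ⟨ht.1, h⟩
      · intro t _ _; exact hc0 _
    have h2 : ∑ t ∈ (range S).filter (fun t => t < s), c (s - t) ≤ ∑ k ∈ Ico 1 S, c k := by
      rw [← sum_image (f := c) (g := fun t => s - t) (by
        intro a ha b hb h
        rw [mem_coe, mem_filter] at ha hb
        simp only at h; omega)]
      apply sum_le_sum_of_subset_of_nonneg
      · intro k hk
        rw [mem_image] at hk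
        obtain ⟨t, ht, rfl⟩ := hk
        rw [mem_filter, mem_range] at ht
        rw [mem_Ico]; omega
      · intro _ _ _; exact hc0 _
    have h3 : ∑ t ∈ (range S).filter (fun t => s < t), c (t - s) ≤ ∑ k ∈ Ico 1 S, c k := by
      rw [← sum_image (f := c) (g := fun t => t - s) (by
        intro a ha b hb h
        rw [mem_coe, mem_filter] at ha hb
        simp only at h; omega)]
      apply sum_le_sum_of_subset_of_nonneg
      · intro k hk
        rw [mem_image] at hk
        obtain ⟨t, ht, rfl⟩ := hk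
        rw [mem_filter, mem_range] at ht
        rw [mem_Ico]; omega
      · intro _ _ _; exact hc0 _
    have h4 : ∑ k ∈ Ico 1 S, c k ≤ X' := hX'
    linarith
  linarith

theorem kernel_lower2 {ι : Type*} (I : Finset ι) (w x : ι → ℝ) (hw : ∀ i ∈ I, 0 ≤ w i) (K r R J : ℕ) (hK : 1 ≤ K)
    (hr : 1 ≤ r) (hR : r * K ≤ R) (δ₀ : ℝ) (hδ₀ : 0 < δ₀) (hJ : (J : ℝ) / R + 2 * δ₀ < 1) (X' : ℝ)
    (hX' : ∑ k ∈ Ico 1 (r * K), ‖∑ i ∈ I, ((w i : ℝ) : ℂ) * e (k * x i)‖ ≤ X') :
    (J : ℝ) / R * (∑ i ∈ I, w i - 2 * X' - (∑ i ∈ I, w i) * ((r * K) * (1 / (δ₀ * K)) ^ (2 * r))) ≤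
      ∑ i ∈ I.filter (fun i => Int.fract (x i) ≤ (J : ℝ) / R + 2 * δ₀), w i := by
  have hK0 : (0 : ℝ) < K := by exact_mod_cast hK
  have hr0 : (0 : ℝ) < r := by exact_mod_cast hr
  have hS1 : 1 ≤ r * K := Nat.mul_pos (by omega) (by omega)
  have hR0 : (0 : ℝ) < R := by exact_mod_cast (by omega : 0 < R)
  have hJR : J ≤ R := by
    have h1 : (J : ℝ) / R < 1 := by linarith
    rw [div_lt_one hR0] at h1
    exact_mod_cast h1.le
  set S := r * K with hS
  set a : ℕ → ℝ := fun s => aa K r s with ha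
  have ha0 : ∀ s, 0 ≤ a s := fun s => aa_nonneg K r s
  have hN : NN K r = ∑ s ∈ range S, a s ^ 2 := rfl
  have hNpos := NN_pos K r hK hr
  set P : ℝ → ℂ := fun y => ∑ s ∈ range S, ((a s : ℝ) : ℂ) * e (s * y) with hP
  have hPpow : ∀ y : ℝ, P y = (∑ j ∈ range K, (e y) ^ j) ^ r := fun y => (pow_eq_sum K r hK hr y).symm
  -- the weight
  set W : ι → ℝ := fun i => 1 / (R * NN K r) * ∑ j ∈ range J, ‖P (x i - δ₀ - j / R)‖ ^ 2 with hW
  have hW0 : ∀ i, 0 ≤ W i := fun i => by positivity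
  have hW1 : ∀ i, W i ≤ 1 := by
    intro i
    rw [hW]; simp only
    rw [one_div, inv_mul_le_iff₀ (by positivity), mul_one, hN, ← full_average S R hR a (x i - δ₀)]
    exact sum_le_sum_of_subset_of_nonneg (by
      intro j hj; rw [mem_range] at hj ⊢; omega) (fun j _ _ => by positivity)
  have hWtail : ∀ i, ¬ (Int.fract (x i) ≤ (J : ℝ) / R + 2 * δ₀) → W i ≤ (J : ℝ) / R * ((r * K) * (1 / (δ₀ * K)) ^ (2 * r)) := by
    intro i hi
    push Not at hi
    have h1 : ∀ j ∈ range J, ‖P (x i - δ₀ - j / R)‖ ^ 2 ≤ (1 / δ₀) ^ (2 * r) := by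
      intro j hj
      rw [mem_range] at hj
      have hjJ : (j : ℝ) / R ≤ (J : ℝ) / R := by
        apply div_le_div_of_nonneg_right _ hR0.le
        exact_mod_cast hj.le
      have hj0 : 0 ≤ (j : ℝ) / R := by positivity
      have hf1 := Int.fract_lt_one (x i)
      have h2 : e (x i - δ₀ - j / R) = e (Int.fract (x i) - δ₀ - j / R) := by
        have h3 : x i - δ₀ - j / R = (Int.fract (x i) - δ₀ - j / R) + (⌊x i⌋ : ℤ) := by
          rw [← Int.self_sub_floor]; ring
        rw [h3, e_add_int]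
      rw [hPpow, h2, norm_pow, ← pow_mul, mul_comm r 2]
      apply pow_le_pow_left₀ (norm_nonneg _)
      apply geom_e K _ δ₀ hδ₀
      · linarith
      · linarith
    have h2 : W i ≤ 1 / (R * NN K r) * (J * (1 / δ₀) ^ (2 * r)) := by
      apply mul_le_mul_of_nonneg_left _ (by positivity)
      refine (sum_le_sum h1).trans ?_
      rw [sum_const, card_range, nsmul_eq_mul]
    refine h2.trans ?_
    have h3 : 1 / NN K r ≤ (r * K) / (K : ℝ) ^ (2 * r) := by
      rw [div_le_div_iff₀ hNpos (by positivity), one_mul]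
      exact NN_ge K r hK hr
    calc 1 / (R * NN K r) * (J * (1 / δ₀) ^ (2 * r)) = (J : ℝ) / R * ((1 / NN K r) * (1 / δ₀) ^ (2 * r)) := by
          field_simp
      _ ≤ (J : ℝ) / R * (((r * K) / (K : ℝ) ^ (2 * r)) * (1 / δ₀) ^ (2 * r)) := by
          apply mul_le_mul_of_nonneg_left _ (by positivity)
          exact mul_le_mul_of_nonneg_right h3 (by positivity)
      _ = _ := by
          have h4 : (1 / (δ₀ * (K : ℝ))) ^ (2 * r) = (1 / δ₀) ^ (2 * r) / (K : ℝ) ^ (2 * r) := by
            rw [← div_pow, div_div]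
          rw [h4]; ring
  -- lower bound of the total
  have hlow : (J : ℝ) / R * (∑ i ∈ I, w i - 2 * X') ≤ ∑ i ∈ I, w i * W i := by
    have h1 : ∑ i ∈ I, w i * W i = 1 / (R * NN K r) * ∑ j ∈ range J, ∑ i ∈ I, w i * ‖P (x i - δ₀ - j / R)‖ ^ 2 := by
      rw [sum_comm, mul_sum]
      apply sum_congr rfl; intro i _
      rw [hW]; simp only
      rw [← mul_sum]; ring
    rw [h1]
    have h2 : ∀ j ∈ range J, NN K r * (∑ i ∈ I, w i - 2 * X') ≤
        ∑ i ∈ I, w i * ‖P (x i - δ₀ - j / R)‖ ^ 2 := by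
      intro j _
      have h3 := shift_lower2 I w x S a ha0 X' hX' (δ₀ + j / R)
      rw [← hN] at h3
      refine h3.trans (le_of_eq ?_)
      apply sum_congr rfl; intro i _
      rw [hP]; simp only
      congr 4
      funext s
      congr 3; ring
    have h3 := sum_le_sum h2
    rw [sum_const, card_range, nsmul_eq_mul] at h3
    calc (J : ℝ) / R * (∑ i ∈ I, w i - 2 * X') =
          1 / (R * NN K r) * (J * (NN K r * (∑ i ∈ I, w i - 2 * X'))) := by field_simp
      _ ≤ _ := mul_le_mul_of_nonneg_left h3 (by positivity)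
  -- split
  have hsplit := sum_filter_add_sum_filter_not I (fun i => Int.fract (x i) ≤ (J : ℝ) / R + 2 * δ₀) (fun i => w i * W i)
  have h4 : ∑ i ∈ I.filter (fun i => Int.fract (x i) ≤ (J : ℝ) / R + 2 * δ₀), w i * W i ≤
      ∑ i ∈ I.filter (fun i => Int.fract (x i) ≤ (J : ℝ) / R + 2 * δ₀), w i := by
    apply sum_le_sum; intro i hi
    rw [mem_filter] at hi
    exact mul_le_of_le_one_right (hw i hi.1) (hW1 i)
  have h5 : ∑ i ∈ I.filter (fun i => ¬ (Int.fract (x i) ≤ (J : ℝ) / R + 2 * δ₀)), w i * W i ≤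
      (∑ i ∈ I, w i) * ((J : ℝ) / R * ((r * K) * (1 / (δ₀ * K)) ^ (2 * r))) := by
    calc ∑ i ∈ I.filter (fun i => ¬ (Int.fract (x i) ≤ (J : ℝ) / R + 2 * δ₀)), w i * W i ≤
          ∑ i ∈ I.filter (fun i => ¬ (Int.fract (x i) ≤ (J : ℝ) / R + 2 * δ₀)), w i * ((J : ℝ) / R * ((r * K) * (1 / (δ₀ * K)) ^ (2 * r))) := by
          apply sum_le_sum; intro i hi
          rw [mem_filter] at hi
          exact mul_le_mul_of_nonneg_left (hWtail i hi.2) (hw i hi.1)
      _ ≤ ∑ i ∈ I, w i * ((J : ℝ) / R * ((r * K) * (1 / (δ₀ * K)) ^ (2 * r))) := by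
          apply sum_le_sum_of_subset_of_nonneg (filter_subset _ _)
          intro i hi _
          exact mul_nonneg (hw i hi) (by positivity)
      _ = _ := by rw [sum_mul]
  have h6 : (J : ℝ) / R * (∑ i ∈ I, w i - 2 * X' - (∑ i ∈ I, w i) * ((r * K) * (1 / (δ₀ * K)) ^ (2 * r))) =
      (J : ℝ) / R * (∑ i ∈ I, w i - 2 * X') - (∑ i ∈ I, w i) * ((J : ℝ) / R * ((r * K) * (1 / (δ₀ * K)) ^ (2 * r))) := by
    ring
  rw [h6]
  linarith


end Pool.Agent.H373R2.T4
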