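import Mathlib
import Pool.Agent.H373R2.T3.FirstB
import Pool.Agent.H373R2.NB.CoreAux

namespace Pool.Agent.H373R2.T4
open Finset Polynomial
open Pool.Agent.H373R2.T3 (pow_sub_le)
open Pool.Agent.H373R2.NB (eval_le_one eval_mono_nat)

/-- lower mean value bound for powers -/
lemma pow_sub_ge (d : ℕ) (a t : ℝ) (ha : 0 ≤ a) (ht : 0 ≤ t) : a ^ (d + 1) + (d + 1) * t * a ^ d ≤ (a + t) ^ (d + 1) := by
  induction d with
  | zero => simp
  | succ n ih =>
    calc a ^ (n + 1 + 1) + ((n + 1 : ℕ) + 1) * t * a ^ (n + 1) ≤ (a ^ (n + 1) + (n + 1) * t * a ^ n) * (a + t) := by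
          have h1 : 0 ≤ (n + 1) * t * a ^ n * t := by positivity
          have h2 : (a ^ (n + 1) + (n + 1) * t * a ^ n) * (a + t) = a ^ (n + 1 + 1) + ((n + 1 : ℕ) + 1) * t * a ^ (n + 1) + (n + 1) * t * a ^ n * t := by
            push_cast; ring
          rw [h2]; linarith
      _ ≤ (a + t) ^ (n + 1) * (a + t) := mul_le_mul_of_nonneg_right ih (by linarith)
      _ = _ := by ring

lemma cast_eval (f : ℕ[X]) (n : ℕ) : ((f.eval n : ℕ) : ℝ) = ∑ i ∈ range (f.natDegree + 1), (f.coeff i : ℝ) * (n : ℝ) ^ i := by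
  rw [eval_eq_sum_range]; push_cast; rfl

/-- comparison of a polynomial with a shifted monomial -/
lemma approx (f : ℕ[X]) (hf : 2 ≤ f.natDegree) : ∃ C : ℝ, 0 < C ∧ ∀ n : ℕ, 1 ≤ n →
    |((f.eval n : ℕ) : ℝ) - f.leadingCoeff * ((n : ℝ) + f.coeff (f.natDegree - 1) / (f.natDegree * f.leadingCoeff)) ^ f.natDegree| ≤
      C * (n : ℝ) ^ (f.natDegree - 2) := by
  obtain ⟨e, he⟩ : ∃ e, f.natDegree = e + 2 := ⟨f.natDegree - 2, by omega⟩
  have hlc : f.leadingCoeff ≠ 0 := leadingCoeff_ne_zero.2 (by rintro rfl; simp at hf)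
  have hlc0 : (f.leadingCoeff : ℝ) ≠ 0 := by exact_mod_cast hlc
  set a : ℝ := (f.leadingCoeff : ℝ) with ha
  set β : ℝ := (f.coeff (f.natDegree - 1) : ℝ) / (f.natDegree * a) with hβ
  set g : ℕ → ℝ := fun i => (f.coeff i : ℝ) - a * (β ^ (e + 2 - i) * ((e + 2).choose i : ℝ)) with hg
  refine ⟨∑ i ∈ range (e + 1), |g i| + 1, by positivity, ?_⟩
  intro n hn
  have hn1 : (1 : ℝ) ≤ n := by exact_mod_cast hn
  have h1 : ((f.eval n : ℕ) : ℝ) - a * ((n : ℝ) + β) ^ f.natDegree = ∑ i ∈ range (e + 1), g i * (n : ℝ) ^ i := by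
    have h2 : ((f.eval n : ℕ) : ℝ) - a * ((n : ℝ) + β) ^ f.natDegree = ∑ i ∈ range (e + 2 + 1), g i * (n : ℝ) ^ i := by
      rw [cast_eval, he, add_pow, mul_sum, ← sum_sub_distrib]
      apply sum_congr rfl; intro i _
      simp only [hg]; ring
    rw [h2, sum_range_succ, sum_range_succ]
    have h3 : g (e + 1) = 0 := by
      simp only [hg]
      have h4 : e + 2 - (e + 1) = 1 := by omega
      have h5 : (e + 2).choose (e + 1) = e + 2 := Nat.choose_succ_self_right (e + 1)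
      have h6 : f.natDegree - 1 = e + 1 := by omega
      rw [h4, h5, pow_one, hβ, h6, he]
      push_cast
      have : (e : ℝ) + 2 ≠ 0 := by positivity
      field_simp
      ring
    have h4 : g (e + 2) = 0 := by
      simp only [hg]
      rw [Nat.sub_self, pow_zero, Nat.choose_self]
      have : (f.coeff (e + 2) : ℝ) = a := by rw [ha, ← he]; rfl
      rw [this]; push_cast; ring
    rw [h3, h4]; ring
  rw [h1, he, Nat.add_sub_cancel]
  calc |∑ i ∈ range (e + 1), g i * (n : ℝ) ^ i| ≤ ∑ i ∈ range (e + 1), |g i * (n : ℝ) ^ i| := abs_sum_le_sum_abs _ _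
    _ ≤ ∑ i ∈ range (e + 1), |g i| * (n : ℝ) ^ e := by
        apply sum_le_sum; intro i hi
        rw [mem_range] at hi
        rw [abs_mul, abs_of_nonneg (show 0 ≤ (n : ℝ) ^ i by positivity)]
        apply mul_le_mul_of_nonneg_left _ (abs_nonneg _)
        exact pow_le_pow_right₀ hn1 (by omega)
    _ = (∑ i ∈ range (e + 1), |g i|) * (n : ℝ) ^ e := by rw [sum_mul]
    _ ≤ _ := by
        apply mul_le_mul_of_nonneg_right _ (by positivity)
        linarith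

lemma eval_ratio (f : ℕ[X]) (y y' : ℕ) (ρ : ℝ) (hρ : 1 ≤ ρ) (h : (y' : ℝ) ≤ ρ * y) :
    ((f.eval y' : ℕ) : ℝ) ≤ ρ ^ f.natDegree * ((f.eval y : ℕ) : ℝ) := by
  rw [cast_eval, cast_eval, mul_sum]
  apply sum_le_sum; intro i hi
  rw [mem_range] at hi
  calc (f.coeff i : ℝ) * (y' : ℝ) ^ i ≤ (f.coeff i : ℝ) * (ρ * y) ^ i := by gcongr
    _ = ρ ^ i * ((f.coeff i : ℝ) * (y : ℝ) ^ i) := by rw [mul_pow]; ring
    _ ≤ ρ ^ f.natDegree * ((f.coeff i : ℝ) * (y : ℝ) ^ i) := by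
        apply mul_le_mul_of_nonneg_right _ (by positivity)
        exact pow_le_pow_right₀ hρ (by omega)

lemma eval_diff (f : ℕ[X]) (y y' : ℕ) (h : y ≤ y') :
    (f.leadingCoeff : ℝ) * ((y' : ℝ) ^ f.natDegree - (y : ℝ) ^ f.natDegree) ≤ ((f.eval y' : ℕ) : ℝ) - ((f.eval y : ℕ) : ℝ) := by
  rw [cast_eval, cast_eval, ← sum_sub_distrib, sum_range_succ]
  have h1 : (f.leadingCoeff : ℝ) * ((y' : ℝ) ^ f.natDegree - (y : ℝ) ^ f.natDegree) =
      (f.coeff f.natDegree : ℝ) * (y' : ℝ) ^ f.natDegree - (f.coeff f.natDegree : ℝ) * (y : ℝ) ^ f.natDegree := by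
    rw [leadingCoeff]; ring
  rw [h1]
  have h2 : 0 ≤ ∑ i ∈ range f.natDegree, ((f.coeff i : ℝ) * (y' : ℝ) ^ i - (f.coeff i : ℝ) * (y : ℝ) ^ i) := by
    apply sum_nonneg; intro i _
    have h3 : (y : ℝ) ^ i ≤ (y' : ℝ) ^ i := pow_le_pow_left₀ (Nat.cast_nonneg _) (by exact_mod_cast h) i
    have h4 : (f.coeff i : ℝ) * (y : ℝ) ^ i ≤ (f.coeff i : ℝ) * (y' : ℝ) ^ i := mul_le_mul_of_nonneg_left h3 (Nat.cast_nonneg _)
    linarith
  linarith

lemma eval_ge_pow (f : ℕ[X]) (hf : 1 ≤ f.natDegree) (y : ℕ) : y ^ f.natDegree ≤ f.eval y := by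
  rw [eval_eq_sum_range]
  have h1 : f.coeff f.natDegree * y ^ f.natDegree ≤ ∑ i ∈ range (f.natDegree + 1), f.coeff i * y ^ i :=
    single_le_sum (f := fun i => f.coeff i * y ^ i) (fun _ _ => Nat.zero_le _) (mem_range.2 (Nat.lt_succ_self _))
  refine le_trans ?_ h1
  have h2 : f.coeff f.natDegree ≠ 0 := by
    intro h
    have h3 : f = 0 := leadingCoeff_eq_zero.1 h
    rw [h3, natDegree_zero] at hf
    omega
  calc y ^ f.natDegree = 1 * y ^ f.natDegree := (one_mul _).symm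
    _ ≤ _ := Nat.mul_le_mul_right _ (by omega)

/-- from primes with a small fractional part of `lam p^(1/d) - beta` to primes `f(n) + u` -/
lemma block_count_g (f : ℕ[X]) (hf : 2 ≤ f.natDegree) (C lam β : ℝ) (hC0 : 0 < C) (hlam : 0 < lam) (hβ : 0 ≤ β)
    (hlam2 : f.leadingCoeff * lam ^ f.natDegree = 1)
    (happ : ∀ n : ℕ, 1 ≤ n → |((f.eval n : ℕ) : ℝ) - f.leadingCoeff * ((n : ℝ) + β) ^ f.natDegree| ≤ C * (n : ℝ) ^ (f.natDegree - 2))
    (y y' H : ℕ) (η s : ℝ) (hy : 1 ≤ y) (hyy' : y ≤ y') (hs0 : 0 < s) (hs : C ≤ s * y) (hs1 : s ≤ 1 / 2) (hη0 : 0 ≤ η) (hη1 : η ≤ 1 / 2)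
    (hbig : C * ((y : ℝ) + 1) ^ (f.natDegree - 2) ≤ (y : ℝ) ^ (f.natDegree - 1))
    (hH : C * (y' : ℝ) ^ (f.natDegree - 2) + f.leadingCoeff * (f.natDegree * (s + η) * ((y' : ℝ) + β) ^ (f.natDegree - 1)) ≤ H) :
    (#((Ioc (f.eval (y + 1)) (f.eval y')).filter (fun p : ℕ => p.Prime ∧
      Int.fract (lam * (p : ℝ) ^ (1 / (f.natDegree : ℝ)) - (β + s)) ≤ η)) : ℝ) ≤
      ∑ n ∈ Ico y y', (#{u ∈ Icc 1 H | (u + f.eval n).Prime} : ℝ) := by
  obtain ⟨e, he⟩ : ∃ e, f.natDegree = e + 2 := ⟨f.natDegree - 2, by omega⟩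
  have hlc : f.leadingCoeff ≠ 0 := leadingCoeff_ne_zero.2 (by rintro rfl; simp at hf)
  have hlc1 : (1 : ℝ) ≤ f.leadingCoeff := by exact_mod_cast Nat.one_le_iff_ne_zero.2 hlc
  set a : ℝ := (f.leadingCoeff : ℝ) with ha
  rw [he] at hlam2 happ hbig hH ⊢
  rw [Nat.add_sub_cancel] at happ hbig hH
  rw [show e + 2 - 1 = e + 1 by omega] at hbig hH
  have hd0 : (0 : ℝ) < ((e + 2 : ℕ) : ℝ) := by positivity
  have hd2 : (2 : ℝ) ≤ ((e + 2 : ℕ) : ℝ) := by push_cast; linarith [Nat.cast_nonneg (α := ℝ) e]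
  have hsum : ∑ n ∈ Ico y y', (#{u ∈ Icc 1 H | (u + f.eval n).Prime} : ℝ) =
      (#((Ico y y').sigma (fun n => (Icc 1 H).filter (fun u => (u + f.eval n).Prime))) : ℝ) := by
    rw [card_sigma]; push_cast; rfl
  rw [hsum, Nat.cast_le]
  set G : ℕ → ℝ := fun p => lam * (p : ℝ) ^ (1 / ((e + 2 : ℕ) : ℝ)) with hG
  have hG0 : ∀ p, 0 ≤ G p := fun p => by simp only [hG]; positivity
  have hGd : ∀ p : ℕ, a * (G p) ^ (e + 2) = p := by
    intro p
    simp only [hG]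
    rw [mul_pow, ← mul_assoc, hlam2, one_mul, ← Real.rpow_natCast, ← Real.rpow_mul (Nat.cast_nonneg p), one_div_mul_cancel hd0.ne',
      Real.rpow_one]
  have hyr : (1 : ℝ) ≤ y := by exact_mod_cast hy
  have hyy'r : (y : ℝ) ≤ y' := by exact_mod_cast hyy'
  -- the facts about one prime
  have key : ∀ p : ℕ, p ∈ (Ioc (f.eval (y + 1)) (f.eval y')).filter (fun p : ℕ => p.Prime ∧ Int.fract (G p - (β + s)) ≤ η) →
      y ≤ ⌊G p - (β + s)⌋₊ ∧ ⌊G p - (β + s)⌋₊ < y' ∧ f.eval ⌊G p - (β + s)⌋₊ < p ∧ p ≤ f.eval ⌊G p - (β + s)⌋₊ + H := by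
    intro p hp
    rw [mem_filter, mem_Ioc] at hp
    obtain ⟨⟨hp1, hp2⟩, hp3, hp4⟩ := hp
    have hp1r : ((f.eval (y + 1) : ℕ) : ℝ) < p := by exact_mod_cast hp1
    have hp2r : (p : ℝ) ≤ ((f.eval y' : ℕ) : ℝ) := by exact_mod_cast hp2
    set g : ℝ := G p with hg
    have hg0 : 0 ≤ g := hG0 p
    have hgd : a * g ^ (e + 2) = p := hGd p
    -- lower bound for g
    have hlow : (y : ℝ) + β + s < g := by
      by_contra hcon
      push Not at hcon
      have h1 : g ^ (e + 2) ≤ ((y : ℝ) + β + s) ^ (e + 2) := pow_le_pow_left₀ hg0 hcon _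
      have h2 := (abs_le.1 (happ (y + 1) (by omega))).1
      push_cast at h2
      have h3 := pow_sub_ge (e + 1) ((y : ℝ) + β + s) (1 - s) (by linarith) (by linarith)
      have e1 : (y : ℝ) + β + s + (1 - s) = (y : ℝ) + 1 + β := by ring
      rw [e1, show e + 1 + 1 = e + 2 by ring] at h3
      have h4 : (y : ℝ) ^ (e + 1) ≤ (((e + 1 : ℕ) : ℝ) + 1) * (1 - s) * ((y : ℝ) + β + s) ^ (e + 1) := by
        have h5 : (y : ℝ) ^ (e + 1) ≤ ((y : ℝ) + β + s) ^ (e + 1) := pow_le_pow_left₀ (by linarith) (by linarith) _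
        have h6 : 1 ≤ (((e + 1 : ℕ) : ℝ) + 1) * (1 - s) := by
          push_cast
          have := Nat.cast_nonneg (α := ℝ) e
          nlinarith
        calc (y : ℝ) ^ (e + 1) ≤ ((y : ℝ) + β + s) ^ (e + 1) := h5
          _ = 1 * ((y : ℝ) + β + s) ^ (e + 1) := (one_mul _).symm
          _ ≤ _ := mul_le_mul_of_nonneg_right h6 (by positivity)
      have h7 : (y : ℝ) ^ (e + 1) + a * ((y : ℝ) + β + s) ^ (e + 2) ≤ a * ((y : ℝ) + 1 + β) ^ (e + 2) := by
        have h8 : (y : ℝ) ^ (e + 1) + ((y : ℝ) + β + s) ^ (e + 2) ≤ ((y : ℝ) + 1 + β) ^ (e + 2) := by linarith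
        have h9 : (y : ℝ) ^ (e + 1) ≤ a * (y : ℝ) ^ (e + 1) := le_mul_of_one_le_left (by positivity) hlc1
        have h10 := mul_le_mul_of_nonneg_left h8 (by linarith : 0 ≤ a)
        linarith
      have h8 : a * g ^ (e + 2) ≤ a * ((y : ℝ) + β + s) ^ (e + 2) := mul_le_mul_of_nonneg_left h1 (by linarith)
      linarith
    have hpos : 0 ≤ g - (β + s) := by linarith
    set m := ⌊g - (β + s)⌋₊ with hm
    have hm1 : (m : ℝ) ≤ g - (β + s) := Nat.floor_le hpos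
    have hm2 : g - (β + s) < m + 1 := Nat.lt_floor_add_one _
    have hfr : Int.fract (g - (β + s)) = g - (β + s) - m := by
      rw [← Int.self_sub_floor, natCast_floor_eq_intCast_floor hpos]
    rw [hfr] at hp4
    have hym : y ≤ m := by
      apply Nat.le_floor; linarith
    have hymr : (y : ℝ) ≤ m := by exact_mod_cast hym
    have hmy' : m < y' := by
      by_contra hcon
      push Not at hcon
      have h1 : (y' : ℝ) ≤ m := by exact_mod_cast hcon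
      have h2 : ((y' : ℝ) + β + s) ^ (e + 2) ≤ g ^ (e + 2) := pow_le_pow_left₀ (by linarith) (by linarith) _
      have h3 := (abs_le.1 (happ y' (by omega))).2
      have h4 := pow_sub_ge (e + 1) ((y' : ℝ) + β) s (by linarith) hs0.le
      rw [show e + 1 + 1 = e + 2 by ring] at h4
      have h5 : 2 * (C * (y' : ℝ) ^ e) ≤ (((e + 1 : ℕ) : ℝ) + 1) * s * ((y' : ℝ) + β) ^ (e + 1) := by
        have h6 : C ≤ s * y' := hs.trans (mul_le_mul_of_nonneg_left hyy'r hs0.le)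
        have h7 : (y' : ℝ) ^ (e + 1) ≤ ((y' : ℝ) + β) ^ (e + 1) := pow_le_pow_left₀ (by linarith) (by linarith) _
        calc 2 * (C * (y' : ℝ) ^ e) ≤ 2 * ((s * y') * (y' : ℝ) ^ e) := by gcongr
          _ = 2 * s * (y' : ℝ) ^ (e + 1) := by ring
          _ ≤ 2 * s * ((y' : ℝ) + β) ^ (e + 1) := by gcongr
          _ ≤ _ := by
              apply mul_le_mul_of_nonneg_right _ (by positivity)
              apply mul_le_mul_of_nonneg_right _ hs0.le
              push_cast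
              have := Nat.cast_nonneg (α := ℝ) e
              linarith
      have hy'0 : (0 : ℝ) < y' := by linarith
      have h6 : 0 < C * (y' : ℝ) ^ e := by positivity
      have h7 : 2 * (C * (y' : ℝ) ^ e) + ((y' : ℝ) + β) ^ (e + 2) ≤ ((y' : ℝ) + β + s) ^ (e + 2) := by linarith
      have h8 := mul_le_mul_of_nonneg_left (h7.trans h2) (by linarith : 0 ≤ a)
      have h9 : 2 * (C * (y' : ℝ) ^ e) ≤ a * (2 * (C * (y' : ℝ) ^ e)) := le_mul_of_one_le_left (by positivity) hlc1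
      have h10 : a * (2 * (C * (y' : ℝ) ^ e) + ((y' : ℝ) + β) ^ (e + 2)) = a * (2 * (C * (y' : ℝ) ^ e)) + a * ((y' : ℝ) + β) ^ (e + 2) := by ring
      linarith
    have hmy'r : (m : ℝ) + 1 ≤ y' := by exact_mod_cast hmy'
    refine ⟨hym, hmy', ?_, ?_⟩
    · have h1 : ((m : ℝ) + β + s) ^ (e + 2) ≤ g ^ (e + 2) := pow_le_pow_left₀ (by linarith) (by linarith) _
      have h3 := (abs_le.1 (happ m (by omega))).2
      have h4 := pow_sub_ge (e + 1) ((m : ℝ) + β) s (by linarith) hs0.le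
      rw [show e + 1 + 1 = e + 2 by ring] at h4
      have h5 : 2 * (C * (m : ℝ) ^ e) ≤ (((e + 1 : ℕ) : ℝ) + 1) * s * ((m : ℝ) + β) ^ (e + 1) := by
        have h6 : C ≤ s * m := hs.trans (mul_le_mul_of_nonneg_left hymr hs0.le)
        have h7 : (m : ℝ) ^ (e + 1) ≤ ((m : ℝ) + β) ^ (e + 1) := pow_le_pow_left₀ (by linarith) (by linarith) _
        calc 2 * (C * (m : ℝ) ^ e) ≤ 2 * ((s * m) * (m : ℝ) ^ e) := by gcongr
          _ = 2 * s * (m : ℝ) ^ (e + 1) := by ring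
          _ ≤ 2 * s * ((m : ℝ) + β) ^ (e + 1) := by gcongr
          _ ≤ _ := by
              apply mul_le_mul_of_nonneg_right _ (by positivity)
              apply mul_le_mul_of_nonneg_right _ hs0.le
              push_cast
              have := Nat.cast_nonneg (α := ℝ) e
              linarith
      have hm0 : (0 : ℝ) < m := by linarith
      have h6 : 0 < C * (m : ℝ) ^ e := by positivity
      have h7 : 2 * (C * (m : ℝ) ^ e) + ((m : ℝ) + β) ^ (e + 2) ≤ ((m : ℝ) + β + s) ^ (e + 2) := by linarith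
      have h8 := mul_le_mul_of_nonneg_left (h7.trans h1) (by linarith : 0 ≤ a)
      have h9 : 2 * (C * (m : ℝ) ^ e) ≤ a * (2 * (C * (m : ℝ) ^ e)) := le_mul_of_one_le_left (by positivity) hlc1
      have h10 : a * (2 * (C * (m : ℝ) ^ e) + ((m : ℝ) + β) ^ (e + 2)) = a * (2 * (C * (m : ℝ) ^ e)) + a * ((m : ℝ) + β) ^ (e + 2) := by ring
      have h11 : ((f.eval m : ℕ) : ℝ) < p := by linarith
      exact_mod_cast h11
    · have h1 : g ^ (e + 2) ≤ ((m : ℝ) + β + (s + η)) ^ (e + 2) := pow_le_pow_left₀ hg0 (by linarith) _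
      have h2 := pow_sub_le (e + 2) (by omega) ((m : ℝ) + β) (s + η) ((y' : ℝ) + β) (by linarith) (by linarith) (by linarith)
      rw [show e + 2 - 1 = e + 1 by omega] at h2
      have h3 := (abs_le.1 (happ m (by omega))).1
      have h4 : (m : ℝ) ^ e ≤ (y' : ℝ) ^ e := pow_le_pow_left₀ (Nat.cast_nonneg _) (by linarith) _
      have h5 : C * (m : ℝ) ^ e ≤ C * (y' : ℝ) ^ e := mul_le_mul_of_nonneg_left h4 hC0.le
      have h6 := mul_le_mul_of_nonneg_left (h1.trans h2) (by linarith : 0 ≤ a)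
      have h7 : a * (((m : ℝ) + β) ^ (e + 2) + ((e + 2 : ℕ) : ℝ) * (s + η) * ((y' : ℝ) + β) ^ (e + 1)) =
          a * ((m : ℝ) + β) ^ (e + 2) + a * (((e + 2 : ℕ) : ℝ) * (s + η) * ((y' : ℝ) + β) ^ (e + 1)) := by ring
      have h8 : (p : ℝ) ≤ ((f.eval m : ℕ) : ℝ) + H := by linarith
      exact_mod_cast h8
  apply card_le_card_of_injOn (fun p : ℕ => (⟨⌊G p - (β + s)⌋₊, p - f.eval ⌊G p - (β + s)⌋₊⟩ : Σ _ : ℕ, ℕ))
  · intro p hp
    rw [mem_coe] at hp
    obtain ⟨h1, h2, h3, h4⟩ := key p hp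
    rw [mem_filter] at hp
    rw [mem_coe, mem_sigma]
    refine ⟨mem_Ico.2 ⟨h1, h2⟩, ?_⟩
    rw [mem_filter, mem_Icc]
    have e1 : p - f.eval ⌊G p - (β + s)⌋₊ + f.eval ⌊G p - (β + s)⌋₊ = p := Nat.sub_add_cancel h3.le
    refine ⟨⟨by show 1 ≤ p - f.eval ⌊G p - (β + s)⌋₊; omega, by show p - f.eval ⌊G p - (β + s)⌋₊ ≤ H; omega⟩, ?_⟩
    show (p - f.eval ⌊G p - (β + s)⌋₊ + f.eval ⌊G p - (β + s)⌋₊).Prime
    rw [e1]
    exact hp.2.1
  · intro p hp q hq hpq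
    rw [mem_coe] at hp hq
    obtain ⟨_, _, h3, _⟩ := key p hp
    obtain ⟨_, _, k3, _⟩ := key q hq
    simp only [Sigma.mk.injEq, heq_eq_eq] at hpq
    obtain ⟨h5, h6⟩ := hpq
    rw [h5] at h6 h3
    omega

end Pool.Agent.H373R2.T4
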