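import Mathlib
import Pool.Agent.H373R2.T4.PolyG
import Pool.Agent.H373R2.T4.FracQ

namespace Pool.Agent.H373R2.T4
open Finset Polynomial
open Pool.Agent.H373R2.NB (eval_le_one eval_mono_nat)

/-- first moment for short shift ranges, general polynomials -/
theorem firstShort_g (f : ℕ[X]) (hf : 2 ≤ f.natDegree) (ν : ℝ) (hν0 : 0 < ν) (hν1 : 4 * ν < 1)
    (hν2 : 2 * ν < 1 - 1 / (f.natDegree : ℝ)) (hν3 : ν < 1 / (f.natDegree : ℝ)) (ε : ℝ) (hε : 0 < ε) :
    ∃ c : ℝ, 0 < c ∧ ∃ x₀ : ℕ, ∀ x : ℕ,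
      x₀ ≤ x → ∀ H : ℕ, (x : ℝ) ^ ((f.natDegree : ℝ) - 1 - f.natDegree * ν) ≤ H → (H : ℝ) ≤ c * (x : ℝ) ^ (f.natDegree - 1) →
      (1 - ε) * (x * H / (f.natDegree * Real.log x)) ≤ ∑ n ∈ Icc 1 x, (#{u ∈ Icc 1 H | (u + f.eval n).Prime} : ℝ) := by
  obtain ⟨C, hC0, happ⟩ := approx f hf
  have hlc : f.leadingCoeff ≠ 0 := leadingCoeff_ne_zero.2 (by rintro rfl; simp at hf)
  have hlc1 : (1 : ℝ) ≤ (f.leadingCoeff : ℝ) := by exact_mod_cast Nat.one_le_iff_ne_zero.2 hlc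
  set d : ℕ := f.natDegree with hd
  set a : ℝ := (f.leadingCoeff : ℝ) with ha
  have ha0 : 0 < a := by linarith
  have hd0 : (0 : ℝ) < d := by exact_mod_cast (by omega : 0 < d)
  have hd2 : (2 : ℝ) ≤ d := by exact_mod_cast hf
  set β : ℝ := (f.coeff (d - 1) : ℝ) / (d * a) with hβ
  have hβ0 : 0 ≤ β := by positivity
  set lam : ℝ := a ^ (-(1 / (d : ℝ))) with hlam
  have hlam0 : 0 < lam := by positivity
  have hlam2 : a * lam ^ d = 1 := by
    rw [hlam, ← Real.rpow_natCast, ← Real.rpow_mul ha0.le]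
    have : -(1 / (d : ℝ)) * d = -1 := by field_simp
    rw [this, Real.rpow_neg_one]
    exact mul_inv_cancel₀ ha0.ne'
  have had : 1 ≤ a * d := by nlinarith
  -- a slightly larger exponent
  obtain ⟨ν', hνν', hν'⟩ : ∃ ν', ν < ν' ∧ ν' < min (1 / 4) (min ((1 - 1 / (d : ℝ)) / 2) (1 / d)) := by
    apply _root_.exists_between
    rw [lt_min_iff, lt_min_iff]
    refine ⟨by linarith, by linarith, hν3⟩
  rw [lt_min_iff, lt_min_iff] at hν'
  obtain ⟨hν'1, hν'2, hν'3⟩ := hν'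
  have hν'0 : 0 < ν' := by linarith
  have hdν : (d : ℝ) * ν < 1 := by
    rw [lt_div_iff₀ hd0] at hν3; linarith
  set ε₁ : ℝ := min (1 / 2) (ε / 8) with hε₁
  have hε₁0 : 0 < ε₁ := by positivity
  have hε₁1 : ε₁ ≤ 1 / 2 := min_le_left _ _
  have hε₁2 : 8 * ε₁ ≤ ε := by
    have : ε₁ ≤ ε / 8 := min_le_right _ _
    linarith
  have hε₁' : 0 ≤ 1 - ε₁ := by linarith
  -- the number of blocks
  obtain ⟨j₀, hj₀⟩ := exists_nat_gt (2 * d / ε₁ + 2 * d)
  have hj₀r : (2 * d : ℝ) < j₀ := by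
    have : 0 ≤ 2 * d / ε₁ := by positivity
    linarith
  have hj₀d : 2 * d < j₀ := by exact_mod_cast hj₀r
  have hj₀ε : 2 * d / ε₁ ≤ j₀ := by linarith
  have hj₀0 : (0 : ℝ) < j₀ := by linarith
  have hj₀ε' : 2 * d ≤ j₀ * ε₁ := by rwa [div_le_iff₀ hε₁0] at hj₀ε
  set T : ℕ := j₀ ^ 2 with hT
  have hT1 : 1 ≤ T := Nat.one_le_pow _ _ (by omega)
  have hT0 : (0 : ℝ) < T := by exact_mod_cast hT1
  have hTj : j₀ ≤ T := by rw [hT]; nlinarith
  have hf1 : 1 ≤ f.eval 1 := by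
    have := eval_ge_pow f (by omega) 1
    rwa [one_pow] at this
  have hf1r : (1 : ℝ) ≤ ((f.eval 1 : ℕ) : ℝ) := by exact_mod_cast hf1
  set B : ℕ := f.eval 1 * 2 ^ d * T with hB
  have hB1 : 1 ≤ B := by rw [hB]; exact Nat.mul_pos (Nat.mul_pos hf1 (by positivity)) hT1
  obtain ⟨N₀, hN₀⟩ := frac_count_q (α := 1 / (d : ℝ)) (by positivity) (by rw [div_lt_one hd0]; linarith) lam hlam0 ν' hν'0 (by linarith) (by linarith)
    hν'3 B hB1 ε₁ hε₁0
  obtain ⟨W, hW⟩ := exists_nat_gt (β + 2 * C + C * 2 ^ d + 1 / ε₁ + 2)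
  have hWβ : β ≤ W := by
    have : 0 ≤ 2 * C + C * 2 ^ d + 1 / ε₁ := by positivity
    linarith
  have hWC : 2 * C ≤ W := by
    have : 0 ≤ C * 2 ^ d + 1 / ε₁ := by positivity
    linarith
  have hWC2 : C * 2 ^ d ≤ W := by
    have : 0 ≤ 1 / ε₁ := by positivity
    linarith
  have hWε : 1 / ε₁ ≤ W := by
    have : 0 ≤ C * 2 ^ d := by positivity
    linarith
  -- the condition on the exponent
  have hl : Filter.Tendsto (fun N : ℕ => (N : ℝ)) Filter.atTop Filter.atTop := tendsto_natCast_atTop_atTop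
  have h4 : Filter.Tendsto (fun N : ℕ => (N : ℝ) ^ (d * (ν' - ν))) Filter.atTop Filter.atTop :=
    (tendsto_rpow_atTop (mul_pos hd0 (by linarith))).comp hl
  obtain ⟨x₁, hx₁⟩ := Filter.eventually_atTop.1 (h4.eventually_ge_atTop ((2 * T : ℝ) ^ (d * ν') * (a * d * 2 ^ d)))
  -- H is large
  have h5 : Filter.Tendsto (fun N : ℕ => (N : ℝ) ^ (1 - d * ν)) Filter.atTop Filter.atTop :=
    (tendsto_rpow_atTop (by linarith)).comp hl
  obtain ⟨x₂, hx₂⟩ := Filter.eventually_atTop.1 (h5.eventually_ge_atTop ((C + a * d * C * 2 ^ (d - 1)) / ε₁))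
  -- logarithms
  obtain ⟨x₃, hx₃⟩ := Filter.eventually_atTop.1 ((Real.tendsto_log_atTop.comp hl).eventually_ge_atTop (Real.log ((f.eval 1 : ℕ) : ℝ) / ε₁))
  refine ⟨1 / (2 * (2 * j₀ : ℝ) ^ (d - 1)), by positivity, x₁ + x₂ + x₃ + T * (N₀ + W + 2) + 2 * T + j₀ * T + 3, ?_⟩
  intro x hx H hH1 hH2
  have hx3 : (3 : ℝ) ≤ x := by exact_mod_cast (by omega : 3 ≤ x)
  have hx0 : (0 : ℝ) < x := by linarith
  have hlogx : 0 < Real.log x := Real.log_pos (by linarith)
  set w : ℕ := x / T with hw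
  have hwT : w * T ≤ x := Nat.div_mul_le_self x T
  have hwT2 : x < (w + 1) * T := by
    have := Nat.lt_mul_div_succ x (by omega : 0 < T)
    rw [← hw] at this
    calc x < T * (w + 1) := this
      _ = _ := by ring
  have hwbig : N₀ + W + 2 ≤ w := by
    rw [hw, Nat.le_div_iff_mul_le (by omega)]
    calc (N₀ + W + 2) * T = T * (N₀ + W + 2) := by ring
      _ ≤ x := by omega
  have hw0 : (0 : ℝ) < w := by exact_mod_cast (by omega : 0 < w)
  have hw2 : (2 : ℝ) ≤ w := by exact_mod_cast (by omega : 2 ≤ w)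
  have hwW : (W : ℝ) ≤ w := by exact_mod_cast (by omega : W ≤ w)
  have hwTr : (w : ℝ) * T ≤ x := by exact_mod_cast hwT
  have hwT2r : (x : ℝ) < (w + 1) * T := by exact_mod_cast hwT2
  have hwhalf : (x : ℝ) ≤ 2 * T * w := by
    have h1 : (w : ℝ) + 1 ≤ 2 * w := by linarith
    calc (x : ℝ) ≤ (w + 1) * T := hwT2r.le
      _ ≤ (2 * w) * T := mul_le_mul_of_nonneg_right h1 hT0.le
      _ = _ := by ring
  have hsplit : (x : ℝ) ^ ((d : ℝ) - 1 - d * ν) = (x : ℝ) ^ (d - 2) * (x : ℝ) ^ (1 - d * ν) := by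
    rw [← Real.rpow_natCast, ← Real.rpow_add hx0]
    congr 1
    rw [Nat.cast_sub hf]; push_cast; ring
  have hHbig : (C + a * d * C * 2 ^ (d - 1)) * (x : ℝ) ^ (d - 2) ≤ ε₁ * H := by
    have h6 := hx₂ x (by omega)
    rw [div_le_iff₀ hε₁0] at h6
    calc (C + a * d * C * 2 ^ (d - 1)) * (x : ℝ) ^ (d - 2) ≤ ((x : ℝ) ^ (1 - d * ν) * ε₁) * (x : ℝ) ^ (d - 2) := by gcongr
      _ = ε₁ * ((x : ℝ) ^ (d - 2) * (x : ℝ) ^ (1 - d * ν)) := by ring
      _ = ε₁ * (x : ℝ) ^ ((d : ℝ) - 1 - d * ν) := by rw [hsplit]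
      _ ≤ ε₁ * H := mul_le_mul_of_nonneg_left hH1 hε₁0.le
  have hH0 : (0 : ℝ) < H := lt_of_lt_of_le (by positivity) hH1
  have hlog2 : (1 - ε₁) * (d * Real.log x + Real.log ((f.eval 1 : ℕ) : ℝ)) ≤ d * Real.log x := by
    have h2 : Real.log ((f.eval 1 : ℕ) : ℝ) / ε₁ ≤ Real.log x := hx₃ x (by omega)
    rw [div_le_iff₀ hε₁0] at h2
    have h3 : 0 ≤ Real.log ((f.eval 1 : ℕ) : ℝ) := Real.log_nonneg hf1r
    have h6 : Real.log x * ε₁ ≤ ε₁ * (d * Real.log x) := by nlinarith [mul_pos hε₁0 hlogx]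
    nlinarith
  -- each block
  have hblock : ∀ j ∈ Ico j₀ T, (1 - ε₁) ^ 5 * (w * H / (d * Real.log x)) ≤
      ∑ n ∈ Ico (j * w) ((j + 1) * w), (#{u ∈ Icc 1 H | (u + f.eval n).Prime} : ℝ) := by
    intro j hj
    rw [mem_Ico] at hj
    have hj0 : (0 : ℝ) < j := by exact_mod_cast (by omega : 0 < j)
    have hjj₀ : (j₀ : ℝ) ≤ j := by exact_mod_cast hj.1
    set y : ℕ := j * w with hy
    set y' : ℕ := (j + 1) * w with hy'
    have hyw : w ≤ y := by rw [hy]; exact Nat.le_mul_of_pos_left w (by omega)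
    have hywr : (w : ℝ) ≤ y := by exact_mod_cast hyw
    have hyr : (y : ℝ) = j * w := by rw [hy]; push_cast; ring
    have hy'r : (y' : ℝ) = (j + 1) * w := by rw [hy']; push_cast; ring
    have hy0 : (0 : ℝ) < y := by rw [hyr]; positivity
    have hy'0 : (0 : ℝ) < y' := by rw [hy'r]; positivity
    have hy1y' : y + 1 ≤ y' := by
      have : y' = y + w := by rw [hy, hy']; ring
      omega
    have hyy' : y ≤ y' := by omega
    have hyy'r : (y : ℝ) ≤ y' := by exact_mod_cast hyy'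
    have hy1 : (1 : ℝ) ≤ y := by exact_mod_cast (by omega : 1 ≤ y)
    have hy'x : (y' : ℝ) ≤ x := by
      rw [hy'r]
      calc ((j : ℝ) + 1) * w ≤ T * w := by
            apply mul_le_mul_of_nonneg_right _ hw0.le
            exact_mod_cast (by omega : j + 1 ≤ T)
        _ = w * T := by ring
        _ ≤ x := hwTr
    have hy'xn : y' ≤ x := by exact_mod_cast hy'x
    have hyβ : (y' : ℝ) + β ≤ (j + 2) * w := by
      rw [hy'r]; linarith
    have hy2 : (y' : ℝ) + β ≤ 2 * y := by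
      rw [hyr]
      have h6 : (j : ℝ) + 2 ≤ 2 * j := by linarith
      calc (y' : ℝ) + β ≤ (j + 2) * w := hyβ
        _ ≤ (2 * j) * w := mul_le_mul_of_nonneg_right h6 hw0.le
        _ = _ := by ring
    have hyβ0 : 0 < (y' : ℝ) + β := by linarith
    set P : ℝ := ((y' : ℝ) + β) ^ (d - 1) with hP
    have hP0 : 0 < P := by positivity
    have hPy : (y' : ℝ) ^ (d - 1) ≤ P := pow_le_pow_left₀ hy'0.le (by linarith) _
    set η : ℝ := (1 - ε₁) * H / (a * d * P) with hη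
    have h1ε : 0 < 1 - ε₁ := by linarith
    have hη0 : 0 < η := by positivity
    set s : ℝ := C / y with hs
    have hs0 : 0 < s := by positivity
    have hxy' : (x : ℝ) ≤ 2 * j₀ * y' := by
      calc (x : ℝ) ≤ 2 * T * w := hwhalf
        _ = 2 * j₀ * (j₀ * w) := by rw [hT]; push_cast; ring
        _ ≤ 2 * j₀ * y' := by
            apply mul_le_mul_of_nonneg_left _ (by positivity)
            rw [hy'r]
            apply mul_le_mul_of_nonneg_right _ hw0.le
            linarith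
    have c6 : η ≤ 1 / 2 := by
      rw [hη, div_le_iff₀ (by positivity)]
      calc (1 - ε₁) * H ≤ 1 * H := mul_le_mul_of_nonneg_right (by linarith) hH0.le
        _ = H := one_mul _
        _ ≤ 1 / (2 * (2 * j₀ : ℝ) ^ (d - 1)) * (x : ℝ) ^ (d - 1) := hH2
        _ ≤ 1 / (2 * (2 * j₀ : ℝ) ^ (d - 1)) * (2 * j₀ * y') ^ (d - 1) := by gcongr
        _ = 1 / 2 * (1 * (y' : ℝ) ^ (d - 1)) := by rw [mul_pow (2 * j₀ : ℝ) (y' : ℝ)]; field_simp
        _ ≤ 1 / 2 * (a * d * P) := by gcongr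
    have hs2 : s ≤ 1 / 2 := by
      rw [hs, div_le_iff₀ hy0]; linarith
    have hsy : C ≤ s * y := by rw [hs, div_mul_cancel₀ _ hy0.ne']
    have hbig : C * ((y : ℝ) + 1) ^ (d - 2) ≤ (y : ℝ) ^ (d - 1) := by
      calc C * ((y : ℝ) + 1) ^ (d - 2) ≤ C * (2 * y) ^ (d - 2) := by
            apply mul_le_mul_of_nonneg_left _ hC0.le
            exact pow_le_pow_left₀ (by linarith) (by linarith) _
        _ = C * 2 ^ (d - 2) * (y : ℝ) ^ (d - 2) := by rw [mul_pow]; ring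
        _ ≤ C * 2 ^ d * (y : ℝ) ^ (d - 2) := by
            apply mul_le_mul_of_nonneg_right _ (by positivity)
            apply mul_le_mul_of_nonneg_left _ hC0.le
            exact pow_le_pow_right₀ (by norm_num) (by omega)
        _ ≤ y * (y : ℝ) ^ (d - 2) := by
            apply mul_le_mul_of_nonneg_right _ (by positivity)
            linarith
        _ = (y : ℝ) ^ (d - 1) := by
            rw [← pow_succ']; congr 1; omega
    have hsP : s * P ≤ C * 2 ^ (d - 1) * (x : ℝ) ^ (d - 2) := by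
      have h6 : P ≤ (2 * y) ^ (d - 1) := pow_le_pow_left₀ hyβ0.le hy2 _
      calc s * P ≤ s * (2 * y) ^ (d - 1) := mul_le_mul_of_nonneg_left h6 hs0.le
        _ = C / y * (2 ^ (d - 1) * ((y : ℝ) ^ (d - 2) * y)) := by
            rw [mul_pow, ← pow_succ]
            congr 4; omega
        _ = C * 2 ^ (d - 1) * (y : ℝ) ^ (d - 2) := by field_simp
        _ ≤ C * 2 ^ (d - 1) * (x : ℝ) ^ (d - 2) := by
            apply mul_le_mul_of_nonneg_left _ (by positivity)
            exact pow_le_pow_left₀ hy0.le (by linarith) _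
    have hηP : a * (d * η * P) = (1 - ε₁) * H := by rw [hη]; field_simp
    have hηH : C * (y' : ℝ) ^ (d - 2) + a * (d * (s + η) * P) ≤ H := by
      have h6 : C * (y' : ℝ) ^ (d - 2) ≤ C * (x : ℝ) ^ (d - 2) := by
        apply mul_le_mul_of_nonneg_left _ hC0.le
        exact pow_le_pow_left₀ hy'0.le hy'x _
      have h7 : a * (d * (s + η) * P) = a * d * (s * P) + a * (d * η * P) := by ring
      have h8 : a * d * (s * P) ≤ a * d * (C * 2 ^ (d - 1) * (x : ℝ) ^ (d - 2)) := mul_le_mul_of_nonneg_left hsP (by positivity)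
      have h9 : C * (x : ℝ) ^ (d - 2) + a * d * (C * 2 ^ (d - 1) * (x : ℝ) ^ (d - 2)) = (C + a * d * C * 2 ^ (d - 1)) * (x : ℝ) ^ (d - 2) := by ring
      rw [h7, hηP]
      linarith
    have hbc := block_count_g f hf C lam β hC0 hlam0 hβ0 hlam2 happ y y' H η s (by omega) hyy' hs0 hsy hs2 hη0.le c6 hbig hηH
    refine le_trans ?_ hbc
    -- conditions
    have hgep : ((y : ℝ) + 1) ^ d ≤ ((f.eval (y + 1) : ℕ) : ℝ) := by exact_mod_cast eval_ge_pow f (by omega) (y + 1)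
    have c1 : N₀ ≤ f.eval (y + 1) := by
      have h6 := eval_ge_pow f (by omega) (y + 1)
      have h7 : y + 1 ≤ (y + 1) ^ f.natDegree := Nat.le_self_pow (by omega) _
      exact (by omega : N₀ ≤ y + 1).trans (h7.trans h6)
    have c2 : f.eval (y + 1) ≤ f.eval y' := eval_mono_nat f hy1y'
    have c3 : f.eval y' ≤ 2 * f.eval (y + 1) := by
      have hj1 : (1 : ℝ) ≤ 1 + 1 / j := by
        have : 0 ≤ 1 / (j : ℝ) := by positivity
        linarith
      have hj2 : (y' : ℝ) ≤ (1 + 1 / j) * y := by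
        apply le_of_eq
        rw [hy'r, hyr]; field_simp
      have h6 := eval_ratio f y y' (1 + 1 / j) hj1 hj2
      have h7 : (1 + 1 / (j : ℝ)) ^ d ≤ 2 := by
        have h8 : (1 + 1 / (j : ℝ)) ^ d ≤ Real.exp (1 / 2) := by
          calc (1 + 1 / (j : ℝ)) ^ d ≤ (Real.exp (1 / j)) ^ d := by
                apply pow_le_pow_left₀ (by positivity)
                have := Real.add_one_le_exp (1 / (j : ℝ))
                linarith
            _ = Real.exp (d * (1 / j)) := (Real.exp_nat_mul _ _).symm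
            _ ≤ Real.exp (1 / 2) := by
                apply Real.exp_le_exp.2
                rw [mul_one_div, div_le_div_iff₀ hj0 (by norm_num)]
                linarith
        have h9 : Real.exp (1 / 2) ≤ 2 := by
          have h10 : Real.exp (1 / 2) ^ 2 ≤ 2 ^ 2 := by
            rw [← Real.exp_nat_mul]
            have := Real.exp_one_lt_d9
            norm_num at this ⊢
            linarith
          exact (pow_le_pow_iff_left₀ (Real.exp_pos _).le (by norm_num) (by norm_num)).1 h10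
        exact h8.trans h9
      have h8 : ((f.eval y : ℕ) : ℝ) ≤ ((f.eval (y + 1) : ℕ) : ℝ) := by exact_mod_cast eval_mono_nat f (Nat.le_succ y)
      have h9 : ((f.eval y' : ℕ) : ℝ) ≤ 2 * ((f.eval (y + 1) : ℕ) : ℝ) := by
        calc ((f.eval y' : ℕ) : ℝ) ≤ (1 + 1 / (j : ℝ)) ^ d * ((f.eval y : ℕ) : ℝ) := h6
          _ ≤ 2 * ((f.eval y : ℕ) : ℝ) := mul_le_mul_of_nonneg_right h7 (Nat.cast_nonneg _)
          _ ≤ _ := by linarith
      exact_mod_cast h9
    have hdiff : a * d * ((w : ℝ) - 1) * (y : ℝ) ^ (d - 1) ≤ ((f.eval y' : ℕ) : ℝ) - ((f.eval (y + 1) : ℕ) : ℝ) := by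
      have h6 := eval_diff f (y + 1) y' hy1y'
      push_cast at h6
      have h7 := pow_sub_ge (d - 1) ((y : ℝ) + 1) ((w : ℝ) - 1) (by linarith) (by linarith)
      have e1 : (y : ℝ) + 1 + ((w : ℝ) - 1) = y' := by rw [hy'r, hyr]; ring
      have e2 : d - 1 + 1 = d := by omega
      rw [e1, e2, Nat.cast_sub (by omega : 1 ≤ d)] at h7
      have h8 : (y : ℝ) ^ (d - 1) ≤ ((y : ℝ) + 1) ^ (d - 1) := pow_le_pow_left₀ hy0.le (by linarith) _
      have h9 : (d : ℝ) * ((w : ℝ) - 1) * (y : ℝ) ^ (d - 1) ≤ (y' : ℝ) ^ d - ((y : ℝ) + 1) ^ d := by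
        have h10 : (d : ℝ) * ((w : ℝ) - 1) * (y : ℝ) ^ (d - 1) ≤ d * ((w : ℝ) - 1) * ((y : ℝ) + 1) ^ (d - 1) :=
          mul_le_mul_of_nonneg_left h8 (mul_nonneg hd0.le (by linarith))
        have e3 : ((d : ℝ) - ((1 : ℕ) : ℝ) + 1) = d := by push_cast; ring
        rw [e3] at h7
        linarith
      calc a * d * ((w : ℝ) - 1) * (y : ℝ) ^ (d - 1) = a * (d * ((w : ℝ) - 1) * (y : ℝ) ^ (d - 1)) := by ring
        _ ≤ a * ((y' : ℝ) ^ d - ((y : ℝ) + 1) ^ d) := mul_le_mul_of_nonneg_left h9 ha0.le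
        _ ≤ _ := h6
    have c4 : f.eval (y + 1) ≤ B * (f.eval y' - f.eval (y + 1)) := by
      have h1 : ((f.eval (y + 1) : ℕ) : ℝ) ≤ B * (((f.eval y' : ℕ) : ℝ) - ((f.eval (y + 1) : ℕ) : ℝ)) := by
        have h2 : (y : ℝ) ≤ T * w := by
          rw [hyr]
          apply mul_le_mul_of_nonneg_right _ hw0.le
          exact_mod_cast hj.2.le
        have h6 : ((f.eval (y + 1) : ℕ) : ℝ) ≤ ((f.eval 1 : ℕ) : ℝ) * ((y : ℝ) + 1) ^ d := by
          exact_mod_cast eval_le_one f (y + 1) (by omega)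
        have h7 : (w : ℝ) * (y : ℝ) ^ (d - 1) ≤ a * d * ((w : ℝ) - 1) * (y : ℝ) ^ (d - 1) := by
          apply mul_le_mul_of_nonneg_right _ (by positivity)
          have h8 : (2 : ℝ) ≤ a * d := by nlinarith
          have h9 : 2 * ((w : ℝ) - 1) ≤ a * d * ((w : ℝ) - 1) := mul_le_mul_of_nonneg_right h8 (by linarith)
          linarith
        calc ((f.eval (y + 1) : ℕ) : ℝ) ≤ ((f.eval 1 : ℕ) : ℝ) * ((y : ℝ) + 1) ^ d := h6
          _ ≤ ((f.eval 1 : ℕ) : ℝ) * (2 * y) ^ d := by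
              apply mul_le_mul_of_nonneg_left _ (Nat.cast_nonneg _)
              exact pow_le_pow_left₀ (by linarith) (by linarith) _
          _ = ((f.eval 1 : ℕ) : ℝ) * 2 ^ d * (y * (y : ℝ) ^ (d - 1)) := by
              rw [mul_pow, ← pow_succ']
              have : d - 1 + 1 = d := by omega
              rw [this]; ring
          _ ≤ ((f.eval 1 : ℕ) : ℝ) * 2 ^ d * ((T * w) * (y : ℝ) ^ (d - 1)) := by gcongr
          _ = B * (w * (y : ℝ) ^ (d - 1)) := by rw [hB]; push_cast; ring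
          _ ≤ B * (((f.eval y' : ℕ) : ℝ) - ((f.eval (y + 1) : ℕ) : ℝ)) := by
              apply mul_le_mul_of_nonneg_left _ (Nat.cast_nonneg _)
              linarith
      have h2 : ((f.eval (y + 1) : ℕ) : ℝ) ≤ ((B * (f.eval y' - f.eval (y + 1)) : ℕ) : ℝ) := by
        rw [Nat.cast_mul, Nat.cast_sub c2]; exact h1
      exact_mod_cast h2
    have c5 : ((f.eval (y + 1) : ℕ) : ℝ) ^ (-ν') ≤ η := by
      have h1 : ((f.eval (y + 1) : ℕ) : ℝ) ^ (-ν') ≤ (y : ℝ) ^ (-(d * ν')) := by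
        have h2 : (y : ℝ) ^ (-(d * ν')) = ((y : ℝ) ^ d) ^ (-ν') := by
          rw [← Real.rpow_natCast, ← Real.rpow_mul hy0.le]; congr 1; ring
        rw [h2]
        apply Real.rpow_le_rpow_of_nonpos (by positivity) _ (by linarith)
        exact (pow_le_pow_left₀ hy0.le (by linarith) _).trans hgep
      have h2 : (y : ℝ) ^ (-(d * ν')) ≤ (x / (2 * T) : ℝ) ^ (-(d * ν')) := by
        have h6 : 0 < d * ν' := mul_pos hd0 hν'0
        apply Real.rpow_le_rpow_of_nonpos (by positivity) _ (by linarith)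
        rw [div_le_iff₀ (by positivity)]
        calc (x : ℝ) ≤ 2 * T * w := hwhalf
          _ = w * (2 * T) := by ring
          _ ≤ y * (2 * T) := mul_le_mul_of_nonneg_right hywr (by positivity)
      have h3 : (x / (2 * T) : ℝ) ^ (-(d * ν')) = (x : ℝ) ^ (-(d * ν')) * (2 * T : ℝ) ^ (d * ν') := by
        rw [Real.div_rpow hx0.le (by positivity), Real.rpow_neg (by positivity : (0 : ℝ) ≤ 2 * T), div_inv_eq_mul]
      have h6 : (2 * T : ℝ) ^ (d * ν') * (a * d * 2 ^ d) ≤ (x : ℝ) ^ (d * (ν' - ν)) := hx₁ x (by omega)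
      refine h1.trans (h2.trans ?_)
      rw [h3, hη, le_div_iff₀ (by positivity)]
      have h7 : P ≤ 2 ^ (d - 1) * (x : ℝ) ^ (d - 1) := by
        rw [← mul_pow]
        apply pow_le_pow_left₀ hyβ0.le
        linarith
      have h8 : (1 / 2 : ℝ) * H ≤ (1 - ε₁) * H := mul_le_mul_of_nonneg_right (by linarith) hH0.le
      have h9 : (2 : ℝ) ^ (d - 1) * 2 = 2 ^ d := by rw [← pow_succ]; congr 1; omega
      calc (x : ℝ) ^ (-(d * ν')) * (2 * T : ℝ) ^ (d * ν') * (a * d * P)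
          ≤ (x : ℝ) ^ (-(d * ν')) * (2 * T : ℝ) ^ (d * ν') * (a * d * (2 ^ (d - 1) * (x : ℝ) ^ (d - 1))) := by gcongr
        _ = (x : ℝ) ^ (-(d * ν')) * ((2 * T : ℝ) ^ (d * ν') * (a * d * ((2 : ℝ) ^ (d - 1) * 2))) * (x : ℝ) ^ (d - 1) / 2 := by ring
        _ = (x : ℝ) ^ (-(d * ν')) * ((2 * T : ℝ) ^ (d * ν') * (a * d * 2 ^ d)) * (x : ℝ) ^ (d - 1) / 2 := by rw [h9]
        _ ≤ (x : ℝ) ^ (-(d * ν')) * (x : ℝ) ^ (d * (ν' - ν)) * (x : ℝ) ^ (d - 1) / 2 := by gcongr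
        _ = (x : ℝ) ^ ((d : ℝ) - 1 - d * ν) / 2 := by
            rw [← Real.rpow_natCast (x : ℝ) (d - 1), ← Real.rpow_add hx0, ← Real.rpow_add hx0]
            congr 2
            rw [Nat.cast_sub (by omega : 1 ≤ d)]; push_cast; ring
        _ ≤ H / 2 := by linarith
        _ = 1 / 2 * H := by ring
        _ ≤ _ := h8
    have hfc := hN₀ (f.eval (y + 1)) c1 (f.eval y') c2 c3 c4 (β + s) η c5 c6
    refine le_trans ?_ hfc
    -- final comparison
    have hNpos : (1 : ℝ) < ((f.eval y' : ℕ) : ℝ) := by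
      have h6 := eval_ge_pow f (by omega) y'
      have h7 : y' ≤ y' ^ f.natDegree := Nat.le_self_pow (by omega) _
      have h8 : 1 < f.eval y' := lt_of_lt_of_le (by omega : 1 < y') (h7.trans h6)
      exact_mod_cast h8
    have hlogy'0 : 0 < Real.log ((f.eval y' : ℕ) : ℝ) := Real.log_pos hNpos
    have hlogy' : (1 - ε₁) * Real.log ((f.eval y' : ℕ) : ℝ) ≤ d * Real.log x := by
      refine le_trans ?_ hlog2
      apply mul_le_mul_of_nonneg_left _ (by linarith)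
      have h6 : ((f.eval y' : ℕ) : ℝ) ≤ ((f.eval 1 : ℕ) : ℝ) * (x : ℝ) ^ d := by
        have h7 : f.eval y' ≤ f.eval 1 * x ^ d := (eval_mono_nat f hy'xn).trans (eval_le_one f x (by omega))
        exact_mod_cast h7
      calc Real.log ((f.eval y' : ℕ) : ℝ) ≤ Real.log (((f.eval 1 : ℕ) : ℝ) * (x : ℝ) ^ d) := Real.log_le_log (by linarith) h6
        _ = d * Real.log x + Real.log ((f.eval 1 : ℕ) : ℝ) := by
            rw [Real.log_mul (by linarith) (by positivity), Real.log_pow]; ring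
    have hyratio : (1 - ε₁) * P ≤ (y : ℝ) ^ (d - 1) := by
      have h1 : (1 - ε₁) ≤ ((j : ℝ) / (j + 2)) ^ (d - 1) := by
        have h6 := one_add_mul_le_pow (a := -(2 / ((j : ℝ) + 2))) (by
          have : 2 / ((j : ℝ) + 2) ≤ 1 := by rw [div_le_one (by positivity)]; linarith
          linarith) (d - 1)
        have e1 : 1 + -(2 / ((j : ℝ) + 2)) = (j : ℝ) / (j + 2) := by field_simp; ring
        rw [e1] at h6
        refine le_trans ?_ h6
        rw [Nat.cast_sub (by omega : 1 ≤ d)]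
        push_cast
        have h7 : ((d : ℝ) - 1) * (2 / ((j : ℝ) + 2)) ≤ ε₁ := by
          rw [mul_div_assoc', div_le_iff₀ (by positivity)]
          have h8 : j₀ * ε₁ ≤ ε₁ * (j + 2) := by
            calc (j₀ : ℝ) * ε₁ ≤ (j + 2) * ε₁ := mul_le_mul_of_nonneg_right (by linarith) hε₁0.le
              _ = _ := by ring
          linarith
        linarith
      calc (1 - ε₁) * P ≤ ((j : ℝ) / (j + 2)) ^ (d - 1) * ((j + 2) * w) ^ (d - 1) := by
            apply mul_le_mul h1 (pow_le_pow_left₀ hyβ0.le hyβ _) hP0.le (by positivity)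
        _ = (y : ℝ) ^ (d - 1) := by
            rw [← mul_pow, hyr]; congr 1; field_simp
    have hfin : (1 - ε₁) ^ 4 * (w * H / (d * Real.log x)) ≤
        η * (((f.eval y' : ℕ) : ℝ) - ((f.eval (y + 1) : ℕ) : ℝ)) / Real.log ((f.eval y' : ℕ) : ℝ) := by
      have e1 : (1 - ε₁) ^ 3 * (w * H) ≤ η * (((f.eval y' : ℕ) : ℝ) - ((f.eval (y + 1) : ℕ) : ℝ)) := by
        have h6 : (1 - ε₁) * w ≤ (w : ℝ) - 1 := by
          have h7 : 1 / ε₁ ≤ w := hWε.trans hwW
          rw [div_le_iff₀ hε₁0] at h7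
          linarith
        calc (1 - ε₁) ^ 3 * (w * H) = (1 - ε₁) * H * ((1 - ε₁) * w) * (1 - ε₁) := by ring
          _ ≤ (1 - ε₁) * H * ((w : ℝ) - 1) * (1 - ε₁) := by gcongr
          _ = η * (a * d * ((w : ℝ) - 1) * ((1 - ε₁) * P)) := by rw [hη]; field_simp
          _ ≤ η * (a * d * ((w : ℝ) - 1) * (y : ℝ) ^ (d - 1)) := by
              apply mul_le_mul_of_nonneg_left _ hη0.le
              apply mul_le_mul_of_nonneg_left hyratio
              exact mul_nonneg (by positivity) (by linarith)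
          _ ≤ _ := mul_le_mul_of_nonneg_left hdiff hη0.le
      have e2 : (1 - ε₁) / (d * Real.log x) ≤ 1 / Real.log ((f.eval y' : ℕ) : ℝ) := by
        rw [div_le_div_iff₀ (by positivity) hlogy'0]
        linarith
      calc (1 - ε₁) ^ 4 * (w * H / (d * Real.log x)) = ((1 - ε₁) ^ 3 * (w * H)) * ((1 - ε₁) / (d * Real.log x)) := by ring
        _ ≤ ((1 - ε₁) ^ 3 * (w * H)) * (1 / Real.log ((f.eval y' : ℕ) : ℝ)) :=
            mul_le_mul_of_nonneg_left e2 (by positivity)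
        _ ≤ (η * (((f.eval y' : ℕ) : ℝ) - ((f.eval (y + 1) : ℕ) : ℝ))) * (1 / Real.log ((f.eval y' : ℕ) : ℝ)) :=
            mul_le_mul_of_nonneg_right e1 (by positivity)
        _ = _ := by ring
    calc (1 - ε₁) ^ 5 * (w * H / (d * Real.log x)) = (1 - ε₁) * ((1 - ε₁) ^ 4 * (w * H / (d * Real.log x))) := by ring
      _ ≤ _ := mul_le_mul_of_nonneg_left hfin (by linarith)
  -- sum over the blocks
  have hsum : ∑ j ∈ Ico j₀ T, ∑ n ∈ Ico (j * w) ((j + 1) * w), (#{u ∈ Icc 1 H | (u + f.eval n).Prime} : ℝ) ≤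
      ∑ n ∈ Icc 1 x, (#{u ∈ Icc 1 H | (u + f.eval n).Prime} : ℝ) := by
    have hmid : ∀ T' : ℕ, j₀ ≤ T' → ∑ j ∈ Ico j₀ T', ∑ n ∈ Ico (j * w) ((j + 1) * w), (#{u ∈ Icc 1 H | (u + f.eval n).Prime} : ℝ) =
        ∑ n ∈ Ico (j₀ * w) (T' * w), (#{u ∈ Icc 1 H | (u + f.eval n).Prime} : ℝ) := by
      intro T' hT'
      induction T', hT' using Nat.le_induction with
      | base => simp
      | succ m hm ih =>
        rw [sum_Ico_succ_top hm, ih, sum_Ico_consecutive]
        · exact Nat.mul_le_mul_right _ hm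
        · exact Nat.mul_le_mul_right _ (by omega)
    rw [hmid T hTj]
    apply sum_le_sum_of_subset_of_nonneg
    · intro n hn
      rw [mem_Ico] at hn
      rw [mem_Icc]
      have h1 : 1 ≤ j₀ * w := Nat.mul_pos (by omega) (by omega)
      have h2 : T * w ≤ x := by rw [mul_comm]; exact hwT
      omega
    · intro n _ _; positivity
  refine le_trans ?_ hsum
  refine le_trans ?_ (sum_le_sum hblock)
  rw [sum_const, Nat.card_Ico, nsmul_eq_mul, Nat.cast_sub hTj]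
  -- (T - j0) w ≥ (1-ε₁)² x
  have h5 : (1 - ε₁) ^ 2 * x ≤ ((T : ℝ) - j₀) * w := by
    have hj1 : (1 : ℝ) ≤ j₀ * ε₁ := by linarith
    have h6 : (1 - ε₁) * x ≤ T * w := by
      have h7 : (x : ℝ) - T ≤ T * w := by
        have : (w + 1 : ℝ) * T = T * w + T := by ring
        linarith
      have h8 : (T : ℝ) ≤ ε₁ * x := by
        have h9 : (j₀ : ℝ) * T ≤ x := by exact_mod_cast (by omega : j₀ * T ≤ x)
        calc (T : ℝ) = T * 1 := by ring
          _ ≤ T * (j₀ * ε₁) := mul_le_mul_of_nonneg_left hj1 hT0.le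
          _ = (j₀ * T) * ε₁ := by ring
          _ ≤ x * ε₁ := mul_le_mul_of_nonneg_right h9 hε₁0.le
          _ = _ := by ring
      linarith
    have h7 : (1 - ε₁) * (T : ℝ) ≤ T - j₀ := by
      have h8 : (j₀ : ℝ) ≤ ε₁ * T := by
        rw [hT]; push_cast
        calc (j₀ : ℝ) = j₀ * 1 := by ring
          _ ≤ j₀ * (j₀ * ε₁) := mul_le_mul_of_nonneg_left hj1 hj₀0.le
          _ = _ := by ring
      linarith
    calc (1 - ε₁) ^ 2 * x = (1 - ε₁) * ((1 - ε₁) * x) := by ring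
      _ ≤ (1 - ε₁) * (T * w) := mul_le_mul_of_nonneg_left h6 (by linarith)
      _ = ((1 - ε₁) * T) * w := by ring
      _ ≤ _ := mul_le_mul_of_nonneg_right h7 hw0.le
  have h6 : (1 - ε) ≤ (1 - ε₁) ^ 7 := by
    have := one_add_mul_le_pow (a := -ε₁) (by linarith) 7
    push_cast at this
    have h7 : (1 + -ε₁) ^ 7 = (1 - ε₁) ^ 7 := by ring
    rw [h7] at this
    linarith
  calc (1 - ε) * (x * H / (d * Real.log x)) ≤ (1 - ε₁) ^ 7 * (x * H / (d * Real.log x)) :=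
        mul_le_mul_of_nonneg_right h6 (by positivity)
    _ = (1 - ε₁) ^ 5 * (((1 - ε₁) ^ 2 * x) * (H / (d * Real.log x))) := by ring
    _ ≤ (1 - ε₁) ^ 5 * ((((T : ℝ) - j₀) * w) * (H / (d * Real.log x))) := by
        apply mul_le_mul_of_nonneg_left _ (by positivity)
        exact mul_le_mul_of_nonneg_right h5 (by positivity)
    _ = _ := by ring

end Pool.Agent.H373R2.T4
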