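import Mathlib
import Pool.Agent.H373R2.T4.FirstG
import Pool.Agent.H373R2.T3.Core2
import Pool.Agent.H373R2.SH.ShiftMain

namespace Pool.Agent.H373R2.T4
open Finset Polynomial
open Pool.Agent.H373R2.SH
open Pool.Agent.H373R2.T3 (core_B)
open Pool.Agent.H373R2.BH (BHFamily omegaP eulerProduct primeCount card_filter_real BHFamily_of_many)

open Classical in
/-- positive proportion of tuples of shifts of a polynomial in a short range of shifts -/
theorem near_main_g (k : ℕ) (hk : 1 ≤ k) (f : ℕ[X]) (hf : 2 ≤ f.natDegree) (ν : ℝ) (hν0 : 0 < ν) (hν1 : 4 * ν < 1)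
    (hν2 : 2 * ν < 1 - 1 / (f.natDegree : ℝ)) (hν3 : ν < 1 / (f.natDegree : ℝ)) (θ : ℝ) (hθ0 : 0 < θ) (hθ1 : θ < 1) :
    ∃ c : ℝ, 0 < c ∧ ∃ y₀ x₀ : ℕ, ∀ x : ℕ, x₀ ≤ x → ∀ H : ℕ, (x : ℝ) ^ ((f.natDegree : ℝ) - 1 - f.natDegree * ν) ≤ H →
      H ≤ x ^ f.natDegree → ∀ z : ℕ, y₀ ≤ z → z ^ 6 ≤ H →
      c * (H : ℝ) ^ k ≤ #((Sx (fun _ : Fin k => H)).filter (fun h =>
        θ * sgS (fun _ n => f.eval n) h z * (x / (f.natDegree * Real.log x) ^ k) ≤ cntS (fun _ n => f.eval n) h x ∧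
        c * (x / (Real.log x) ^ k) ≤ cntS (fun _ n => f.eval n) h x ∧ Function.Injective h)) := by
  obtain ⟨ε₁, hε₁, c₁, hc₁, y₀, x₁, hcore⟩ := core_B 2 (by norm_num) hk f (by omega) θ hθ0 hθ1
  obtain ⟨K, x₂, hK1, hfirst⟩ := firstT f (by omega) ε₁ hε₁
  obtain ⟨c₂, hc₂, x₃, hshort⟩ := firstShort_g f hf ν hν0 hν1 hν2 hν3 ε₁ hε₁
  set d : ℕ := f.natDegree with hd
  have hd0 : (0 : ℝ) < d := by exact_mod_cast (by omega : 0 < d)
  have hd2 : (2 : ℝ) ≤ d := by exact_mod_cast hf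
  have hdν : (d : ℝ) * ν < 1 := by
    rw [lt_div_iff₀ hd0] at hν3; linarith
  have hexp : 1 / 2 ≤ (d : ℝ) - 1 - d * ν := by
    have h1 : (d : ℝ) * (2 * ν) < d * (1 - 1 / d) := mul_lt_mul_of_pos_left hν2 hd0
    have h2 : (d : ℝ) * (1 - 1 / d) = d - 1 := by field_simp
    rw [h2] at h1
    linarith
  have hKr : (1 : ℝ) ≤ K := by exact_mod_cast hK1
  set lam : ℝ := min c₂ 1 / (2 * K) with hlam
  have hlam0 : 0 < lam := by positivity
  have hlam1 : lam ≤ 1 := by
    rw [hlam, div_le_one (by positivity)]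
    have := min_le_right c₂ 1
    linarith
  obtain ⟨y₁, hy₁⟩ := exists_nat_gt (1 / lam)
  -- largeness of x
  have hl : Filter.Tendsto (fun N : ℕ => (N : ℝ)) Filter.atTop Filter.atTop := tendsto_natCast_atTop_atTop
  have h4 : Filter.Tendsto (fun N : ℕ => (N : ℝ) ^ (d * ν)) Filter.atTop Filter.atTop :=
    (tendsto_rpow_atTop (by positivity)).comp hl
  obtain ⟨x₄, hx₄⟩ := Filter.eventually_atTop.1 (h4.eventually_ge_atTop (2 / min c₂ 1))
  obtain ⟨x₅, hx₅⟩ := exists_nat_gt (2 / min c₂ 1)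
  have hmin0 : 0 < min c₂ 1 := lt_min hc₂ one_pos
  set c : ℝ := c₁ * lam ^ k / (d : ℝ) ^ k with hc
  have hc0 : 0 < c := by positivity
  have hdk : (1 : ℝ) ≤ (d : ℝ) ^ k := one_le_pow₀ (by linarith)
  have hlamk : lam ^ k ≤ 1 := pow_le_one₀ hlam0.le hlam1
  have hcc₁ : c ≤ c₁ * lam ^ k := by
    rw [hc, div_le_iff₀ (by positivity)]
    have : 0 ≤ c₁ * lam ^ k := by positivity
    nlinarith
  have hcc₂ : c ≤ c₁ / (d : ℝ) ^ k := by
    rw [hc]
    apply div_le_div_of_nonneg_right _ (by positivity)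
    nlinarith
  refine ⟨c, hc0, y₀ + y₁ + 1, x₁ + x₂ + x₃ + x₄ + x₅ + 3, fun x hx H hH1 hH2 z hz hz6 => ?_⟩
  have hx3 : (3 : ℝ) ≤ x := by exact_mod_cast (by omega : 3 ≤ x)
  have hx0 : (0 : ℝ) < x := by linarith
  have hx1 : (1 : ℝ) ≤ x := by linarith
  have hlogx : 0 < Real.log x := Real.log_pos (by linarith)
  -- H is at least the square root of x
  have hroot : ∀ h : ℕ, (x : ℝ) ^ ((d : ℝ) - 1 - d * ν) ≤ h → x ≤ h ^ 2 := by
    intro h hh
    have h1 : (x : ℝ) ^ (1 / 2 : ℝ) ≤ h :=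
      le_trans (Real.rpow_le_rpow_of_exponent_le hx1 hexp) hh
    have h2 : (x : ℝ) ≤ (h : ℝ) ^ 2 := by
      calc (x : ℝ) = ((x : ℝ) ^ (1 / 2 : ℝ)) ^ 2 := by
            rw [← Real.rpow_natCast, ← Real.rpow_mul hx0.le]; norm_num
        _ ≤ _ := pow_le_pow_left₀ (by positivity) h1 2
    exact_mod_cast h2
  -- the general step
  have hstep : ∀ h : ℕ, h ≤ H → lam * H ≤ h → (x : ℝ) ^ ((d : ℝ) - 1 - d * ν) ≤ h → z ^ 5 ≤ h →
      (1 - ε₁) * (x * h / (d * Real.log x)) ≤ ∑ n ∈ Icc 1 x, (#{u ∈ Icc 1 h | (u + f.eval n).Prime} : ℝ) →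
      c * (H : ℝ) ^ k ≤ #((Sx (fun _ : Fin k => H)).filter (fun h =>
        θ * sgS (fun _ n => f.eval n) h z * (x / (d * Real.log x) ^ k) ≤ cntS (fun _ n => f.eval n) h x ∧
        c * (x / (Real.log x) ^ k) ≤ cntS (fun _ n => f.eval n) h x ∧ Function.Injective h)) := by
    intro h hhH hlamh hxh hz5 hfm
    have h1 := hcore x (by omega) h (hroot h hxh) hfm z (by omega) hz5
    have h2 : c * (H : ℝ) ^ k ≤ c₁ * (h : ℝ) ^ k := by
      calc c * (H : ℝ) ^ k ≤ (c₁ * lam ^ k) * (H : ℝ) ^ k := mul_le_mul_of_nonneg_right hcc₁ (by positivity)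
        _ = c₁ * (lam * H) ^ k := by rw [mul_pow]; ring
        _ ≤ _ := mul_le_mul_of_nonneg_left (pow_le_pow_left₀ (by positivity) hlamh k) hc₁.le
    refine h2.trans (h1.trans ?_)
    rw [Nat.cast_le]
    apply card_le_card
    intro a ha
    rw [mem_filter] at ha ⊢
    obtain ⟨ha1, ha2, ha3, ha4⟩ := ha
    refine ⟨?_, ha2, ?_, ha4⟩
    · rw [mem_Sx] at ha1 ⊢
      exact fun i => ⟨(ha1 i).1, (ha1 i).2.trans hhH⟩
    · refine le_trans ?_ ha3
      calc c * (x / (Real.log x) ^ k) ≤ c₁ / (d : ℝ) ^ k * (x / (Real.log x) ^ k) := mul_le_mul_of_nonneg_right hcc₂ (by positivity)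
        _ = c₁ * (x / (d * Real.log x) ^ k) := by rw [mul_pow]; field_simp
  have hz1 : 1 ≤ z := by omega
  have hz5 : z ^ 5 ≤ H := (Nat.pow_le_pow_right hz1 (by norm_num)).trans hz6
  have hH0 : (0 : ℝ) ≤ H := Nat.cast_nonneg H
  by_cases hcase : (H : ℝ) ≤ c₂ * (x : ℝ) ^ (d - 1)
  · apply hstep H le_rfl (by nlinarith) hH1 hz5
    exact hshort x (by omega) H hH1 hcase
  · by_cases hcase2 : K * x ^ (d - 1) ≤ H
    · apply hstep H le_rfl (by nlinarith) hH1 hz5
      exact hfirst x (by omega) H hcase2 hH2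
    · push Not at hcase hcase2
      have hxd1 : (x : ℝ) ≤ (x : ℝ) ^ (d - 1) := le_self_pow₀ hx1 (by omega)
      have hxd0 : (0 : ℝ) < (x : ℝ) ^ (d - 1) := by positivity
      have hbig : 2 ≤ min c₂ 1 * (x : ℝ) ^ (d - 1) := by
        have h1 : 2 / min c₂ 1 < x := hx₅.trans_le (by exact_mod_cast (by omega : x₅ ≤ x))
        rw [div_lt_iff₀ hmin0] at h1
        nlinarith
      set h : ℕ := ⌊min c₂ 1 * (x : ℝ) ^ (d - 1)⌋₊ with hh
      have hh1 : (h : ℝ) ≤ min c₂ 1 * (x : ℝ) ^ (d - 1) := Nat.floor_le (by positivity)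
      have hh2 : min c₂ 1 / 2 * (x : ℝ) ^ (d - 1) ≤ h := by
        have := (Nat.lt_floor_add_one (min c₂ 1 * (x : ℝ) ^ (d - 1))).le
        rw [← hh] at this
        linarith
      have hhH : h ≤ H := by
        have h1 : (h : ℝ) ≤ H := by
          refine hh1.trans (le_trans ?_ hcase.le)
          exact mul_le_mul_of_nonneg_right (min_le_left _ _) (by positivity)
        exact_mod_cast h1
      have hHK : (H : ℝ) ≤ K * (x : ℝ) ^ (d - 1) := by exact_mod_cast hcase2.le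
      have hlamh : lam * H ≤ h := by
        refine le_trans ?_ hh2
        calc lam * H ≤ lam * (K * (x : ℝ) ^ (d - 1)) := mul_le_mul_of_nonneg_left hHK hlam0.le
          _ = _ := by rw [hlam]; field_simp
      have hxh : (x : ℝ) ^ ((d : ℝ) - 1 - d * ν) ≤ h := by
        refine le_trans ?_ hh2
        have h1 : 2 / min c₂ 1 ≤ (x : ℝ) ^ (d * ν) := hx₄ x (by omega)
        have h2 : (x : ℝ) ^ (d - 1) = (x : ℝ) ^ (d * ν) * (x : ℝ) ^ ((d : ℝ) - 1 - d * ν) := by
          rw [← Real.rpow_natCast, ← Real.rpow_add hx0, Nat.cast_sub (by omega : 1 ≤ d)]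
          congr 1; push_cast; ring
        have h3 : 1 ≤ min c₂ 1 / 2 * (x : ℝ) ^ (d * ν) := by
          rw [div_le_iff₀ hmin0] at h1
          linarith
        calc (x : ℝ) ^ ((d : ℝ) - 1 - d * ν) = 1 * (x : ℝ) ^ ((d : ℝ) - 1 - d * ν) := (one_mul _).symm
          _ ≤ (min c₂ 1 / 2 * (x : ℝ) ^ (d * ν)) * (x : ℝ) ^ ((d : ℝ) - 1 - d * ν) :=
              mul_le_mul_of_nonneg_right h3 (by positivity)
          _ = min c₂ 1 / 2 * ((x : ℝ) ^ (d * ν) * (x : ℝ) ^ ((d : ℝ) - 1 - d * ν)) := by ring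
          _ = min c₂ 1 / 2 * (x : ℝ) ^ (d - 1) := by rw [← h2]
      apply hstep h hhH hlamh hxh
      · have h1 : (z : ℝ) ^ 5 ≤ lam * H := by
          have h2 : 1 / lam < z := hy₁.trans_le (by exact_mod_cast (by omega : y₁ ≤ z))
          rw [div_lt_iff₀ hlam0] at h2
          have h3 : (z : ℝ) ^ 6 ≤ H := by exact_mod_cast hz6
          have hz0 : (0 : ℝ) < z := by exact_mod_cast hz1
          calc (z : ℝ) ^ 5 = 1 * (z : ℝ) ^ 5 := (one_mul _).symm
            _ ≤ (z * lam) * (z : ℝ) ^ 5 := mul_le_mul_of_nonneg_right h2.le (by positivity)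
            _ = lam * (z : ℝ) ^ 6 := by ring
            _ ≤ _ := mul_le_mul_of_nonneg_left h3 hlam0.le
        exact_mod_cast h1.trans hlamh
      · apply hshort x (by omega) h hxh
        refine hh1.trans ?_
        exact mul_le_mul_of_nonneg_right (min_le_left _ _) (by positivity)

open Classical in
/-- the same for integer polynomials with positive leading coefficient, in the language of Bateman-Horn families -/
theorem shift_near (k : ℕ) (hk : 1 ≤ k) (f : ℤ[X]) (hf : 2 ≤ f.natDegree) (hl : 0 < f.leadingCoeff) (ν : ℝ) (hν0 : 0 < ν)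
    (hν1 : 4 * ν < 1) (hν2 : 2 * ν < 1 - 1 / (f.natDegree : ℝ)) (hν3 : ν < 1 / (f.natDegree : ℝ))
    (θ : ℝ) (hθ0 : 0 < θ) (hθ1 : θ < 1) :
    ∃ c : ℝ, 0 < c ∧ ∃ y₀ x₀ : ℕ, ∀ x : ℕ, x₀ ≤ x → ∀ H : ℕ, (x : ℝ) ^ ((f.natDegree : ℝ) - 1 - f.natDegree * ν) ≤ H →
      2 ^ f.natDegree * H ≤ x ^ f.natDegree → ∀ z : ℕ, y₀ ≤ z → z ^ 6 ≤ H →
      c * (H : ℝ) ^ k ≤ #((Fintype.piFinset fun _ : Fin k => Icc 1 H).filter (fun h =>
        BHFamily (fun i => f + C (h i : ℤ)) ∧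
        θ * eulerProduct (fun i => f + C (h i : ℤ)) z * (x / (f.natDegree * Real.log x) ^ k) ≤
          primeCount (fun i => f + C (h i : ℤ)) x ∧
        c * (x / (Real.log x) ^ k) ≤ primeCount (fun i => f + C (h i : ℤ)) x)) := by
  obtain ⟨N, hN⟩ := exists_nat_poly f hl
  obtain ⟨g, hgd, hg⟩ := hN N le_rfl
  set d := f.natDegree with hd
  have hd2 : (2 : ℝ) ≤ d := by exact_mod_cast hf
  set θ₂ : ℝ := (1 + θ) / 2 with hθ₂
  have hθ₂1 : θ₂ < 1 := by rw [hθ₂]; linarith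
  have hθ₂0 : θ < θ₂ := by rw [hθ₂]; linarith
  have hθ₂pos : 0 < θ₂ := by linarith
  have hgd1 : 2 ≤ g.natDegree := by omega
  obtain ⟨c₁, hc₁, y₀, x₁, hcore⟩ := near_main_g k hk g hgd1 ν hν0 hν1 (by rw [hgd]; exact hν2) (by rw [hgd]; exact hν3) θ₂ hθ₂pos hθ₂1
  rw [hgd] at hcore
  have hexp : 0 ≤ (d : ℝ) - 1 - d * ν := by
    have hd0 : (0 : ℝ) < d := by linarith
    have h1 : (d : ℝ) * (2 * ν) < d * (1 - 1 / d) := mul_lt_mul_of_pos_left hν2 hd0
    have h2 : (d : ℝ) * (1 - 1 / d) = d - 1 := by field_simp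
    rw [h2] at h1
    linarith
  set c : ℝ := c₁ / 2 with hc
  have hc0 : 0 < c := by positivity
  have hcc₁ : c ≤ c₁ := by rw [hc]; linarith
  obtain ⟨x₃, hx₃⟩ := log_pow_small k (c / (2 * k * d + 1)) (by positivity)
  obtain ⟨x₄, hx₄⟩ := exists_nat_gt (N * θ₂ / (θ₂ - θ))
  refine ⟨c, hc0, y₀, x₁ + x₃ + x₄ + 2 * N + 3, fun x hx H hxH hHx z hz hz6 => ?_⟩
  set x' := x - N with hx'
  have hx'x : x' + N = x := by omega
  have hxr : (0 : ℝ) < x := by exact_mod_cast (by omega : 0 < x)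
  have hx'r : (x' : ℝ) = x - N := by rw [hx', Nat.cast_sub (by omega)]
  have hlogx : 0 < Real.log x := Real.log_pos (by exact_mod_cast (by omega : 1 < x))
  have hlogx' : 0 < Real.log x' := Real.log_pos (by exact_mod_cast (by omega : 1 < x'))
  have hlogle : Real.log x' ≤ Real.log x := Real.log_le_log (by exact_mod_cast (by omega : 0 < x'))
    (by exact_mod_cast (by omega : x' ≤ x))
  have hKH' : (x' : ℝ) ^ ((d : ℝ) - 1 - d * ν) ≤ H :=
    le_trans (Real.rpow_le_rpow (Nat.cast_nonneg _) (by exact_mod_cast (by omega : x' ≤ x)) hexp) hxH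
  have hHx' : H ≤ x' ^ d := by
    have h1 : x ^ d ≤ 2 ^ d * x' ^ d := by
      rw [← mul_pow]; exact Nat.pow_le_pow_left (by omega) _
    exact Nat.le_of_mul_le_mul_left (hHx.trans h1) (by positivity)
  have hmain := hcore x' (by omega) H hKH' hHx' z hz hz6
  set μ : ℝ := x / (d * Real.log x) ^ k with hμ
  set μ' : ℝ := x' / (d * Real.log x') ^ k with hμ'
  have hμ0 : 0 < μ := by positivity
  have hμμ' : (1 - N / x) * μ ≤ μ' := by
    have h1 : (1 - N / x) * μ = x' / (d * Real.log x) ^ k := by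
      rw [hμ, hx'r]; field_simp
    rw [h1, hμ']
    apply div_le_div_of_nonneg_left (Nat.cast_nonneg _) (by positivity)
    apply pow_le_pow_left₀ (by positivity)
    exact mul_le_mul_of_nonneg_left hlogle (by positivity)
  have hNx : θ ≤ θ₂ * (1 - N / x) := by
    have h1 : N * θ₂ / (θ₂ - θ) < x := hx₄.trans_le (by exact_mod_cast (by omega : x₄ ≤ x))
    rw [div_lt_iff₀ (by linarith)] at h1
    have h2 : θ₂ * (1 - N / x) = θ₂ - N * θ₂ / x := by field_simp
    rw [h2]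
    have h3 : N * θ₂ / (x : ℝ) ≤ θ₂ - θ := by
      rw [div_le_iff₀ hxr]; linarith
    linarith
  have hNx2 : (1 : ℝ) / 2 ≤ 1 - N / x := by
    have : (N : ℝ) / x ≤ 1 / 2 := by
      rw [div_le_div_iff₀ hxr (by norm_num)]
      have : (2 * N : ℝ) ≤ x := by exact_mod_cast (by omega : 2 * N ≤ x)
      linarith
    linarith
  have hcμ : c * (x / (Real.log x) ^ k) ≤ c₁ * (x' / (Real.log x') ^ k) := by
    have h1 : (1 / 2 : ℝ) * (x / (Real.log x) ^ k) ≤ x' / (Real.log x') ^ k := by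
      calc (1 / 2 : ℝ) * (x / (Real.log x) ^ k) ≤ (1 - N / x) * (x / (Real.log x) ^ k) :=
            mul_le_mul_of_nonneg_right hNx2 (by positivity)
        _ = x' / (Real.log x) ^ k := by rw [hx'r]; field_simp
        _ ≤ _ := by
            apply div_le_div_of_nonneg_left (Nat.cast_nonneg _) (by positivity)
            exact pow_le_pow_left₀ hlogx'.le hlogle k
    calc c * (x / (Real.log x) ^ k) = c₁ * ((1 / 2) * (x / (Real.log x) ^ k)) := by rw [hc]; ring
      _ ≤ _ := mul_le_mul_of_nonneg_left h1 hc₁.le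
  have hbig : (2 * k * d + 1 : ℝ) ≤ c * (x / (Real.log x) ^ k) := by
    have h1 := hx₃ x (by omega)
    rw [mul_div_assoc', le_div_iff₀ (by positivity)]
    calc (2 * k * d + 1 : ℝ) * Real.log x ^ k ≤ (2 * k * d + 1 : ℝ) * (c / (2 * k * d + 1) * x) :=
          mul_le_mul_of_nonneg_left h1 (by positivity)
      _ = c * x := by field_simp
  refine le_trans ?_ (hmain.trans ?_)
  · exact mul_le_mul_of_nonneg_right hcc₁ (by positivity)
  · rw [Nat.cast_le]
    apply card_le_card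
    intro h hh
    rw [mem_filter] at hh ⊢
    obtain ⟨hB, h1, h2, hinj⟩ := hh
    have hpc := primeCount_shift (fun _ : Fin k => f) (fun _ => g) N (fun _ => hg) h x (by omega)
    rw [← hx'] at hpc
    have hpcr : (cntS (fun _ : Fin k => fun n => g.eval n) h x' : ℝ) ≤ primeCount (fun i => f + C (h i : ℤ)) x := by
      exact_mod_cast hpc
    have h3 : c * (x / (Real.log x) ^ k) ≤ primeCount (fun i => f + C (h i : ℤ)) x := hcμ.trans (h2.trans hpcr)
    refine ⟨hB, ?_, ?_, h3⟩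
    · apply BHFamily_shift (fun _ => f) (fun _ => by omega) (fun _ => hl) h ?_ x
      · have h4 := hbig.trans h3
        rw [sum_const, card_fin, smul_eq_mul]
        have h5 : 2 * k * d + 1 ≤ primeCount (fun i => f + C (h i : ℤ)) x := by exact_mod_cast h4
        have h6 : 2 * (k * f.natDegree) = 2 * k * d := by rw [hd]; ring
        omega
      · intro i j hij
        apply hinj
        have h4 : f + C (h i : ℤ) = f + C (h j : ℤ) := hij
        have h5 := C_injective (add_left_cancel h4)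
        exact_mod_cast h5
    · rw [eulerProduct_shift (fun _ => f) (fun _ => g) N (fun _ => hg) h z]
      refine le_trans ?_ (h1.trans hpcr)
      have hs := sgS_nonneg (fun _ : Fin k => fun n => g.eval n) h z
      calc θ * sgS (fun _ : Fin k => fun n => g.eval n) h z * μ ≤
            (θ₂ * (1 - N / x)) * sgS (fun _ : Fin k => fun n => g.eval n) h z * μ := by
            apply mul_le_mul_of_nonneg_right _ hμ0.le
            exact mul_le_mul_of_nonneg_right hNx hs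
        _ = θ₂ * sgS (fun _ : Fin k => fun n => g.eval n) h z * ((1 - N / x) * μ) := by ring
        _ ≤ _ := mul_le_mul_of_nonneg_left hμμ' (by positivity)

end Pool.Agent.H373R2.T4
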