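import Mathlib
import Pool.Agent.H373R2.BH.Defs

namespace Pool.Agent.H373R2.T4
open Finset Polynomial
open Pool.Agent.H373R2.BH (BHFamily omegaP eulerProduct primeCount)

/-- Admissible triples: `gcd(a,b,c) = 1`, `b^2 - 4ac` is not a square, `a + b` and `c` are not both even. -/
def Admissible (a b c : ℤ) : Prop :=
  Int.gcd (Int.gcd a b : ℤ) c = 1 ∧ ¬ IsSquare (b ^ 2 - 4 * a * c) ∧ ¬ (Even (a + b) ∧ Even c)

/-- the polynomial `a X^2 + b X` -/
noncomputable def qp (a b : ℤ) : ℤ[X] := C a * X ^ 2 + C b * X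

lemma qp_natDegree (a b : ℤ) (ha : a ≠ 0) : (qp a b).natDegree = 2 := by
  unfold qp; compute_degree!

lemma qp_leadingCoeff (a b : ℤ) (ha : a ≠ 0) : (qp a b).leadingCoeff = a := by
  rw [leadingCoeff, qp_natDegree a b ha]
  unfold qp
  rw [coeff_add, coeff_C_mul, coeff_X_pow, coeff_C_mul, coeff_X]
  norm_num

lemma qp_eval (a b c n : ℤ) : (qp a b + C c).eval n = a * n ^ 2 + b * n + c := by
  unfold qp
  simp [eval_add, eval_mul]

lemma lin_ne (a s : ℤ) (ha : 0 < a) : (C (2 * a) * X + C s : ℤ[X]) ≠ 0 := by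
  intro h0
  have h1 : (C (2 * a) * X + C s : ℤ[X]).natDegree = 1 := natDegree_linear (by omega)
  rw [h0, natDegree_zero] at h1
  omega

/-- members of Bateman-Horn families of quadratic polynomials are admissible -/
lemma admissible_of_BH {k : ℕ} (a b : ℤ) (ha : 0 < a) (h : Fin k → ℕ) (hB : BHFamily (fun i => qp a b + C (h i : ℤ))) (i : Fin k) :
    Admissible a b (h i) := by
  obtain ⟨_, hirr, hdeg, _, hfix⟩ := hB
  have hirr := hirr i
  have hdeg := hdeg i
  have hfix := hfix 2 Nat.prime_two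
  simp only at hirr hdeg
  have hd2 : (qp a b + C (h i : ℤ)).natDegree = 2 := by
    rw [natDegree_add_C]; exact qp_natDegree a b ha.ne'
  refine ⟨?_, ?_, ?_⟩
  · have hprim := hirr.isPrimitive (by omega)
    set e : ℕ := Int.gcd (Int.gcd a b : ℤ) (h i) with he
    have h1 : (e : ℤ) ∣ a := (Int.gcd_dvd_left _ _).trans (Int.gcd_dvd_left a b)
    have h2 : (e : ℤ) ∣ b := (Int.gcd_dvd_left _ _).trans (Int.gcd_dvd_right a b)
    have h3 : (e : ℤ) ∣ (h i : ℤ) := Int.gcd_dvd_right _ _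
    have h4 : C (e : ℤ) ∣ qp a b + C (h i : ℤ) := by
      unfold qp
      apply dvd_add (dvd_add _ _) _
      · exact Dvd.dvd.mul_right (map_dvd C h1) _
      · exact Dvd.dvd.mul_right (map_dvd C h2) _
      · exact map_dvd C h3
    have h5 := hprim _ h4
    rw [Int.isUnit_iff] at h5
    omega
  · rintro ⟨s, hs⟩
    have h1 : (qp a b + C (h i : ℤ)) ∣ (C (2 * a) * X + C (b - s)) * (C (2 * a) * X + C (b + s)) := by
      refine ⟨C (4 * a), ?_⟩
      have h2 : C (4 * a * (h i : ℤ)) = C (b ^ 2 - s * s) := by congr 1; linarith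
      unfold qp
      simp only [map_mul, map_sub, map_add, map_pow, map_ofNat] at h2 ⊢
      linear_combination -h2
    rcases hirr.prime.dvd_or_dvd h1 with h2 | h2
    · have h3 := natDegree_le_of_dvd h2 (lin_ne a _ ha)
      have h4 : (C (2 * a) * X + C (b - s)).natDegree ≤ 1 := natDegree_linear_le
      omega
    · have h3 := natDegree_le_of_dvd h2 (lin_ne a _ ha)
      have h4 : (C (2 * a) * X + C (b + s)).natDegree ≤ 1 := natDegree_linear_le
      omega
  · rintro ⟨h1, h2⟩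
    obtain ⟨n, hn⟩ := hfix
    apply hn
    refine Dvd.dvd.trans ?_ (dvd_prod_of_mem _ (mem_univ i))
    rw [qp_eval]
    have h3 : Even (a * n ^ 2 + b * n + (h i : ℤ)) := by
      have h4 : a * n ^ 2 + b * n + (h i : ℤ) = (a + b) * n + a * (n * (n - 1)) + (h i : ℤ) := by ring
      rw [h4]
      apply Even.add (Even.add _ _) h2
      · exact h1.mul_right n
      · apply Even.mul_left
        rw [mul_comm, Int.even_mul]
        rcases Int.even_or_odd n with h5 | h5
        · right; exact h5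
        · left
          obtain ⟨t, ht⟩ := h5
          exact ⟨t, by rw [ht]; ring⟩
    exact_mod_cast h3.two_dvd

/-- the number of residues `r` mod `p` such that `p` divides `a r^2 + b r + c_i` for some `i` -/
def nu (a b : ℤ) {k : ℕ} (c : Fin k → ℤ) (p : ℕ) : ℕ := #((range p).filter (fun r : ℕ => ∃ i, (p : ℤ) ∣ a * (r : ℤ) ^ 2 + b * r + c i))

/-- the product over the primes `p ≤ z` of `(1 - 1/p)^(-k) (1 - nu(p)/p)` -/
noncomputable def HL (a b : ℤ) {k : ℕ} (c : Fin k → ℤ) (z : ℕ) : ℝ :=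
  ∏ p ∈ (range (z + 1)).filter Nat.Prime, (((1 - 1 / (p : ℝ)) ^ k)⁻¹ * (1 - (nu a b c p : ℝ) / p))

lemma HL_eq (a b : ℤ) {k : ℕ} (h : Fin k → ℕ) (z : ℕ) :
    eulerProduct (fun i => qp a b + C (h i : ℤ)) z = HL a b (fun i => (h i : ℤ)) z := by
  unfold eulerProduct HL
  apply prod_congr rfl; intro p _
  have h1 : omegaP (fun i => qp a b + C (h i : ℤ)) p = nu a b (fun i => (h i : ℤ)) p := by
    unfold omegaP nu
    congr 1
    ext r
    rw [mem_filter, mem_filter]
    simp only [qp_eval]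
  rw [h1]

lemma HL_nonneg (a b : ℤ) {k : ℕ} (c : Fin k → ℤ) (z : ℕ) : 0 ≤ HL a b c z := by
  unfold HL
  apply prod_nonneg; intro p hp
  rw [mem_filter] at hp
  have hp1 : (1 : ℝ) < p := by exact_mod_cast hp.2.one_lt
  have h1 : (0 : ℝ) ≤ 1 - 1 / (p : ℝ) := by
    have : 1 / (p : ℝ) ≤ 1 := by rw [div_le_one (by linarith)]; linarith
    linarith
  have h2 : (nu a b c p : ℝ) / p ≤ 1 := by
    rw [div_le_one (by linarith)]
    have : nu a b c p ≤ p := by
      unfold nu
      exact (card_filter_le _ _).trans (by rw [card_range])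
    exact_mod_cast this
  have h3 : 0 ≤ 1 - (nu a b c p : ℝ) / p := by linarith
  positivity

lemma nu_two (a b c : ℤ) (hadm : ¬ (Even (a + b) ∧ Even c)) :
    nu a b (fun _ : Fin 1 => c) 2 = if Even (a + b) then 0 else 1 := by
  unfold nu
  simp only [exists_const]
  have h1 : (range 2) = {0, 1} := rfl
  rw [h1]
  have h2 : ∀ m : ℤ, ((2 : ℕ) : ℤ) ∣ m ↔ Even m := fun m => by
    rw [even_iff_two_dvd]; rfl
  simp only [h2]
  split_ifs with h
  · have h3 : ¬ Even c := fun h' => hadm ⟨h, h'⟩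
    rw [card_eq_zero, filter_eq_empty_iff]
    intro r hr
    rw [mem_insert, mem_singleton] at hr
    rcases hr with rfl | rfl
    · simpa using h3
    · have e1 : a * ((1 : ℕ) : ℤ) ^ 2 + b * ((1 : ℕ) : ℤ) + c = (a + b) + c := by push_cast; ring
      rw [e1, Int.even_add]
      tauto
  · by_cases h3 : Even c
    · have : ({0, 1} : Finset ℕ).filter (fun r : ℕ => Even (a * (r : ℤ) ^ 2 + b * r + c)) = {0} := by
        ext r
        rw [mem_filter, mem_insert, mem_singleton, mem_singleton]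
        constructor
        · rintro ⟨rfl | rfl, h4⟩
          · rfl
          · exfalso
            have e1 : a * ((1 : ℕ) : ℤ) ^ 2 + b * ((1 : ℕ) : ℤ) + c = (a + b) + c := by push_cast; ring
            rw [e1, Int.even_add] at h4
            tauto
        · rintro rfl
          exact ⟨Or.inl rfl, by simpa using h3⟩
      rw [this, card_singleton]
    · have : ({0, 1} : Finset ℕ).filter (fun r : ℕ => Even (a * (r : ℤ) ^ 2 + b * r + c)) = {1} := by
        ext r
        rw [mem_filter, mem_insert, mem_singleton]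
        constructor
        · rintro ⟨rfl | rfl, h4⟩
          · exact absurd (by simpa using h4) h3
          · rfl
        · rintro rfl
          refine ⟨Or.inr rfl, ?_⟩
          have e1 : a * ((1 : ℕ) : ℤ) ^ 2 + b * ((1 : ℕ) : ℤ) + c = (a + b) + c := by push_cast; ring
          rw [e1, Int.even_add]
          tauto
      rw [this, card_singleton]

lemma nu_odd (a b c : ℤ) (p : ℕ) (hp : p.Prime) (hp2 : p ≠ 2) (hpa : ¬ (p : ℤ) ∣ a) :
    (nu a b (fun _ : Fin 1 => c) p : ℤ) = jacobiSym (b ^ 2 - 4 * a * c) p + 1 := by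
  have : Fact p.Prime := ⟨hp⟩
  rw [← jacobiSym.legendreSym.to_jacobiSym, ← legendreSym.card_sqrts p hp2]
  have h2 : (2 : ZMod p) ≠ 0 := by
    intro h
    have h3 : ((2 : ℕ) : ZMod p) = 0 := by exact_mod_cast h
    rw [ZMod.natCast_eq_zero_iff] at h3
    exact hp2 ((Nat.prime_dvd_prime_iff_eq hp Nat.prime_two).1 h3)
  have ha : (a : ZMod p) ≠ 0 := by
    intro h; rw [ZMod.intCast_zmod_eq_zero_iff_dvd] at h; exact hpa h
  have h2a : (2 * (a : ZMod p)) ≠ 0 := mul_ne_zero h2 ha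
  have h1 : nu a b (fun _ : Fin 1 => c) p = #({x : ZMod p | x ^ 2 = ((b ^ 2 - 4 * a * c : ℤ) : ZMod p)} : Set (ZMod p)).toFinset := by
    unfold nu
    have key : ∀ r : ℕ, (∃ _ : Fin 1, (p : ℤ) ∣ a * (r : ℤ) ^ 2 + b * r + c) ↔
        (2 * (a : ZMod p) * (r : ZMod p) + b) ^ 2 = ((b ^ 2 - 4 * a * c : ℤ) : ZMod p) := by
      intro r
      rw [exists_const, ← ZMod.intCast_zmod_eq_zero_iff_dvd]
      push_cast
      constructor
      · intro h
        linear_combination 4 * (a : ZMod p) * h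
      · intro h
        have h4 : (2 * (a : ZMod p)) * 2 * ((a : ZMod p) * (r : ZMod p) ^ 2 + b * r + c) = 0 := by linear_combination h
        rcases mul_eq_zero.1 h4 with h5 | h5
        · exact absurd h5 (mul_ne_zero h2a h2)
        · exact h5
    apply card_bij (fun (r : ℕ) _ => 2 * (a : ZMod p) * (r : ZMod p) + b)
    · intro r hr
      rw [mem_filter] at hr
      simp only [Set.mem_toFinset, Set.mem_ofPred_eq]
      exact (key r).1 hr.2
    · intro r hr s hs hrs
      rw [mem_filter, mem_range] at hr hs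
      have hrs' : (r : ZMod p) = s := mul_left_cancel₀ h2a (add_right_cancel hrs)
      have := (ZMod.natCast_eq_natCast_iff' r s p).1 hrs'
      rwa [Nat.mod_eq_of_lt hr.1, Nat.mod_eq_of_lt hs.1] at this
    · intro x hx
      simp only [Set.mem_toFinset, Set.mem_ofPred_eq] at hx
      have hval : ((((x - b) * (2 * (a : ZMod p))⁻¹ : ZMod p).val : ℕ) : ZMod p) = (x - b) * (2 * (a : ZMod p))⁻¹ :=
        ZMod.natCast_zmod_val _
      have hx2 : 2 * (a : ZMod p) * ((((x - b) * (2 * (a : ZMod p))⁻¹ : ZMod p).val : ℕ) : ZMod p) + b = x := by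
        rw [hval, mul_comm (x - b), ← mul_assoc, mul_inv_cancel₀ h2a]; ring
      refine ⟨((x - b) * (2 * (a : ZMod p))⁻¹ : ZMod p).val, ?_, hx2⟩
      rw [mem_filter, mem_range]
      refine ⟨ZMod.val_lt _, (key _).2 ?_⟩
      rw [hx2]; exact hx
  rw [h1]

lemma nu_one (a b c : ℤ) (p : ℕ) (hp : p.Prime) (hpa : (p : ℤ) ∣ a) (hpb : ¬ (p : ℤ) ∣ b) :
    nu a b (fun _ : Fin 1 => c) p = 1 := by
  have : Fact p.Prime := ⟨hp⟩
  have ha : (a : ZMod p) = 0 := (ZMod.intCast_zmod_eq_zero_iff_dvd a p).2 hpa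
  have hb : (b : ZMod p) ≠ 0 := by
    intro h; rw [ZMod.intCast_zmod_eq_zero_iff_dvd] at h; exact hpb h
  unfold nu
  rw [card_eq_one]
  have key : ∀ r : ℕ, (∃ _ : Fin 1, (p : ℤ) ∣ a * (r : ℤ) ^ 2 + b * r + c) ↔ (r : ZMod p) = -c * (b : ZMod p)⁻¹ := by
    intro r
    rw [exists_const, ← ZMod.intCast_zmod_eq_zero_iff_dvd]
    push_cast
    rw [ha, zero_mul, zero_add]
    constructor
    · intro h
      have h1 : (b : ZMod p) * r = -c := by linear_combination h
      rw [← h1]; field_simp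
    · intro h
      rw [h]; field_simp; ring
  refine ⟨(-c * (b : ZMod p)⁻¹ : ZMod p).val, ?_⟩
  ext r
  rw [mem_filter, mem_range, mem_singleton, key]
  constructor
  · rintro ⟨h1, h2⟩
    rw [← h2, ZMod.val_natCast, Nat.mod_eq_of_lt h1]
  · rintro rfl
    exact ⟨ZMod.val_lt _, ZMod.natCast_zmod_val _⟩

lemma nu_zero (a b c : ℤ) (p : ℕ) (hpa : (p : ℤ) ∣ a) (hpb : (p : ℤ) ∣ b) (hpc : ¬ (p : ℤ) ∣ c) :
    nu a b (fun _ : Fin 1 => c) p = 0 := by
  unfold nu
  rw [card_eq_zero, filter_eq_empty_iff]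
  intro r _ h
  obtain ⟨_, h⟩ := h
  apply hpc
  have h1 : (p : ℤ) ∣ a * (r : ℤ) ^ 2 + b * r := dvd_add (hpa.mul_right _) (hpb.mul_right _)
  exact (dvd_add_right h1).1 h

/-- for one admissible polynomial the product is the one of Hardy and Littlewood -/
theorem HL_one (a b c : ℤ) (z : ℕ) (hadm : Admissible a b c) (hz : 2 ≤ z) :
    HL a b (fun _ : Fin 1 => c) z = (if Even (a + b) then (2 : ℝ) else 1) *
      (∏ p ∈ (range (z + 1)).filter (fun p => Nat.Prime p ∧ 2 < p ∧ ¬ (p : ℤ) ∣ a),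
        (1 - (jacobiSym (b ^ 2 - 4 * a * c) p : ℝ) / ((p : ℝ) - 1))) *
      ∏ p ∈ (range (z + 1)).filter (fun p => Nat.Prime p ∧ 2 < p ∧ (p : ℤ) ∣ a ∧ (p : ℤ) ∣ b), ((p : ℝ) / ((p : ℝ) - 1)) := by
  obtain ⟨hg, _, hpar⟩ := hadm
  have h1 : (range (z + 1)).filter Nat.Prime = insert 2 ((range (z + 1)).filter (fun w => Nat.Prime w ∧ 2 < w)) := by
    ext w
    rw [mem_insert, mem_filter, mem_filter, mem_range]
    constructor
    · rintro ⟨h1, h2⟩
      by_cases h : w = 2
      · exact Or.inl h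
      · have := h2.two_le
        exact Or.inr ⟨h1, h2, by omega⟩
    · rintro (rfl | ⟨h1, h2, -⟩)
      · exact ⟨by omega, Nat.prime_two⟩
      · exact ⟨h1, h2⟩
  have hA : (range (z + 1)).filter (fun p => Nat.Prime p ∧ 2 < p ∧ ¬ (p : ℤ) ∣ a) =
      ((range (z + 1)).filter (fun w => Nat.Prime w ∧ 2 < w)).filter (fun p : ℕ => ¬ (p : ℤ) ∣ a) := by
    rw [filter_filter]; apply filter_congr; intro p _; tauto
  have hB : (range (z + 1)).filter (fun p => Nat.Prime p ∧ 2 < p ∧ (p : ℤ) ∣ a ∧ (p : ℤ) ∣ b) =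
      ((range (z + 1)).filter (fun w => Nat.Prime w ∧ 2 < w)).filter (fun p : ℕ => (p : ℤ) ∣ a ∧ (p : ℤ) ∣ b) := by
    rw [filter_filter]; apply filter_congr; intro p _; tauto
  unfold HL
  rw [h1, prod_insert (by simp), nu_two a b c hpar, hA, hB]
  have hmem : ∀ p ∈ (range (z + 1)).filter (fun w => Nat.Prime w ∧ 2 < w), Nat.Prime p ∧ 2 < p := fun p hp => (mem_filter.1 hp).2
  generalize (range (z + 1)).filter (fun w => Nat.Prime w ∧ 2 < w) = S at hmem
  rw [prod_filter, prod_filter, mul_assoc (if Even (a + b) then (2 : ℝ) else 1), ← prod_mul_distrib]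
  congr 1
  · split_ifs <;> norm_num
  · apply prod_congr rfl; intro p hpS
    have hp : True ∧ Nat.Prime p ∧ 2 < p := ⟨trivial, hmem p hpS⟩
    have hp1 : (1 : ℝ) < p := by exact_mod_cast hp.2.1.one_lt
    have hp0 : (p : ℝ) ≠ 0 := by linarith
    have h3 : (p : ℝ) - 1 ≠ 0 := by linarith
    by_cases hpa : (p : ℤ) ∣ a
    · by_cases hpb : (p : ℤ) ∣ b
      · have hpc : ¬ (p : ℤ) ∣ c := by
          intro h
          have h4 : (p : ℤ) ∣ (Int.gcd (Int.gcd a b : ℤ) c : ℤ) := Int.dvd_coe_gcd (Int.dvd_coe_gcd hpa hpb) h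
          rw [hg] at h4
          have h5 : p ∣ 1 := by exact_mod_cast h4
          exact hp.2.1.one_lt.ne' (Nat.dvd_one.1 h5)
        rw [nu_zero a b c p hpa hpb hpc, if_neg (by tauto), if_pos ⟨hpa, hpb⟩]
        push_cast; field_simp; ring
      · rw [nu_one a b c p hp.2.1 hpa hpb, if_neg (by tauto), if_neg (by tauto)]
        push_cast; field_simp
    · have h4 : (nu a b (fun _ : Fin 1 => c) p : ℝ) = (jacobiSym (b ^ 2 - 4 * a * c) p : ℝ) + 1 := by
        have := nu_odd a b c p hp.2.1 (by omega) hpa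
        exact_mod_cast this
      rw [h4, if_pos hpa, if_neg (by tauto)]
      field_simp
      ring

end Pool.Agent.H373R2.T4
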