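import Mathlib
import Pool.Agent.H373R2.T4.NearMainG

namespace Pool.Agent.H373R2.T4
open Finset Polynomial
open Pool.Agent.H373R2.SH

open Classical in
theorem near_sq (k : ℕ) (hk : 1 ≤ k) (δ : ℝ) (hδ0 : 0 < δ) (hδ1 : δ < 1 / 2) (θ : ℝ) (hθ0 : 0 < θ) (hθ1 : θ < 1) :
    ∃ c : ℝ, 0 < c ∧ ∃ y₀ x₀ : ℕ, ∀ x : ℕ, x₀ ≤ x → ∀ H : ℕ, (x : ℝ) ^ (1 / 2 + δ) ≤ H → H ≤ x ^ 2 →
      ∀ z : ℕ, y₀ ≤ z → z ^ 6 ≤ H →
      c * (H : ℝ) ^ k ≤ #((Sx (fun _ : Fin k => H)).filter (fun h =>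
        θ * sgS (fun _ n => n ^ 2) h z * (x / (2 * Real.log x) ^ k) ≤ cntS (fun _ n => n ^ 2) h x ∧
        c * (x / (Real.log x) ^ k) ≤ cntS (fun _ n => n ^ 2) h x ∧ Function.Injective h)) := by
  have hdeg : (X ^ 2 : ℕ[X]).natDegree = 2 := natDegree_X_pow 2
  obtain ⟨c, hc, y₀, x₀, h⟩ := near_main_g k hk (X ^ 2 : ℕ[X]) (by rw [hdeg]) (1 / 4 - δ / 2) (by linarith) (by linarith)
    (by rw [hdeg]; push_cast; linarith) (by rw [hdeg]; push_cast; linarith) θ hθ0 hθ1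
  rw [hdeg] at h
  simp only [eval_pow, eval_X] at h
  refine ⟨c, hc, y₀, x₀, fun x hx H hH1 hH2 z hz hz6 => ?_⟩
  have h1 := h x hx H (by
    have : ((2 : ℕ) : ℝ) - 1 - ((2 : ℕ) : ℝ) * (1 / 4 - δ / 2) = 1 / 2 + δ := by push_cast; ring
    rw [this]; exact hH1) hH2 z hz hz6
  exact_mod_cast h1

open Classical in
theorem near_sq_add (k : ℕ) (hk : 1 ≤ k) (δ : ℝ) (hδ0 : 0 < δ) (hδ1 : δ < 1 / 2) (θ : ℝ) (hθ0 : 0 < θ) (hθ1 : θ < 1) :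
    ∃ c : ℝ, 0 < c ∧ ∃ y₀ x₀ : ℕ, ∀ x : ℕ, x₀ ≤ x → ∀ H : ℕ, (x : ℝ) ^ (1 / 2 + δ) ≤ H → H ≤ x ^ 2 →
      ∀ z : ℕ, y₀ ≤ z → z ^ 6 ≤ H →
      c * (H : ℝ) ^ k ≤ #((Sx (fun _ : Fin k => H)).filter (fun h =>
        θ * sgS (fun _ n => n ^ 2 + n) h z * (x / (2 * Real.log x) ^ k) ≤ cntS (fun _ n => n ^ 2 + n) h x ∧
        c * (x / (Real.log x) ^ k) ≤ cntS (fun _ n => n ^ 2 + n) h x ∧ Function.Injective h)) := by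
  have hdeg : (X ^ 2 + X : ℕ[X]).natDegree = 2 := by compute_degree!
  obtain ⟨c, hc, y₀, x₀, h⟩ := near_main_g k hk (X ^ 2 + X : ℕ[X]) (by rw [hdeg]) (1 / 4 - δ / 2) (by linarith) (by linarith)
    (by rw [hdeg]; push_cast; linarith) (by rw [hdeg]; push_cast; linarith) θ hθ0 hθ1
  rw [hdeg] at h
  simp only [eval_add, eval_pow, eval_X] at h
  refine ⟨c, hc, y₀, x₀, fun x hx H hH1 hH2 z hz hz6 => ?_⟩
  have h1 := h x hx H (by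
    have : ((2 : ℕ) : ℝ) - 1 - ((2 : ℕ) : ℝ) * (1 / 4 - δ / 2) = 1 / 2 + δ := by push_cast; ring
    rw [this]; exact hH1) hH2 z hz hz6
  exact_mod_cast h1

open Classical in
theorem near_cube (k : ℕ) (hk : 1 ≤ k) (δ : ℝ) (hδ0 : 0 < δ) (hδ1 : δ < 3 / 4) (θ : ℝ) (hθ0 : 0 < θ) (hθ1 : θ < 1) :
    ∃ c : ℝ, 0 < c ∧ ∃ y₀ x₀ : ℕ, ∀ x : ℕ, x₀ ≤ x → ∀ H : ℕ, (x : ℝ) ^ (5 / 4 + δ) ≤ H → H ≤ x ^ 3 →
      ∀ z : ℕ, y₀ ≤ z → z ^ 6 ≤ H →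
      c * (H : ℝ) ^ k ≤ #((Sx (fun _ : Fin k => H)).filter (fun h =>
        θ * sgS (fun _ n => n ^ 3) h z * (x / (3 * Real.log x) ^ k) ≤ cntS (fun _ n => n ^ 3) h x ∧
        c * (x / (Real.log x) ^ k) ≤ cntS (fun _ n => n ^ 3) h x ∧ Function.Injective h)) := by
  have hdeg : (X ^ 3 : ℕ[X]).natDegree = 3 := natDegree_X_pow 3
  obtain ⟨c, hc, y₀, x₀, h⟩ := near_main_g k hk (X ^ 3 : ℕ[X]) (by rw [hdeg]; norm_num) (1 / 4 - δ / 3) (by linarith) (by linarith)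
    (by rw [hdeg]; push_cast; linarith) (by rw [hdeg]; push_cast; linarith) θ hθ0 hθ1
  rw [hdeg] at h
  simp only [eval_pow, eval_X] at h
  refine ⟨c, hc, y₀, x₀, fun x hx H hH1 hH2 z hz hz6 => ?_⟩
  have h1 := h x hx H (by
    have : ((3 : ℕ) : ℝ) - 1 - ((3 : ℕ) : ℝ) * (1 / 4 - δ / 3) = 5 / 4 + δ := by push_cast; ring
    rw [this]; exact hH1) hH2 z hz hz6
  exact_mod_cast h1

end Pool.Agent.H373R2.T4
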